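import Pool.Agent.Lib.MP_a1e562_co.IH.Stm

/-!
# Piece [IH D1]: equal irreducible minimal polynomials give equal determinants
-/

set_option autoImplicit false

namespace Pool.Agent.TP3

open Configuration Polynomial

private theorem IHD1_dec (K V : Type) [Field K] [AddCommGroup V] [Module K V] [Finite V]
    (T : Module.End K V) (m : K[X]) (hm : Irreducible m) (h0 : aeval T m = 0) :
    ∃ d : ℕ, ∃ E : V ≃ₗ[K] (Fin d → AdjoinRoot m),
      ∀ v i, E (T v) i = AdjoinRoot.root m * E v i := by
  haveI : Fact (Irreducible m) := ⟨hm⟩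
  let f : AdjoinRoot m →ₐ[K] Module.End K V :=
    Ideal.Quotient.liftₐ (Ideal.span {m}) (aeval T) (by
      intro a ha
      obtain ⟨b, rfl⟩ := Ideal.mem_span_singleton'.1 ha
      rw [map_mul, h0, mul_zero])
  have hfr : f (AdjoinRoot.root m) = T := by
    show f (Ideal.Quotient.mk _ X) = T
    have : f (Ideal.Quotient.mk (Ideal.span {m}) X) = aeval T X := rfl
    rw [this, aeval_X]
  letI : Module (AdjoinRoot m) V := Module.compHom V (f : AdjoinRoot m →+* Module.End K V)
  have hsm : ∀ (l : AdjoinRoot m) (v : V), l • v = f l v := fun l v => rfl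
  haveI : Module.Finite (AdjoinRoot m) V := Module.Finite.of_finite
  let b := Module.finBasis (AdjoinRoot m) V
  let E0 := b.equivFun
  refine ⟨Module.finrank (AdjoinRoot m) V,
    { toFun := E0
      invFun := E0.symm
      left_inv := E0.left_inv
      right_inv := E0.right_inv
      map_add' := E0.map_add
      map_smul' := ?_ }, ?_⟩
  · intro c v
    have h1 : c • v = (algebraMap K (AdjoinRoot m) c) • v := by
      rw [hsm, AlgHom.commutes]
      rfl
    rw [h1, map_smul]
    funext i
    simp only [Pi.smul_apply, smul_eq_mul, RingHom.id_apply, Algebra.smul_def]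
  · intro v i
    have h1 : T v = (AdjoinRoot.root m) • v := by rw [hsm, hfr]
    show E0 (T v) i = AdjoinRoot.root m * E0 v i
    rw [h1, map_smul]
    rfl

theorem s_IHD1 : S_IHD1 := by
  intro K V _ _ _ _ _ T T' hT hT' heq
  rcases subsingleton_or_nontrivial V with hV | hV
  · have : T = T' := LinearMap.ext fun v => Subsingleton.elim _ _
    rw [this]
  haveI : Module.Finite K V := Module.Finite.of_finite
  have hint : IsIntegral K T := Algebra.IsIntegral.isIntegral T
  have hm0 : aeval T (minpoly K T) = 0 := minpoly.aeval K T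
  have hprime : Prime (minpoly K T) := by
    refine ⟨minpoly.ne_zero hint, minpoly.not_isUnit K T, ?_⟩
    intro a b hab
    have h1 : aeval T (a * b) = 0 := by
      obtain ⟨c, hc⟩ := hab
      rw [hc, map_mul, hm0, zero_mul]
    rw [map_mul] at h1
    by_cases hb : aeval T b = 0
    · exact Or.inr (minpoly.dvd K T hb)
    · left
      have h2 : ∃ v, aeval T b v ≠ 0 := by
        by_contra hc
        apply hb
        apply LinearMap.ext
        intro v
        by_contra h3
        exact hc ⟨v, h3⟩
      obtain ⟨v, hv⟩ := h2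
      apply minpoly.dvd
      apply hT _ a hv
      have := LinearMap.congr_fun h1 v
      simpa using this
  have hm := hprime.irreducible
  obtain ⟨d, E, hE⟩ := IHD1_dec K V T _ hm hm0
  obtain ⟨d', E', hE'⟩ := IHD1_dec K V T' _ hm ((heq _).1 hm0)
  haveI : Fact (Irreducible (minpoly K T)) := ⟨hm⟩
  haveI : Module.Finite K (AdjoinRoot (minpoly K T)) :=
    (AdjoinRoot.powerBasis hm.ne_zero).finite
  haveI : Finite (AdjoinRoot (minpoly K T)) := Module.finite_of_finite K
  have hc : Nat.card (AdjoinRoot (minpoly K T)) ^ d = Nat.card (AdjoinRoot (minpoly K T)) ^ d' := by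
    have h1 : Nat.card V = Nat.card (AdjoinRoot (minpoly K T)) ^ d := by
      rw [Nat.card_congr E.toEquiv, Nat.card_fun, Nat.card_fin]
    have h2 : Nat.card V = Nat.card (AdjoinRoot (minpoly K T)) ^ d' := by
      rw [Nat.card_congr E'.toEquiv, Nat.card_fun, Nat.card_fin]
    rw [← h1, h2]
  have hdd : d = d' := Nat.pow_right_injective Finite.one_lt_card hc
  subst hdd
  rw [← LinearMap.det_conj T E, ← LinearMap.det_conj T' E']
  congr 1
  apply LinearMap.ext
  intro v
  funext i
  have h1 := hE (E.symm v) i
  have h2 := hE' (E'.symm v) i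
  simp only [LinearEquiv.apply_symm_apply] at h1 h2
  show E (T (E.symm v)) i = E' (T' (E'.symm v)) i
  rw [h1, h2]

end Pool.Agent.TP3
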