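import Pool.Agent.Lib.MP_a1e562_co.IH.Stm

/-!
# MP_a1e562_co, project IH: piece D2 (the determinant principle)
-/

set_option autoImplicit false

namespace Pool.Agent.TP3

open Polynomial

theorem s_IHD2 : S_IHD2 := by
  intro hD1 K V _ _ _ _ _ S h A hA B hB hB0 T hT x φ hx M hM hMx
  obtain ⟨T', hT'⟩ := h.toHS.exT hB hB0 M
  have hinj := h.toHS.inj hB hB0
  have h1 : ∀ ψ : K[X], T' (aeval T ψ x) = aeval T (φ * ψ) x := by
    intro ψ
    apply hinj
    rw [hT', h.loc A hA B hB hB0 T hT x φ hx M hM hMx ψ]
  have h2 : ∀ (n : ℕ) (ψ : K[X]), (T' ^ n) (aeval T ψ x) = aeval T (φ ^ n * ψ) x := by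
    intro n
    induction n with
    | zero => intro ψ; simp
    | succ n ih =>
      intro ψ
      rw [pow_succ, Module.End.mul_apply, h1, ih, pow_succ, mul_assoc]
  have h3 : ∀ (s ψ : K[X]), aeval T' s (aeval T ψ x) = aeval T (s.comp φ * ψ) x := by
    intro s
    induction s using Polynomial.induction_on' with
    | add p q hp hq =>
      intro ψ
      rw [map_add, LinearMap.add_apply, hp, hq, add_comp, add_mul, map_add, LinearMap.add_apply]
    | monomial n a =>
      intro ψ
      rw [aeval_monomial, monomial_comp, mul_assoc, map_mul, aeval_C, Module.End.mul_apply,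
        Module.End.mul_apply, h2]
  have h4 : ∀ s : K[X], aeval T' s x = aeval (aeval T φ) s x := by
    intro s
    have := h3 s 1
    rw [map_one, Module.End.one_apply, mul_one, aeval_comp] at this
    exact this
  have hF' : FldT T' := h.fld M hM B hB hB0 T' hT'
  have hF : FldT T := h.fld A hA B hB hB0 T hT
  have hF'' : FldT (aeval T φ) := by
    intro g s hg hs
    rw [← aeval_comp] at hs ⊢
    exact hF g _ hg hs
  have h5 : LinearMap.det T' = LinearMap.det (aeval T φ) := by
    apply hD1 K V T' (aeval T φ) hF' hF''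
    intro s
    constructor
    · intro h0
      apply hF'' x s hx
      rw [← h4, h0, LinearMap.zero_apply]
    · intro h0
      apply hF' x s hx
      rw [h4, h0, LinearMap.zero_apply]
  have h6 : M = B * T' := LinearMap.ext fun v => (hT' v).symm
  rw [h6, map_mul, h5]

end Pool.Agent.TP3
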