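import Pool.Agent.Lib.MP_a1e562_co.IH.Stm

set_option autoImplicit false

namespace Pool.Agent.TP3

open Configuration Polynomial

theorem s_IHD3 : S_IHD3 := by
  intro K V _ _ _ _ _ S hL hDet A hA B hB C hC x hx hCx
  by_cases hB0 : B = 0
  · have h1 : C = A := hL.uq C hC A hA x hx (by rw [hCx, hB0, LinearMap.zero_apply, sub_zero])
    rw [h1, hB0, sub_zero]
  · obtain ⟨T, hT⟩ := hL.exT hB hB0 A
    have h1 : C x = B (aeval T (X - 1 : K[X]) x) := by
      rw [map_sub, aeval_X, map_one, LinearMap.sub_apply, Module.End.one_apply, map_sub, hT, hCx]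
    have h2 := hDet A hA B hB hB0 T hT x (X - 1) hx C hC h1
    rw [h2, ← LinearMap.det_comp]
    congr 1
    ext v
    rw [LinearMap.comp_apply, map_sub, aeval_X, map_one, LinearMap.sub_apply,
      Module.End.one_apply, map_sub, hT, LinearMap.sub_apply]

end Pool.Agent.TP3
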