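import Pool.Agent.Lib.MP_a1e562_co.IH.Stm

/-!
# Translation planes of characteristic three with an involutory homology: piece D4
-/

set_option autoImplicit false

namespace Pool.Agent.TP3

open Configuration Polynomial

section

variable {K V : Type} [Field K] [AddCommGroup V] [Module K V]

/-- inverses in the field of `T` -/
private theorem IHD4_inv (hF : S_SFFF) [Finite V] (T : Module.End K V) (hT : FldT T)
    (ψ : K[X]) (hψ : aeval T ψ ≠ 0) : ∃ χ : K[X], aeval T χ * aeval T ψ = 1 := by
  have hv : ∃ v : V, v ≠ 0 := by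
    by_contra h
    push Not at h
    apply hψ
    ext v
    rw [h v, map_zero, map_zero]
  obtain ⟨F, _, _, _, E, θ, hθ, hf⟩ := hF K V T hv hT
  have hE : ∀ φ : K[X], E (aeval θ φ) = aeval T φ := by
    intro φ
    rw [← hθ, Polynomial.aeval_algHom_apply]
  have h0 : aeval θ ψ ≠ 0 := by
    intro h
    apply hψ
    rw [← hE, h, map_zero]
  obtain ⟨χ, hχ⟩ := hf (aeval θ ψ)⁻¹
  refine ⟨χ, ?_⟩
  rw [← hE, ← hE, ← map_mul, ← hχ, inv_mul_cancel₀ h0, map_one]

private theorem IHD4_neg (hodd : Odd (Module.finrank K V)) (M : Module.End K V) :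
    LinearMap.det (-M) = - LinearMap.det M := by
  have h : -M = (-1 : K) • M := by rw [neg_one_smul]
  rw [h, LinearMap.det_smul, hodd.neg_one_pow, neg_one_mul]

private theorem IHD4_zero (hodd : Odd (Module.finrank K V)) :
    LinearMap.det (0 : Module.End K V) = 0 := by
  rw [LinearMap.det_zero, zero_pow]
  rintro h
  rw [h] at hodd
  exact (Nat.not_odd_zero hodd)

/-- the first claim -/
private theorem IHD4_one (hF : S_SFFF) [Finite V] {S : Set (Module.End K V)} (hS : HL K V S)
    (hD : DetP S) (hodd : Odd (Module.finrank K V)) {B X E : Module.End K V} (hB : B ∈ S)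
    (hX : X ∈ S) (hE : E ∈ S) {x v : V} (hB0 : B ≠ 0) (hX0 : X ≠ 0) (hx : x ≠ 0)
    (h1 : X v = B x) (h2 : E x = - B v) :
    LinearMap.det E * LinearMap.det X = - (LinearMap.det B) ^ 2 := by
  obtain ⟨T, hT⟩ := hS.toHS.exT hB hB0 X
  have hTv : T v = x := by
    apply hS.toHS.inj hB hB0
    rw [hT, h1]
  have hTf : FldT T := hS.fld X hX B hB hB0 T hT
  have hT0 : aeval T (Polynomial.X : K[X]) ≠ 0 := by
    rw [aeval_X]
    intro h
    apply hX0
    ext u
    rw [← hT, h, LinearMap.zero_apply, map_zero]
  obtain ⟨χ, hχ⟩ := IHD4_inv hF T hTf _ hT0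
  rw [aeval_X] at hχ
  have hv : aeval T χ x = v := by
    have := congrArg (fun f : Module.End K V => f v) hχ
    simp only [Module.End.mul_apply, Module.End.one_apply] at this
    rw [hTv] at this
    exact this
  have hdE := hD X hX B hB hB0 T hT x χ hx (-E) (hS.toHS.neg_mem hE) (by
    rw [LinearMap.neg_apply, h2, neg_neg, hv])
  rw [IHD4_neg hodd] at hdE
  have hXT : X = B * T := by
    ext u
    rw [Module.End.mul_apply, hT]
  have hdX : LinearMap.det X = LinearMap.det B * LinearMap.det T := by
    rw [hXT, map_mul]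
  have hdT : LinearMap.det (aeval T χ) * LinearMap.det T = 1 := by
    rw [← map_mul, hχ, map_one]
  rw [hdX]
  linear_combination (-(LinearMap.det B * LinearMap.det T)) * hdE - (LinearMap.det B) ^ 2 * hdT

end

/-- [IH D4] -/
theorem s_IHD4 : S_IHD4 := by
  intro hF K V _ _ _ _ _ S hS hD hD3 hodd B hB X hX Y hY E hE E' hE' x v v' hB0 hX0 hY0 hx h1 h2
    h3 h4
  refine ⟨IHD4_one hF hS hD hodd hB hX hE hB0 hX0 hx h1 h2, ?_⟩
  by_cases hXY : X = Y
  · subst hXY
    have hvv : v = v' := by
      apply hS.toHS.inj hX hX0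
      rw [h1, h3]
    subst hvv
    have hEE : E = E' := hS.uq E hE E' hE' x hx (by rw [h2, h4])
    subst hEE
    rw [sub_self, sub_self, IHD4_zero hodd]
    ring
  · have hBx : B x ≠ 0 := hS.toHS.apply_ne hB hB0 hx
    have hv0 : v ≠ 0 := by
      rintro rfl
      apply hBx
      rw [← h1, map_zero]
    have hw : v - v' ≠ 0 := by
      intro h
      apply hXY
      apply hS.uq X hX Y hY v hv0
      rw [h1, ← h3, sub_eq_zero.1 h]
    obtain ⟨D, hDS, hDw⟩ := hS.ex (v - v') hw (B x)
    have hD0 : D ≠ 0 := by
      rintro rfl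
      apply hBx
      rw [← hDw, LinearMap.zero_apply]
    -- the first step
    have hA : LinearMap.det D * LinearMap.det (Y - X) = LinearMap.det X * LinearMap.det Y := by
      obtain ⟨T, hT⟩ := hS.toHS.exT hY hY0 X
      have hTv : T v = v' := by
        apply hS.toHS.inj hY hY0
        rw [hT, h1, h3]
      have hTf : FldT T := hS.fld X hX Y hY hY0 T hT
      have h1T : aeval T (1 - Polynomial.X : K[X]) = 1 - T := by
        rw [map_sub, map_one, aeval_X]
      have hT0 : aeval T (1 - Polynomial.X : K[X]) ≠ 0 := by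
        rw [h1T]
        intro h
        apply hw
        have := congrArg (fun f : Module.End K V => f v) h
        simp only [LinearMap.sub_apply, Module.End.one_apply, LinearMap.zero_apply] at this
        rw [hTv] at this
        exact this
      obtain ⟨χ, hχ⟩ := IHD4_inv hF T hTf _ hT0
      rw [h1T] at hχ
      have hwv : aeval T (Polynomial.X * χ) (v - v') = v' := by
        have h5 : v - v' = (1 - T) v := by
          rw [LinearMap.sub_apply, Module.End.one_apply, hTv]
        rw [h5, ← Module.End.mul_apply, map_mul, mul_assoc, hχ, mul_one, aeval_X, hTv]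
      have hdD := hD X hX Y hY hY0 T hT (v - v') (Polynomial.X * χ) hw D hDS (by
        rw [hwv, hDw, h3])
      rw [map_mul, map_mul, aeval_X] at hdD
      have hXT : X = Y * T := by
        ext u
        rw [Module.End.mul_apply, hT]
      have hdX : LinearMap.det X = LinearMap.det Y * LinearMap.det T := by
        conv_lhs => rw [hXT]
        rw [map_mul]
      have hYX : Y - X = Y * (1 - T) := by
        rw [mul_sub, mul_one, ← hXT]
      have hdYX : LinearMap.det (Y - X) = LinearMap.det Y * LinearMap.det (1 - T) := by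
        rw [hYX, map_mul]
      have hdT : LinearMap.det (aeval T χ) * LinearMap.det (1 - T) = 1 := by
        rw [← map_mul, hχ, map_one]
      rw [hdD, hdYX, hdX]
      linear_combination (LinearMap.det Y * LinearMap.det T * LinearMap.det Y) * hdT
    -- the second step
    obtain ⟨C, hC, hCx⟩ := hS.ex x hx (E x - E' x)
    have hdC := hD3 E hE E' hE' C hC x hx hCx
    have hCB : C x = - B (v - v') := by
      rw [hCx, h2, h4, map_sub]
      abel
    have hB1 := IHD4_one hF hS hD hodd hB hDS hC hB0 hD0 hx hDw hCB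
    have hneg : LinearMap.det (Y - X) = - LinearMap.det (X - Y) := by
      rw [← neg_sub X Y, IHD4_neg hodd]
    rw [← hdC, ← hA, hneg]
    linear_combination (-(LinearMap.det (X - Y))) * hB1

end Pool.Agent.TP3
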