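import Pool.Agent.Lib.MP_a1e562_co.IH.Stm

/-!
# [IH D5] square roots
-/

set_option autoImplicit false

namespace Pool.Agent.TP3

open Configuration Polynomial

private theorem D5_sq {K F : Type} [Field K] [Finite K] [Field F] [Finite F] [Algebra K F]
    (D : F →* K) (m a o : ℕ) (hm : Odd m) (ha : a ≠ 0) (ho : Odd o)
    (hK : Nat.card K - 1 = 2 ^ a * o) (hD : ∀ c : K, D (algebraMap K F c) = c ^ m)
    (θ : F) (hθ : θ ≠ 0) (h1 : (D θ) ^ o = 1) : ∃ ρ : F, ρ * ρ = θ := by
  obtain ⟨γ, hγ⟩ := IsCyclic.exists_monoid_generator (α := Fˣ)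
  obtain ⟨c, hc⟩ := IsCyclic.exists_generator (α := Kˣ)
  obtain ⟨j, hj⟩ := Submonoid.mem_powers_iff _ _ |>.1 (hγ (Units.mk0 θ hθ))
  have hjF : (γ : F) ^ j = θ := by
    have := congrArg (Units.val) hj
    simpa using this
  rcases Nat.even_or_odd j with hje | hjo
  · obtain ⟨k, hk⟩ := hje
    refine ⟨(γ : F) ^ k, ?_⟩
    rw [← pow_add, ← hk, hjF]
  · exfalso
    obtain ⟨i, hi⟩ := Submonoid.mem_powers_iff _ _ |>.1 (hγ (Units.map (algebraMap K F).toMonoidHom c))
    have hiF : (γ : F) ^ i = algebraMap K F (c : K) := by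
      have := congrArg (Units.val) hi
      simpa using this
    have h2 : (c : K) ^ m = (D (γ : F)) ^ i := by
      rw [← hD, ← hiF, map_pow]
    have h3 : (c : K) ^ (m * (j * o)) = 1 := by
      rw [pow_mul, h2, ← pow_mul, mul_comm i, mul_assoc, mul_comm o, ← mul_assoc]
      rw [mul_assoc, pow_mul, ← map_pow, hjF, mul_comm i, pow_mul, h1, one_pow]
    have h4 : c ^ (m * (j * o)) = 1 := by
      apply Units.ext
      rw [Units.val_pow_eq_pow_val, h3, Units.val_one]
    have h5 : orderOf c ∣ m * (j * o) := orderOf_dvd_of_pow_eq_one h4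
    have h6 : orderOf c = Nat.card Kˣ := orderOf_eq_card_of_forall_mem_zpowers hc
    have h7 : Nat.card Kˣ = Nat.card K - 1 := by
      rw [Nat.card_units]
    rw [h6, h7, hK] at h5
    have h8 : 2 ∣ m * (j * o) := by
      refine dvd_trans ?_ h5
      exact dvd_mul_of_dvd_left (dvd_pow_self 2 ha) o
    have h9 : Odd (m * (j * o)) := hm.mul (hjo.mul ho)
    rw [← Nat.not_even_iff_odd] at h9
    exact h9 (even_iff_two_dvd.2 h8)

theorem s_IHD5 : S_IHD5 := by
  intro hF K V _ _ _ _ _ S hL hP hodd a o ha ho hK B hB C hC x hB0 hC0 hx hdet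
  obtain ⟨T, hT⟩ := hL.toHS.exT hB hB0 C
  have hfld := hL.fld C hC B hB hB0 T hT
  obtain ⟨F, _, _, _, E, θ, hEθ, hall⟩ := hF K V T ⟨x, hx⟩ hfld
  have hEf : ∀ f : F, ∃ φ : K[X], E f = aeval T φ := by
    intro f
    obtain ⟨φ, hφ⟩ := hall f
    refine ⟨φ, ?_⟩
    rw [hφ, ← hEθ]
    exact (Polynomial.aeval_algHom_apply E θ φ).symm
  have hBdet : LinearMap.det B ≠ 0 := by
    have := hL.toHS.det_ne hB hL.toHS.zero hB0
    rwa [sub_zero] at this
  have hCdet : LinearMap.det C ≠ 0 := by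
    have := hL.toHS.det_ne hC hL.toHS.zero hC0
    rwa [sub_zero] at this
  have hBT : C = B * T := LinearMap.ext fun v => (hT v).symm
  have hdT : LinearMap.det C = LinearMap.det B * LinearMap.det T := by
    rw [hBT, map_mul]
  have hdT1 : (LinearMap.det T) ^ o = 1 := by
    have h1 : (LinearMap.det B) ^ o * (LinearMap.det T) ^ o = (LinearMap.det B) ^ o * 1 := by
      rw [← mul_pow, ← hdT, hdet, mul_one]
    exact mul_left_cancel₀ (pow_ne_zero o hBdet) h1
  have hθ0 : θ ≠ 0 := by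
    intro h0
    rw [h0, map_zero] at hEθ
    apply hCdet
    rw [hBT, ← hEθ, mul_zero]
    have hfr : Module.finrank K V ≠ 0 := by
      intro h
      rw [h] at hodd
      exact (by decide : ¬ Odd 0) hodd
    rw [LinearMap.det_zero, zero_pow hfr]
  obtain ⟨ρ, hρ⟩ := D5_sq (K := K) (F := F)
    ((LinearMap.det : Module.End K V →* K).comp (E : F →* Module.End K V))
    (Module.finrank K V) a o hodd ha ho hK
    (by
      intro c
      have h1 : E (algebraMap K F c) = c • (1 : Module.End K V) := by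
        rw [AlgHom.commutes, Algebra.algebraMap_eq_smul_one]
      rw [MonoidHom.comp_apply]
      change LinearMap.det (E (algebraMap K F c)) = _
      rw [h1, LinearMap.det_smul, map_one, mul_one])
    θ hθ0
    (by
      rw [MonoidHom.comp_apply]
      change (LinearMap.det (E θ)) ^ o = 1
      rw [hEθ, hdT1])
  obtain ⟨φ, hφ⟩ := hEf ρ
  have hGG : aeval T φ * aeval T φ = T := by
    rw [← hφ, ← map_mul, hρ, hEθ]
  have hGGv : ∀ v, aeval T φ (aeval T φ v) = T v := by
    intro v
    have := congrArg (fun f : Module.End K V => f v) hGG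
    simpa using this
  obtain ⟨A, hA, hAx⟩ := hL.toHS.ex x hx (B (aeval T φ x))
  have hCx : C x = B (T x) := (hT x).symm
  have hCx0 : C x ≠ 0 := hL.toHS.apply_ne hC hC0 hx
  have hGx0 : aeval T φ x ≠ 0 := by
    intro h0
    apply hCx0
    rw [hCx, ← hGGv, h0, map_zero, map_zero]
  have hA0 : A ≠ 0 := by
    intro h0
    rw [h0, LinearMap.zero_apply] at hAx
    exact hL.toHS.apply_ne hB hB0 hGx0 hAx.symm
  have hAG : A (aeval T φ x) = C x := by
    have h1 := hL.loc C hC B hB hB0 T hT x φ hx A hA hAx φ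
    rw [h1, map_mul, Module.End.mul_apply, hGGv, hCx]
  have hdA : LinearMap.det A = LinearMap.det B * LinearMap.det (aeval T φ) :=
    hP C hC B hB hB0 T hT x φ hx A hA hAx
  refine ⟨A, hA, aeval T φ x, hA0, hAx.symm, hAG, ?_⟩
  have hdTG : LinearMap.det T = LinearMap.det (aeval T φ) * LinearMap.det (aeval T φ) := by
    rw [← map_mul, hGG]
  rw [hdT, hdTG, hdA]
  ring

end Pool.Agent.TP3
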