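import Pool.Agent.Lib.MP_a1e562_co.IH.Stm2

/-!
# MP_a1e562_co: [IH E2] existence of roots
-/

set_option autoImplicit false

namespace Pool.Agent.TP3

open Polynomial

private theorem ihe2_ord {K V : Type} [Field K] [AddCommGroup V] [Module K V] [Finite V]
    (T : Module.End K V) (hT : Function.Injective T) : ∃ N : ℕ, T ^ (N + 1) = 1 := by
  let σ : Equiv.Perm V := Equiv.ofBijective T ⟨hT, Finite.surjective_of_injective hT⟩
  have h1 : ∀ (k : ℕ) (v : V), (σ ^ k) v = (T ^ k) v := by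
    intro k
    induction k with
    | zero => intro v; rfl
    | succ k ih =>
      intro v
      rw [pow_succ', pow_succ', Equiv.Perm.mul_apply, Module.End.mul_apply, ih]
      rfl
  have h2 : 0 < orderOf σ := orderOf_pos σ
  refine ⟨orderOf σ - 1, LinearMap.ext fun v => ?_⟩
  rw [Nat.sub_add_cancel h2, ← h1, pow_orderOf_eq_one]
  rfl

private theorem ihe2_q {K V : Type} [Field K] [AddCommGroup V] [Module K V]
    (T : Module.End K V) (d : K) (w : V) : aeval T (X ^ 2 - C d : K[X]) w = T (T w) - d • w := by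
  rw [map_sub, map_pow, aeval_X, aeval_C, LinearMap.sub_apply, Module.algebraMap_end_apply,
    pow_two, Module.End.mul_apply]

private theorem ihe2_l {K V : Type} [Field K] [AddCommGroup V] [Module K V]
    (T : Module.End K V) (d : K) (w : V) : aeval T (X - C d : K[X]) w = T w - d • w := by
  rw [map_sub, aeval_X, aeval_C, LinearMap.sub_apply, Module.algebraMap_end_apply]

theorem s_IHE2 : S_IHE2 := by
  intro hPAR K V _ _ _ _ _ S h h2 hev z hz B hB hB0
  classical
  -- a nonzero vector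
  obtain ⟨p, hp⟩ : ∃ p : V, p ≠ 0 := by
    by_contra hcon
    push Not at hcon
    apply hB0
    apply LinearMap.ext
    intro v
    rw [hcon v, map_zero, map_zero]
  have he0 : B p ≠ 0 := h.apply_ne hB hB0 hp
  choose M hM hMp using fun v => h.ex p hp v
  have hM0 : ∀ v, v ≠ 0 → M v ≠ 0 := by
    intro v hv h0
    apply hv
    rw [← hMp v, h0, LinearMap.zero_apply]
  choose a ha using fun (v : V) (hv : v ≠ 0) => h.surj (hM v) (hM0 v hv) (B p)
  obtain ⟨ι, hι0, hι⟩ : ∃ ι : V → V, ι 0 = 0 ∧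
      ∀ N ∈ S, N ≠ 0 → ∀ b, N b = B p → ι (N p) = B b := by
    refine ⟨fun v => if hv : v = 0 then 0 else B (a v hv), by simp, fun N hN hN0 b hb => ?_⟩
    have hNp : N p ≠ 0 := h.apply_ne hN hN0 hp
    simp only [hNp, dite_false]
    have h1 : M (N p) = N := h.uq _ (hM _) _ hN p hp (hMp _)
    have h2 := ha (N p) hNp
    rw [h1, ← hb] at h2
    rw [h.inj hN hN0 h2]
  have hexv : ∀ v, v ≠ 0 → ∃ N ∈ S, N ≠ 0 ∧ N p = v ∧ ∃ b, N b = B p := fun v hv =>
    ⟨M v, hM v, hM0 v hv, hMp v, a v hv, ha v hv⟩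
  have hii : ∀ v, ι (ι v) = v := by
    intro v
    by_cases hv : v = 0
    · rw [hv, hι0, hι0]
    obtain ⟨N, hN, hN0, hNv, b, hb⟩ := hexv v hv
    obtain ⟨T, hT⟩ := h.exT hB hB0 N
    have hTinj : Function.Injective T := by
      intro x y hxy
      apply h.inj hN hN0
      rw [← hT, ← hT, hxy]
    obtain ⟨k, hk⟩ := ihe2_ord T hTinj
    have hTb : T b = p := h.inj hB hB0 (by rw [hT, hb])
    have hbk : b = aeval T (X ^ k : K[X]) p := by
      apply hTinj
      rw [hTb, map_pow, aeval_X, ← Module.End.mul_apply, ← pow_succ', hk, Module.End.one_apply]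
    have hb0 : b ≠ 0 := by
      intro h0
      rw [h0, map_zero] at hb
      exact he0 hb.symm
    obtain ⟨E, hE, hEp⟩ := h.ex p hp (B b)
    have hE0 : E ≠ 0 := by
      intro h0
      rw [h0, LinearMap.zero_apply] at hEp
      exact h.apply_ne hB hB0 hb0 hEp.symm
    have h3 := h.loc N hN B hB hB0 T hT p (X ^ k) hp E hE (by rw [← hbk, hEp]) X
    rw [aeval_X, ← pow_succ, map_pow, aeval_X, hk, Module.End.one_apply] at h3
    rw [← hNv, hι N hN hN0 b hb, ← hEp, hι E hE hE0 _ h3, hT]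
  have his : ∀ (f : K) (v : V), ι (f • v) = f⁻¹ • ι v := by
    intro f v
    by_cases hf : f = 0
    · rw [hf, zero_smul, hι0, inv_zero, zero_smul]
    by_cases hv : v = 0
    · rw [hv, smul_zero, hι0, smul_zero]
    obtain ⟨N, hN, hN0, hNv, b, hb⟩ := hexv v hv
    have hfN : f • N ≠ 0 := smul_ne_zero hf hN0
    have h3 := hι (f • N) (h.smul f N hN) hfN (f⁻¹ • b) (by
      rw [LinearMap.smul_apply, map_smul, hb, smul_smul, mul_inv_cancel₀ hf, one_smul])
    rw [LinearMap.smul_apply, hNv, map_smul] at h3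
    rw [h3, ← hNv, hι N hN hN0 b hb]
  have hιe : ∃ c : K, ι (B p) = c • B p := ⟨1, by rw [one_smul]; exact hι B hB hB0 p rfl⟩
  have hnot : ¬ ∀ v, (∃ c : K, ι v = c • v) → ∃ f : K, v = f • B p := fun hall =>
    (Nat.not_odd_iff_even.mpr hev) (hPAR K V (B p) ι h2 he0 hii his hιe hall)
  push Not at hnot
  obtain ⟨v, ⟨c, hc⟩, hv⟩ := hnot
  have hv0 : v ≠ 0 := fun h0 => hv 0 (by rw [h0, zero_smul])
  obtain ⟨N, hN, hN0, hNv, b, hb⟩ := hexv v hv0
  obtain ⟨T, hT⟩ := h.exT hB hB0 N
  have hTb : T b = p := h.inj hB hB0 (by rw [hT, hb])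
  have hbc : b = c • T p := by
    apply h.inj hB hB0
    rw [map_smul, hT, ← hι N hN hN0 b hb, hNv, hc]
  have hpT : c • T (T p) = p := by
    rw [← map_smul, ← hbc, hTb]
  have hc0 : c ≠ 0 := by
    intro h0
    rw [h0, zero_smul] at hpT
    exact hp hpT.symm
  have hTT : T (T p) = c⁻¹ • p := by
    conv_rhs => rw [← hpT]
    rw [smul_smul, inv_mul_cancel₀ hc0, one_smul]
  have hfl : FldT T := h.fld N hN B hB hB0 T hT
  have hTTw : ∀ w, T (T w) = c⁻¹ • w := by
    intro w
    have h3 : aeval T (X ^ 2 - C c⁻¹ : K[X]) p = 0 := by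
      rw [ihe2_q, hTT, sub_self]
    have h4 : aeval T (X ^ 2 - C c⁻¹ : K[X]) w = 0 := by rw [hfl p _ hp h3, LinearMap.zero_apply]
    rw [ihe2_q] at h4
    exact sub_eq_zero.1 h4
  have hns : ¬ IsSquare c⁻¹ := by
    rintro ⟨d, hd⟩
    by_cases h5 : T p + d • p = 0
    · apply hv (-d)
      have h6 : T p = (-d) • p := by rw [neg_smul]; exact eq_neg_of_add_eq_zero_left h5
      rw [← hNv, ← hT, h6, map_smul]
    · apply hv d
      have h6 : aeval T (X - C d : K[X]) (T p + d • p) = 0 := by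
        rw [ihe2_l, map_add, map_smul, hTTw, hd]
        module
      have h7 : aeval T (X - C d : K[X]) p = 0 := by rw [hfl _ _ h5 h6, LinearMap.zero_apply]
      rw [ihe2_l] at h7
      rw [← hNv, ← hT, sub_eq_zero.1 h7, map_smul]
  have := Fintype.ofFinite K
  have hsq : IsSquare (z * c⁻¹) := by
    have h0 : z * c⁻¹ ≠ 0 := by
      refine mul_ne_zero ?_ (inv_ne_zero hc0)
      intro h0
      exact hz (by rw [h0]; exact IsSquare.zero)
    rw [← quadraticChar_one_iff_isSquare h0, map_mul,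
      quadraticChar_neg_one_iff_not_isSquare.mpr hz, quadraticChar_neg_one_iff_not_isSquare.mpr hns]
    norm_num
  obtain ⟨s, hs⟩ := hsq
  refine ⟨(s * c) • N, h.smul _ N hN, (s * c) • T, fun w => ?_, fun w => ?_⟩
  · rw [LinearMap.smul_apply, map_smul, hT, LinearMap.smul_apply]
  · rw [LinearMap.smul_apply, LinearMap.smul_apply, map_smul, hTTw, smul_smul, smul_smul]
    congr 1
    have h5 : s * c * (s * c) * c⁻¹ = (s * s) * c := by
      field_simp
    rw [h5, ← hs, mul_assoc, inv_mul_cancel₀ hc0, mul_one]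

end Pool.Agent.TP3
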