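import Pool.Agent.Lib.MP_a1e562_co.IH.Stm2

/-!
# IH E3: a root in `K[T]` is `I` or `-I`
-/

set_option autoImplicit false

namespace Pool.Agent.TP3

open Configuration Polynomial

/-- [IH E3] a root in `K[T]` is `I` or `-I`. -/
theorem s_IHE3 : S_IHE3 := by
  intro K V _ _ _ _ S h z B hB hB0 I huq A hA T hT φ hφ
  have key : ∀ x : V, (aeval T φ - I) x = 0 ∨ (aeval T φ + I) x = 0 := by
    intro x
    by_cases hx : x = 0
    · left
      rw [hx, map_zero]
    obtain ⟨M, hM, hMx⟩ := h.ex x hx (B (aeval T φ x))
    obtain ⟨J, hJ⟩ := h.toHS.exT hB hB0 M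
    have hinj := h.toHS.inj hB hB0
    have h1 : J x = aeval T φ x := by
      apply hinj
      rw [hJ, hMx]
    have h2 : J (aeval T φ x) = z • x := by
      apply hinj
      rw [hJ, h.loc A hA B hB hB0 T hT x φ hx M hM hMx φ, map_mul, Module.End.mul_apply, hφ]
    have h3 : aeval J (X ^ 2 - C z) x = 0 := by
      rw [map_sub, map_pow, aeval_X, aeval_C, LinearMap.sub_apply, sq, Module.End.mul_apply, h1, h2,
        Module.algebraMap_end_apply, sub_self]
    have h4 := h.fld M hM B hB hB0 J hJ x _ hx h3
    have h5 : ∀ v, J (J v) = z • v := by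
      intro v
      have h6 : aeval J (X ^ 2 - C z) v = 0 := by rw [h4, LinearMap.zero_apply]
      rw [map_sub, map_pow, aeval_X, aeval_C, LinearMap.sub_apply, sq, Module.End.mul_apply,
        Module.algebraMap_end_apply, sub_eq_zero] at h6
      exact h6
    rcases huq M hM J hJ h5 with h6 | h6
    · left
      rw [LinearMap.sub_apply, ← h1, h6, sub_self]
    · right
      rw [LinearMap.add_apply, ← h1, h6, LinearMap.neg_apply, neg_add_cancel]
  rcases union_ker _ _ key with h1 | h1
  · left
    exact sub_eq_zero.1 h1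
  · right
    exact eq_neg_of_add_eq_zero_left h1

end Pool.Agent.TP3
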