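import Pool.Agent.Lib.MP_a1e562_co.IH.Stm2

/-!
# MP_a1e562_co, piece IH E4: determinants are squares when `K[T]` has no root
-/

set_option autoImplicit false

namespace Pool.Agent.TP3

open Polynomial

theorem s_IHE4 : S_IHE4 := by
  intro hF K V _ _ _ _ _ T hfld hT heven z hz hroot
  obtain ⟨v0, hv0⟩ : ∃ v : V, v ≠ 0 := by
    by_contra hcon
    push Not at hcon
    apply hT
    ext v
    rw [hcon v, map_zero, map_zero]
  obtain ⟨F, _, _, _, E, θ, hEθ, hgen⟩ := hF K V T ⟨v0, hv0⟩ hfld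
  obtain ⟨γ, hγ⟩ := IsCyclic.exists_generator (α := Fˣ)
  have hpow : ∀ f : F, f ≠ 0 → ∃ k : ℕ, f = (γ : F) ^ k := by
    intro f hf
    have h1 := hγ (Units.mk0 f hf)
    rw [← mem_powers_iff_mem_zpowers, Submonoid.mem_powers_iff] at h1
    obtain ⟨k, hk⟩ := h1
    refine ⟨k, ?_⟩
    have h2 := congrArg (fun t : Fˣ => (t : F)) hk
    simp only [Units.val_pow_eq_pow_val, Units.val_mk0] at h2
    exact h2.symm
  have hEal : ∀ φ : K[X], E (aeval θ φ) = aeval T φ := by
    intro φ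
    rw [← hEθ, aeval_algHom_apply]
  have hEz : E (algebraMap K F z) = z • (1 : Module.End K V) := by
    rw [AlgHom.commutes, Algebra.algebraMap_eq_smul_one]
  have hnsq : ¬ IsSquare (algebraMap K F z) := by
    rintro ⟨f, hf⟩
    obtain ⟨φ, hφ⟩ := hgen f
    apply hroot φ
    intro v
    have h1 : aeval T φ * aeval T φ = z • (1 : Module.End K V) := by
      rw [← hEal, ← map_mul, ← hφ, ← hf, hEz]
    have h2 := congrArg (fun g : Module.End K V => g v) h1
    simpa using h2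
  have hz0 : z ≠ 0 := by
    rintro rfl
    exact hz ⟨0, by ring⟩
  have hz0' : algebraMap K F z ≠ 0 := by
    intro h
    exact hz0 ((map_eq_zero (algebraMap K F)).1 h)
  obtain ⟨i, hi⟩ := hpow _ hz0'
  have hodd : Odd i := by
    rw [← Nat.not_even_iff_odd]
    rintro ⟨j, hj⟩
    apply hnsq
    refine ⟨(γ : F) ^ j, ?_⟩
    rw [hi, hj, pow_add]
  obtain ⟨j, hj⟩ := hodd
  obtain ⟨m, hm⟩ := heven
  set δ := LinearMap.det (E (γ : F)) with hδ
  have hδpow : ∀ k : ℕ, LinearMap.det (E ((γ : F) ^ k)) = δ ^ k := by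
    intro k
    rw [map_pow, map_pow]
  have h1 : δ ^ i = z ^ m * z ^ m := by
    rw [← hδpow, ← hi, hEz, LinearMap.det_smul, map_one, mul_one, hm, pow_add]
  have hzm : z ^ m ≠ 0 := pow_ne_zero _ hz0
  have hδ0 : δ ≠ 0 := by
    intro h
    rw [h, hj, zero_pow (by omega)] at h1
    exact mul_ne_zero hzm hzm h1.symm
  have hδj : δ ^ j ≠ 0 := pow_ne_zero _ hδ0
  have hsq : IsSquare δ := by
    refine ⟨z ^ m / δ ^ j, ?_⟩
    rw [div_mul_div_comm, ← h1, hj, pow_succ, two_mul, pow_add]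
    field_simp
  have hθ0 : θ ≠ 0 := by
    intro h
    apply hT
    rw [← hEθ, h, map_zero]
  obtain ⟨k, hk⟩ := hpow θ hθ0
  rw [← hEθ, hk, hδpow]
  exact hsq.pow k

end Pool.Agent.TP3
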