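import Pool.Agent.Lib.MP_a1e562_co.IH.Stm2

/-!
# MP_a1e562_co, project IH, piece E5: a nonsquare determinant `a + b I`
-/

set_option autoImplicit false

namespace Pool.Agent.TP3

open Polynomial

private theorem ihe5_irr {K : Type} [Field K] {z : K} (hz : ¬ IsSquare z) :
    Irreducible (X ^ 2 - C z : K[X]) := by
  have hd : (X ^ 2 - C z : K[X]).natDegree = 2 := natDegree_X_pow_sub_C
  refine irreducible_of_degree_le_three_of_not_isRoot ?_ fun x hx => ?_
  · rw [hd]
    decide
  · rw [IsRoot.def, eval_sub, eval_pow, eval_X, eval_C, sub_eq_zero] at hx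
    exact hz ⟨x, by rw [← hx, pow_two]⟩

theorem s_IHE5 : S_IHE5 := by
  intro hF K V _ _ _ _ _ I z m h2 hz hI hdim hm
  have hm0 : 0 < m := hm.pos
  have hirr := ihe5_irr hz
  have hmon : (X ^ 2 - C z : K[X]).Monic := monic_X_pow_sub_C z (by norm_num)
  have hIz : aeval I (X ^ 2 - C z : K[X]) = 0 := by
    ext v
    rw [map_sub, map_pow, aeval_X, aeval_C, pow_two, LinearMap.sub_apply, Module.End.mul_apply,
      hI, Module.algebraMap_end_apply, sub_self, LinearMap.zero_apply]
  have hFld : ∀ (g : V) (φ : K[X]), g ≠ 0 → aeval I φ g = 0 → aeval I φ = 0 := by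
    intro g φ hg hφ
    by_cases hdvd : (X ^ 2 - C z : K[X]) ∣ φ
    · obtain ⟨ψ, rfl⟩ := hdvd
      rw [map_mul, hIz, zero_mul]
    · exfalso
      have hcop : IsCoprime (X ^ 2 - C z : K[X]) φ := (hirr.coprime_iff_not_dvd).2 hdvd
      obtain ⟨u, w, huw⟩ := hcop
      apply hg
      have h1 : aeval I (u * (X ^ 2 - C z : K[X]) + w * φ) g = g := by
        rw [huw, map_one, Module.End.one_apply]
      rw [map_add, map_mul, map_mul, hIz, mul_zero, zero_add, Module.End.mul_apply, hφ,
        map_zero] at h1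
      exact h1.symm
  have hnt : Nontrivial V := by
    have h1 : 0 < Module.finrank K V := by omega
    exact Module.nontrivial_of_finrank_pos h1
  obtain ⟨v0, hv0⟩ := exists_ne (0 : V)
  obtain ⟨F, iF, iFin, iAlg, E, θ, hEθ, hgen⟩ := hF K V I ⟨v0, hv0⟩ hFld
  have hEinj : Function.Injective E := E.toRingHom.injective
  have hθ : aeval θ (X ^ 2 - C z : K[X]) = 0 := by
    apply hEinj
    rw [map_zero, ← aeval_algHom_apply, hEθ]
    exact hIz
  have hmin : (X ^ 2 - C z : K[X]) = minpoly K θ :=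
    minpoly.eq_of_irreducible_of_monic hirr hθ hmon
  have hfinF : Module.Finite K F := Module.Finite.of_finite
  have hfr : Module.finrank K F = 2 := by
    have h1 := IntermediateField.adjoin.finrank (K := K) (x := θ) (Algebra.IsIntegral.isIntegral θ)
    rw [← hmin, natDegree_X_pow_sub_C] at h1
    have h2 : IntermediateField.adjoin K {θ} = ⊤ := by
      rw [eq_top_iff]
      intro f _
      obtain ⟨φ, rfl⟩ := hgen f
      exact IntermediateField.algebra_adjoin_le_adjoin K {θ} (aeval_mem_adjoin_singleton K θ)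
    rw [h2, IntermediateField.finrank_top'] at h1
    exact h1
  obtain ⟨f, hf⟩ := FiniteField.norm_surjective K F z
  obtain ⟨b, a, hab⟩ : ∃ b a : K, f = b • θ + a • 1 := by
    obtain ⟨φ, rfl⟩ := hgen f
    have h1 : aeval θ φ = aeval θ (φ %ₘ (X ^ 2 - C z)) :=
      (aeval_modByMonic_eq_self_of_root hθ).symm
    have h3 : (φ %ₘ (X ^ 2 - C z)).degree ≤ 1 := by
      have h4 := degree_modByMonic_lt φ hmon
      rw [degree_X_pow_sub_C (by norm_num)] at h4
      exact Order.le_of_lt_succ h4
    have hba := eq_X_add_C_of_degree_le_one h3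
    refine ⟨(φ %ₘ (X ^ 2 - C z)).coeff 1, (φ %ₘ (X ^ 2 - C z)).coeff 0, ?_⟩
    rw [h1]
    conv_lhs => rw [hba]
    rw [map_add, map_mul, aeval_C, aeval_C, aeval_X, Algebra.smul_def, Algebra.smul_def,
      mul_one]
  refine ⟨a, b, ?_⟩
  let iM : Module F V := Module.compHom V E.toRingHom
  have hsm : ∀ (f : F) (v : V), f • v = E f v := fun _ _ => rfl
  have hst : IsScalarTower K F V := ⟨fun c f v => by
    rw [hsm, hsm, map_smul, LinearMap.smul_apply]⟩
  have hfr2 : Module.finrank F V = m := by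
    have h1 := Module.finrank_mul_finrank K F V
    rw [hfr, hdim] at h1
    omega
  have hE : ((f • (LinearMap.id : V →ₗ[F] V)).restrictScalars K) = a • (1 : Module.End K V) + b • I := by
    ext v
    rw [LinearMap.restrictScalars_apply, LinearMap.smul_apply, LinearMap.id_apply, hsm, hab,
      map_add, map_smul, map_smul, hEθ, map_one, LinearMap.add_apply, LinearMap.add_apply,
      add_comm]
  have hdet := LinearMap.det_restrictScalars (R := K) (S := F) (A := V)
    (f := f • (LinearMap.id : V →ₗ[F] V))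
  rw [hE, LinearMap.det_smul, LinearMap.det_id, mul_one, hfr2, map_pow, hf] at hdet
  rw [hdet]
  intro hsq
  apply hz
  obtain ⟨n, hn⟩ := hm
  have hz0 : z ≠ 0 := by
    rintro rfl
    exact hz ⟨0, by rw [mul_zero]⟩
  obtain ⟨s, hs⟩ := hsq
  refine ⟨s / z ^ n, ?_⟩
  have hzn : z ^ n ≠ 0 := pow_ne_zero _ hz0
  rw [div_mul_div_comm, eq_div_iff (mul_ne_zero hzn hzn), ← hs, hn]
  ring

end Pool.Agent.TP3
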