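import Pool.Agent.Lib.MP_a1e562_co.IH.Stm2

/-! `S_IHE6`: the roots are central (dimension 2 mod 4). -/

set_option autoImplicit false

namespace Pool.Agent.TP3

open Polynomial

/-- `I` is a root of `z` for the base `M`. -/
def E6R {K V : Type} [Field K] [AddCommGroup V] [Module K V] (S : Set (Module.End K V)) (z : K)
    (M I : Module.End K V) : Prop :=
  (∃ X ∈ S, ∀ v, M (I v) = X v) ∧ ∀ v, I (I v) = z • v

/-- the conclusion of `S_IHE3` for all roots -/
def E6H {K V : Type} [Field K] [AddCommGroup V] [Module K V] (S : Set (Module.End K V))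
    (z : K) : Prop :=
  ∀ B ∈ S, B ≠ 0 → ∀ I : Module.End K V, E6R S z B I → ∀ A ∈ S, ∀ T : Module.End K V,
    (∀ v, B (T v) = A v) → ∀ φ : K[X], (∀ v, aeval T φ (aeval T φ v) = z • v) →
      aeval T φ = I ∨ aeval T φ = -I

section

variable {K V : Type} [Field K] [AddCommGroup V] [Module K V]

theorem e6_pow [Finite V] {T T' : Module.End K V} (h1 : T * T' = 1) (h2 : T' * T = 1) :
    ∃ n : ℕ, T = T' ^ n := by
  have hfin : Finite (Module.End K V) :=
    Finite.of_injective (fun f : Module.End K V => (f : V → V)) DFunLike.coe_injective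
  let u : (Module.End K V)ˣ := ⟨T', T, h2, h1⟩
  obtain ⟨n, hn, hu⟩ := isOfFinOrder_iff_pow_eq_one.mp (isOfFinOrder_of_finite u)
  have h3 : T' ^ n = 1 := by
    have h4 := congrArg Units.val hu
    rw [Units.val_pow_eq_pow_val, Units.val_one] at h4
    exact h4
  refine ⟨n - 1, ?_⟩
  have h4 : T' ^ (n - 1) * T' = 1 := by
    rw [← pow_succ, Nat.sub_add_cancel hn, h3]
  calc T = (T' ^ (n - 1) * T') * T := by rw [h4, one_mul]
    _ = T' ^ (n - 1) := by rw [mul_assoc, h2, mul_one]

theorem e6_comm {T : Module.End K V} (φ : K[X]) (v : V) :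
    aeval T φ (T v) = T (aeval T φ v) := by
  have h : aeval T φ * aeval T (X : K[X]) = aeval T (X : K[X]) * aeval T φ := by
    rw [← map_mul, ← map_mul, mul_comm]
  rw [aeval_X] at h
  exact LinearMap.congr_fun h v

theorem e6_alpha [Finite V] {S : Set (Module.End K V)} {z : K} (h : HL K V S) (h3 : E6H S z)
    {M N : Module.End K V} (hM : M ∈ S) (hM0 : M ≠ 0) (hN : N ∈ S) (hN0 : N ≠ 0)
    {T : Module.End K V} (hT : ∀ v, M (T v) = N v) {φ : K[X]}
    (hφ : ∀ v, aeval T φ (aeval T φ v) = z • v) {IM IN : Module.End K V}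
    (hIM : E6R S z M IM) (hIN : E6R S z N IN) :
    (aeval T φ = IM ∨ aeval T φ = -IM) ∧ (aeval T φ = IN ∨ aeval T φ = -IN) := by
  refine ⟨h3 M hM hM0 IM hIM N hN T hT φ hφ, ?_⟩
  obtain ⟨T', hT'⟩ := h.toHS.exT hN hN0 M
  have hTT : T * T' = 1 := by
    ext v
    apply h.toHS.inj hM hM0
    show M (T (T' v)) = M v
    rw [hT, hT']
  have hTT' : T' * T = 1 := by
    ext v
    apply h.toHS.inj hN hN0
    show N (T' (T v)) = N v
    rw [hT', hT]
  obtain ⟨n, hn⟩ := e6_pow hTT hTT'
  have he : aeval T φ = aeval T' (φ.comp (X ^ n)) := by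
    rw [aeval_comp, map_pow, aeval_X, ← hn]
  rw [he] at hφ ⊢
  exact h3 N hN hN0 IN hIN M hM T' hT' _ hφ

theorem e6_beta [Finite V] [Nontrivial V] {S : Set (Module.End K V)} {z : K} (h : HL K V S)
    (h20 : (2 : K) ≠ 0) (hz : z ≠ 0) (h3 : E6H S z)
    {M : Module.End K V} (hM : M ∈ S) (hM0 : M ≠ 0) {I : Module.End K V} (hI : E6R S z M I)
    (a b : K) : a • M + b • (M * I) ∈ S := by
  by_cases hb : b = 0
  · rw [hb, zero_smul, add_zero]
    exact h.smul a M hM
  obtain ⟨x, hx⟩ := exists_ne (0 : V)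
  have hI' := hI
  obtain ⟨⟨X', hX', hXI⟩, hII⟩ := hI'
  obtain ⟨N, hN, hNx⟩ := h.ex x hx (M (a • x + b • I x))
  obtain ⟨J, hJ⟩ := h.toHS.exT hM hM0 N
  have hinj := h.toHS.inj hM hM0
  have hae : ∀ v, aeval I (C a + C b * X : K[X]) v = a • v + b • I v := by
    intro v
    simp [Module.algebraMap_end_apply]
  have hloc := h.loc X' hX' M hM hM0 I hXI x (C a + C b * X) hx N hN (by rw [hNx, hae])
  have hJx : J x = a • x + b • I x := hinj (by rw [hJ, hNx])
  have hJI : J (I x) = a • I x + b • I (I x) := by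
    apply hinj
    rw [hJ]
    have h5 := hloc X
    rw [aeval_X, map_mul, Module.End.mul_apply, aeval_X, hae] at h5
    exact h5
  -- the operator `D = b⁻¹ (J - a)`
  set D : Module.End K V := aeval J (C b⁻¹ * (X - C a) : K[X]) with hD
  have hDv : ∀ v, D v = b⁻¹ • (J v - a • v) := by
    intro v
    rw [hD]
    simp [Module.algebraMap_end_apply]
  have hDx : D x = I x := by
    rw [hDv, hJx, add_sub_cancel_left, smul_smul, inv_mul_cancel₀ hb, one_smul]
  have hDI : D (I x) = z • x := by
    rw [hDv, hJI, add_sub_cancel_left, smul_smul, inv_mul_cancel₀ hb, one_smul, hII]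
  have hf := h.fld N hN M hM hM0 J hJ
  have hae2 : ∀ v, aeval J ((C b⁻¹ * (X - C a)) * (C b⁻¹ * (X - C a)) - C z : K[X]) v
      = D (D v) - z • v := by
    intro v
    rw [map_sub, map_mul, ← hD, LinearMap.sub_apply, Module.End.mul_apply, aeval_C,
      Module.algebraMap_end_apply]
  have hq := hf x ((C b⁻¹ * (X - C a)) * (C b⁻¹ * (X - C a)) - C z) hx
    (by rw [hae2, hDx, hDI, sub_self])
  have hDD : ∀ v, D (D v) = z • v := by
    intro v
    have h5 := hae2 v
    rw [hq, LinearMap.zero_apply] at h5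
    exact (sub_eq_zero.mp h5.symm)
  have hDI2 : D = I := by
    rcases h3 M hM hM0 I hI N hN J hJ (C b⁻¹ * (X - C a)) hDD with h6 | h6
    · exact h6
    · exfalso
      rw [← hD] at h6
      have h7 : I x = - I x := by
        have h8 := LinearMap.congr_fun h6 x
        rw [hDx, LinearMap.neg_apply] at h8
        exact h8
      have h8 : (2 : K) • I x = 0 := by
        rw [two_smul]
        nth_rewrite 2 [h7]
        rw [add_neg_cancel]
      have h9 : I x = 0 := by
        rcases smul_eq_zero.mp h8 with h10 | h10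
        · exact absurd h10 h20
        · exact h10
      have h10 : z • x = 0 := by
        rw [← hII x, h9, map_zero]
      rcases smul_eq_zero.mp h10 with h11 | h11
      · exact hz h11
      · exact hx h11
  have hJv : ∀ v, J v = a • v + b • I v := by
    intro v
    have h6 := hDv v
    rw [hDI2] at h6
    rw [h6, smul_smul, mul_inv_cancel₀ hb, one_smul, add_sub_cancel]
  have hNe : a • M + b • (M * I) = N := by
    ext v
    rw [← hJ v, hJv v, map_add, map_smul, map_smul]
    rfl
  rw [hNe]
  exact hN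

end

theorem s_IHE6 : S_IHE6 := by
  intro K V _ _ _ _ _ S z m h h20 hz hfr hm h1S h1 h2 h3 h4 h5
  have hz0 : z ≠ 0 := by
    rintro rfl
    exact hz ⟨0, by rw [mul_zero]⟩
  have hfr0 : 0 < Module.finrank K V := by
    obtain ⟨r, hr⟩ := hm
    rw [hfr, hr]
    omega
  have hnt : Nontrivial V := Module.nontrivial_of_finrank_pos hfr0
  have h10 : (1 : Module.End K V) ≠ 0 := one_ne_zero
  have H3 : E6H S z := by
    intro B hB hB0 I hI
    obtain ⟨⟨X', hX', hXI⟩, hII⟩ := hI
    exact h3 B hB hB0 I
      (fun Y hY J hJ hJJ => h1 B hB hB0 X' hX' Y hY I J hXI hJ hII hJJ)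
  have H2 : ∀ B ∈ S, B ≠ 0 → ∃ I, E6R S z B I := by
    intro B hB hB0
    obtain ⟨X', hX', I, hI, hII⟩ := h2 B hB hB0
    exact ⟨I, ⟨X', hX', hI⟩, hII⟩
  obtain ⟨I, hI⟩ := H2 1 h1S h10
  obtain ⟨a, b, hab⟩ := h5 I hI.2
  set U : Module.End K V := a • 1 + b • I with hUdef
  have hUv : ∀ v, U v = a • v + b • I v := fun v => rfl
  have hU : U ∈ S := by
    have h6 := e6_beta h h20 hz0 H3 h1S h10 hI a b
    rw [one_mul] at h6
    exact h6
  have hU0 : U ≠ 0 := by
    intro h0
    apply hab
    rw [h0, LinearMap.det_zero, hfr]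
    exact ⟨0 ^ m, by rw [← pow_add, two_mul]⟩
  have hb : b ≠ 0 := by
    intro hb
    apply hab
    rw [hUdef, hb, zero_smul, add_zero, LinearMap.det_smul, map_one, mul_one, hfr]
    exact ⟨a ^ m, by rw [← pow_add, two_mul]⟩
  have hUI : ∀ v, U (I v) = I (U v) := by
    intro v
    rw [hUv, hUv, map_add, map_smul, map_smul]
  obtain ⟨IU, hIU⟩ := H2 U hU hU0
  have hIU' : IU = I ∨ IU = -I := by
    have he : aeval U (C b⁻¹ * (X - C a) : K[X]) = I := by
      ext v
      have h6 : aeval U (C b⁻¹ * (X - C a) : K[X]) v = b⁻¹ • (U v - a • v) := by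
        simp [Module.algebraMap_end_apply]
      rw [h6, hUv, add_sub_cancel_left, smul_smul, inv_mul_cancel₀ hb, one_smul]
    have h7 := (e6_alpha h H3 h1S h10 hU hU0 (T := U) (fun v => rfl)
      (φ := C b⁻¹ * (X - C a)) (by rw [he]; exact hI.2) hI hIU).2
    rw [he] at h7
    rcases h7 with h8 | h8
    · exact Or.inl h8.symm
    · refine Or.inr ?_
      rw [h8, neg_neg]
  -- from two signs
  have hsgn : ∀ P Q R : Module.End K V, (P = Q ∨ P = -Q) → (P = R ∨ P = -R) →
      (Q = R ∨ Q = -R) := by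
    intro P Q R hPQ hPR
    rcases hPQ with h6 | h6 <;> rcases hPR with h7 | h7
    · left; rw [← h6, h7]
    · right; rw [← h6, h7]
    · right
      have h8 : Q = -P := by rw [h6, neg_neg]
      rw [h8, h7]
    · left
      have h8 : -Q = -R := by rw [← h6, h7]
      exact neg_injective h8
  -- the key property
  have key : ∀ M ∈ S, M ≠ 0 → (∀ v, M (I v) = I (M v)) ∧ E6R S z M I := by
    intro M hM hM0
    obtain ⟨IM, hIM⟩ := H2 M hM hM0
    have hroot : (IM = I ∨ IM = -I) → E6R S z M I := by
      rintro (h6 | h6)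
      · rw [← h6]
        exact hIM
      · have h7 : I = -IM := by rw [h6, neg_neg]
        obtain ⟨⟨X', hX', hXI⟩, hII⟩ := hIM
        refine ⟨⟨-X', h.toHS.neg_mem hX', fun v => ?_⟩, hI.2⟩
        rw [h7, LinearMap.neg_apply, map_neg, hXI, LinearMap.neg_apply]
    by_cases hsq : IsSquare (LinearMap.det M)
    · -- the base `U`
      obtain ⟨T, hT⟩ := h.toHS.exT hU hU0 M
      have hTM : U * T = M := LinearMap.ext hT
      have hT0 : T ≠ 0 := by
        intro h0
        apply hM0
        rw [← hTM, h0, mul_zero]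
      have hdM : LinearMap.det M ≠ 0 := by
        have h6 := h.toHS.det_ne hM h.zero hM0
        rw [sub_zero] at h6
        exact h6
      have hdet : LinearMap.det U * LinearMap.det T = LinearMap.det M := by
        rw [← map_mul, hTM]
      have hnsq : ¬ IsSquare (LinearMap.det T) := by
        intro h6
        apply hab
        have hdT : LinearMap.det T ≠ 0 := by
          intro h7
          rw [h7, mul_zero] at hdet
          exact hdM hdet.symm
        have h7 : LinearMap.det U = LinearMap.det M / LinearMap.det T := by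
          rw [eq_div_iff hdT, hdet]
        rw [h7]
        exact hsq.div h6
      have hex : ∃ φ : K[X], ∀ v, aeval T φ (aeval T φ v) = z • v := by
        by_contra hcon
        exact hnsq (h4 T (h.fld M hM U hU hU0 T hT) hT0 (fun φ hφ => hcon ⟨φ, hφ⟩))
      obtain ⟨φ, hφ⟩ := hex
      have hal := e6_alpha h H3 hU hU0 hM hM0 hT hφ hIU hIM
      have h8 : IU = IM ∨ IU = -IM := hsgn _ _ _ hal.1 hal.2
      have h9 : IM = I ∨ IM = -I := by
        refine hsgn IU IM I h8 hIU'
      have h11 : aeval T φ = I ∨ aeval T φ = -I := by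
        have h12 : IU = aeval T φ ∨ IU = -(aeval T φ) := by
          rcases hal.1 with h13 | h13
          · left; rw [h13]
          · right; rw [h13, neg_neg]
        exact hsgn IU _ I h12 hIU'
      have hTI : ∀ v, T (I v) = I (T v) := by
        intro v
        have h12 := e6_comm (T := T) φ v
        rcases h11 with h13 | h13
        · rw [h13] at h12
          exact h12.symm
        · rw [h13, LinearMap.neg_apply, LinearMap.neg_apply, map_neg] at h12
          exact (neg_injective h12).symm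
      refine ⟨fun v => ?_, hroot h9⟩
      rw [← hT (I v), hTI, hUI, hT]
    · -- the base `1`
      have hex : ∃ φ : K[X], ∀ v, aeval M φ (aeval M φ v) = z • v := by
        by_contra hcon
        exact hsq (h4 M (h.fld M hM 1 h1S h10 M (fun v => rfl)) hM0
          (fun φ hφ => hcon ⟨φ, hφ⟩))
      obtain ⟨φ, hφ⟩ := hex
      have hal := e6_alpha h H3 h1S h10 hM hM0 (T := M) (fun v => rfl) hφ hI hIM
      have h9 : IM = I ∨ IM = -I := hsgn _ _ _ hal.2 hal.1
      refine ⟨fun v => ?_, hroot h9⟩
      have h12 := e6_comm (T := M) φ v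
      rcases hal.1 with h13 | h13
      · rw [h13] at h12
        exact h12.symm
      · rw [h13, LinearMap.neg_apply, LinearMap.neg_apply, map_neg] at h12
        exact (neg_injective h12).symm
  refine ⟨I, hI.2, fun M hM v => ?_, fun M hM a' b' => ?_⟩
  · by_cases hM0 : M = 0
    · rw [hM0, LinearMap.zero_apply, LinearMap.zero_apply, map_zero]
    · exact (key M hM hM0).1 v
  · by_cases hM0 : M = 0
    · rw [hM0, zero_mul, smul_zero, smul_zero, add_zero]
      exact h.zero
    · exact e6_beta h h20 hz0 H3 hM hM0 (key M hM hM0).2 a' b'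

end Pool.Agent.TP3
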