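import Pool.Agent.Lib.MP_a1e562_co.IH.Stm2

/-!
# MP_a1e562_co, [IH E7]: the larger field
-/

set_option autoImplicit false

namespace Pool.Agent.TP3

open Configuration Polynomial

/-- polynomials in `I` are linear -/
private theorem IHE7_lin {K V : Type} [Field K] [AddCommGroup V] [Module K V] {z : K}
    {I : Module.End K V} (hI : ∀ v, I (I v) = z • v) (φ : K[X]) :
    ∃ a b : K, ∀ v, aeval I φ v = a • v + b • I v := by
  induction φ using Polynomial.induction_on with
  | C a => exact ⟨a, 0, fun v => by rw [aeval_C, Module.algebraMap_end_apply, zero_smul, add_zero]⟩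
  | add p q hp hq =>
    obtain ⟨a, b, h⟩ := hp
    obtain ⟨a', b', h'⟩ := hq
    refine ⟨a + a', b + b', fun v => ?_⟩
    rw [map_add, LinearMap.add_apply, h, h', add_smul, add_smul]
    abel
  | monomial n c h =>
    obtain ⟨a, b, h⟩ := h
    refine ⟨b * z, a, fun v => ?_⟩
    rw [pow_succ, ← mul_assoc, map_mul, aeval_X, Module.End.mul_apply, h (I v), hI, mul_smul,
      add_comm]

private theorem IHE7_ind {K V : Type} [Field K] [AddCommGroup V] [Module K V] {z : K}
    (hz : ¬ IsSquare z) {I : Module.End K V} (hI : ∀ v, I (I v) = z • v) {a b : K} {g : V}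
    (hg : g ≠ 0) (h : a • g + b • I g = 0) : a = 0 ∧ b = 0 := by
  by_cases hb : b = 0
  · rw [hb, zero_smul, add_zero, smul_eq_zero] at h
    exact ⟨h.resolve_right hg, hb⟩
  · exfalso
    apply hz
    have h1 : b • I g = -(a • g) := by
      rw [eq_neg_iff_add_eq_zero, add_comm]
      exact h
    have h2 : I g = (-(b⁻¹ * a)) • g := by
      have h3 := congrArg (fun w => b⁻¹ • w) h1
      simp only [smul_neg, smul_smul] at h3
      rw [inv_mul_cancel₀ hb, one_smul] at h3
      rw [h3, neg_smul]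
    have h4 : z • g = ((-(b⁻¹ * a)) * (-(b⁻¹ * a))) • g := by
      rw [← hI g]
      conv_lhs => rw [h2, map_smul, h2, smul_smul]
    refine ⟨-(b⁻¹ * a), ?_⟩
    have h5 : (z - (-(b⁻¹ * a)) * (-(b⁻¹ * a))) • g = 0 := by
      rw [sub_smul, h4, sub_self]
    rw [smul_eq_zero] at h5
    exact sub_eq_zero.mp (h5.resolve_right hg)

theorem s_IHE7 : S_IHE7 := by
  intro hF K V _ _ _ _ _ S z m I hS h3 hz hrank hm hI hcomm hab
  have hpos : 0 < Module.finrank K V := by
    rw [hrank]
    obtain ⟨k, rfl⟩ := hm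
    omega
  have hnt : Nontrivial V := Module.nontrivial_of_finrank_pos hpos
  obtain ⟨v0, hv0⟩ := exists_ne (0 : V)
  have hfld : ∀ (g : V) (φ : K[X]), g ≠ 0 → aeval I φ g = 0 → aeval I φ = 0 := by
    intro g φ hg h
    obtain ⟨a, b, hφ⟩ := IHE7_lin hI φ
    rw [hφ] at h
    obtain ⟨rfl, rfl⟩ := IHE7_ind hz hI hg h
    ext v
    rw [hφ, zero_smul, zero_smul, add_zero, LinearMap.zero_apply]
  obtain ⟨F, _, _, _, E, θ, hE, hgen⟩ := hF K V I ⟨v0, hv0⟩ hfld
  have hEf : ∀ f : F, ∃ a b : K, ∀ v, E f v = a • v + b • I v := by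
    intro f
    obtain ⟨φ, rfl⟩ := hgen f
    obtain ⟨a, b, h⟩ := IHE7_lin hI φ
    refine ⟨a, b, fun v => ?_⟩
    rw [← h v]
    have h1 : E (aeval θ φ) = aeval I φ := by
      rw [← Polynomial.aeval_algHom_apply, hE]
    rw [h1]
  have hEinj : Function.Injective E := E.toRingHom.injective
  -- the dimension of `F`
  let L : (K × K) →ₗ[K] F :=
    { toFun := fun p => p.1 • 1 + p.2 • θ
      map_add' := by
        intro p q
        simp only [Prod.fst_add, Prod.snd_add, add_smul]
        abel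
      map_smul' := by
        intro c p
        simp only [Prod.smul_fst, Prod.smul_snd, smul_eq_mul, mul_smul, RingHom.id_apply, smul_add] }
  have hEL : ∀ (p : K × K) (v : V), E (L p) v = p.1 • v + p.2 • I v := by
    intro p v
    show E (p.1 • 1 + p.2 • θ) v = _
    rw [map_add, map_smul, map_smul, map_one, hE]
    rfl
  have hLbij : Function.Bijective L := by
    constructor
    · rw [← LinearMap.ker_eq_bot, LinearMap.ker_eq_bot']
      intro p hp
      have h1 := hEL p v0
      rw [hp, map_zero, LinearMap.zero_apply] at h1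
      obtain ⟨h2, h4⟩ := IHE7_ind hz hI hv0 h1.symm
      exact Prod.ext h2 h4
    · intro f
      obtain ⟨a, b, h⟩ := hEf f
      refine ⟨(a, b), hEinj ?_⟩
      ext v
      rw [hEL, h]
  have hFrank : Module.finrank K F = 2 := by
    rw [← (LinearEquiv.ofBijective L hLbij).finrank_eq, Module.finrank_prod, Module.finrank_self]
  -- the module structure
  let modF : Module F V := Module.compHom V E.toRingHom
  have hsm : ∀ (f : F) (v : V), f • v = E f v := fun f v => rfl
  have htow : IsScalarTower K F V := ⟨fun c f v => by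
    rw [hsm, hsm, map_smul, LinearMap.smul_apply]⟩
  have hVrank : Module.finrank F V = m := by
    have h1 := Module.finrank_mul_finrank K F V
    rw [hFrank, hrank] at h1
    omega
  -- the linear maps
  have hlift : ∀ N ∈ S, ∃ M : Module.End F V, ∀ v, M v = N v := by
    intro N hN
    refine ⟨{ toFun := N, map_add' := map_add N, map_smul' := ?_ }, fun v => rfl⟩
    intro f v
    obtain ⟨a, b, h⟩ := hEf f
    rw [RingHom.id_apply, hsm, hsm, h, h, map_add, map_smul, map_smul, hcomm N hN]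
  refine ⟨F, inferInstance, inferInstance, modF, {M | ∃ N ∈ S, ∀ v, N v = M v}, ?_, ?_, hVrank,
    fun M hM => hM, ?_⟩
  · refine ⟨⟨0, hS.zero, fun v => rfl⟩, ?_, ?_, ?_, ?_, ?_⟩
    · rintro c M ⟨N, hN, hNM⟩
      obtain ⟨a, b, h⟩ := hEf c
      refine ⟨a • N + b • (N * I), hab N hN a b, fun v => ?_⟩
      rw [LinearMap.smul_apply, hsm, h, ← hNM, LinearMap.add_apply, LinearMap.smul_apply,
        LinearMap.smul_apply, Module.End.mul_apply, hcomm N hN]
    · intro x hx y
      obtain ⟨N, hN, hNx⟩ := hS.ex x hx y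
      obtain ⟨M, hM⟩ := hlift N hN
      exact ⟨M, ⟨N, hN, fun v => (hM v).symm⟩, by rw [hM, hNx]⟩
    · rintro M ⟨N, hN, hNM⟩ M' ⟨N', hN', hNM'⟩ x hx h
      have h1 : N = N' := hS.uq N hN N' hN' x hx (by rw [hNM, hNM', h])
      ext v
      rw [← hNM, ← hNM', h1]
    · rintro P ⟨P', hP', hP⟩ Q ⟨Q', hQ', hQ⟩ R ⟨R', hR', hR⟩ x y hx h1 h2
      rw [← hP, ← hQ] at h1
      rw [← hR, ← hP, ← hQ] at h2
      rw [← hR, ← hP, ← hQ]
      exact hS.hexA P' hP' Q' hQ' R' hR' x y hx h1 h2
    · rintro P ⟨P', hP', hP⟩ Q ⟨Q', hQ', hQ⟩ R ⟨R', hR', hR⟩ a b c hP0 hQ0 h1 h2 h4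
      rw [← hP, ← hQ] at h1 h4
      rw [← hR, ← hP] at h2
      rw [← hR, ← hQ]
      refine hS.hexB P' hP' Q' hQ' R' hR' a b c ?_ ?_ h1 h2 h4
      · rintro rfl
        apply hP0
        ext v
        rw [← hP]
        rfl
      · rintro rfl
        apply hQ0
        ext v
        rw [← hQ]
        rfl
  · have h1 : (3 : F) = algebraMap K F 3 := (map_ofNat (algebraMap K F) 3).symm
    rw [h1, h3, map_zero]
  · intro N hN
    obtain ⟨M, hM⟩ := hlift N hN
    exact ⟨M, ⟨N, hN, fun v => (hM v).symm⟩, hM⟩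

end Pool.Agent.TP3
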