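import Pool.Agent.Lib.MP_a1e562_co.IH.Stm

/-!
# MP_a1e562_co, piece IH F1: a multiplicatively closed closure system inside
-/

set_option autoImplicit false

namespace Pool.Agent.TP3

private theorem ihf1_step {K R : Type} [Field K] [CommRing R] [Algebra K R] (Φ0 : Set R) (T h : R)
    (h0 : PhiSet K R Φ0 T) (hh : h ∈ Φ0) (hu : IsUnit h) (hT : T * h ∈ Φ0) :
    PhiSet K R {f | f ∈ Φ0 ∧ f * h ∈ Φ0} T where
  zero := ⟨h0.zero, by rw [zero_mul]; exact h0.zero⟩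
  smul c f hf := ⟨h0.smul c f hf.1, by rw [smul_mul_assoc]; exact h0.smul c _ hf.2⟩
  unit f hf g hg hne := h0.unit f hf.1 g hg.1 hne
  add g hg r hg0 hr had := by
    have e : (r * g) * h = r * (g * h) := mul_assoc _ _ _
    have hne : g * h ≠ 0 := by
      intro hz
      exact hg0 ((hu.mul_left_eq_zero).1 hz)
    refine ⟨h0.add g hg.1 r hg0 hr.1 had, ?_⟩
    have h1 := h0.add (g * h) hg.2 r hne (by rw [← e]; exact hr.2) had
    rw [add_mul, e]
    exact h1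
  one := ⟨h0.one, by rw [one_mul]; exact hh⟩
  gen := ⟨h0.gen, hT⟩
  sq g hg r hg0 hr had := by
    have e : (r * g) * h = r * (g * h) := mul_assoc _ _ _
    have hne : g * h ≠ 0 := by
      intro hz
      exact hg0 ((hu.mul_left_eq_zero).1 hz)
    refine ⟨h0.sq g hg.1 r hg0 hr.1 had, ?_⟩
    have h1 := h0.sq (g * h) hg.2 r hne (by rw [← e]; exact hr.2) had
    rw [mul_assoc, e]
    exact h1
  add3 k hk r s hk0 hr hs hr' hs' := by
    have e : ∀ t : R, (t * k) * h = t * (k * h) := fun t => mul_assoc _ _ _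
    have hne : k * h ≠ 0 := by
      intro hz
      exact hk0 ((hu.mul_left_eq_zero).1 hz)
    refine ⟨h0.add3 k hk.1 r s hk0 hr.1 hs.1 hr' hs', ?_⟩
    have h1 := h0.add3 (k * h) hk.2 r s hne (by rw [← e]; exact hr.2) (by rw [← e]; exact hs.2)
      hr' hs'
    rw [add_mul, e, e]
    exact h1

theorem s_IHF1 : S_IHF1 := by
  intro K R _ _ _ Φ T hΦ hT
  rcases subsingleton_or_nontrivial R with hR | hR
  · refine ⟨Φ, subset_rfl, hΦ, fun f hf g _ => ?_⟩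
    rw [Subsingleton.elim (f * g) f]
    exact hf
  let Φ0 : Set R := {f | ∀ Ψ : Set R, Ψ ⊆ Φ → PhiSet K R Ψ T → f ∈ Ψ}
  have hsub : Φ0 ⊆ Φ := fun f hf => hf Φ subset_rfl hΦ
  have h0 : PhiSet K R Φ0 T :=
    { zero := fun Ψ _ hΨ => hΨ.zero
      smul := fun c f hf Ψ hs hΨ => hΨ.smul c f (hf Ψ hs hΨ)
      unit := fun f hf g hg hne => hΦ.unit f (hsub hf) g (hsub hg) hne
      add := fun g hg r hg0 hr had Ψ hs hΨ => hΨ.add g (hg Ψ hs hΨ) r hg0 (hr Ψ hs hΨ) had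
      one := fun Ψ _ hΨ => hΨ.one
      gen := fun Ψ _ hΨ => hΨ.gen
      sq := fun g hg r hg0 hr had Ψ hs hΨ => hΨ.sq g (hg Ψ hs hΨ) r hg0 (hr Ψ hs hΨ) had
      add3 := fun k hk r s hk0 hr hs hr' hs' Ψ hsb hΨ =>
        hΨ.add3 k (hk Ψ hsb hΨ) r s hk0 (hr Ψ hsb hΨ) (hs Ψ hsb hΨ) hr' hs' }
  have hunit : ∀ f ∈ Φ0, f ≠ 0 → IsUnit f := by
    intro f hf hf0
    have := h0.unit f hf 0 h0.zero hf0
    rw [sub_zero] at this
    exact this
  have key : ∀ h ∈ Φ0, h ≠ 0 → T * h ∈ Φ0 → ∀ f ∈ Φ0, f * h ∈ Φ0 := by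
    intro h hh hne hTh f hf
    have h1 : PhiSet K R {f | f ∈ Φ0 ∧ f * h ∈ Φ0} T :=
      ihf1_step Φ0 T h h0 hh (hunit h hh hne) hTh
    have h2 : ({f | f ∈ Φ0 ∧ f * h ∈ Φ0} : Set R) ⊆ Φ := fun f hf => hsub hf.1
    exact (hf _ h2 h1).2
  have step1 : ∀ f ∈ Φ0, f * T ∈ Φ0 := by
    intro f hf
    by_cases hT0 : T = 0
    · rw [hT0, mul_zero]
      exact h0.zero
    · refine key T h0.gen hT0 ?_ f hf
      have := h0.sq 1 h0.one T one_ne_zero (by rw [mul_one]; exact h0.gen) hT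
      rw [mul_one] at this
      exact this
  refine ⟨Φ0, hsub, h0, fun f hf g hg => ?_⟩
  by_cases hg0 : g = 0
  · rw [hg0, mul_zero]
    exact h0.zero
  · refine key g hg hg0 ?_ f hf
    rw [mul_comm]
    exact step1 g hg

end Pool.Agent.TP3
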