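import Pool.Agent.Lib.MP_a1e562_co.IH.Stm

/-!
# MP_a1e562_co, [IH F2]: the nonzero elements form a cyclic group
-/

set_option autoImplicit false

namespace Pool.Agent.TP3

open Configuration Polynomial

/-- the group of the nonzero elements -/
private def IHF2_H {R : Type} [CommRing R] [Finite R] (Φ : Set R) (h1 : (1 : R) ∈ Φ)
    (hm : ∀ f ∈ Φ, ∀ g ∈ Φ, f * g ∈ Φ) : Subgroup Rˣ where
  carrier := {u | (u : R) ∈ Φ}
  one_mem' := h1
  mul_mem' := by
    intro a b ha hb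
    exact hm _ ha _ hb
  inv_mem' := by
    intro a ha
    obtain ⟨n, hn, hw⟩ := isOfFinOrder_iff_pow_eq_one.mp (isOfFinOrder_of_finite a)
    obtain ⟨m, rfl⟩ : ∃ m, n = m + 1 := ⟨n - 1, by omega⟩
    have e : a⁻¹ = a ^ m := by
      rw [inv_eq_iff_mul_eq_one, mul_comm, ← pow_succ, hw]
    have hp : ∀ k : ℕ, ((a ^ k : Rˣ) : R) ∈ Φ := by
      intro k
      induction k with
      | zero => simpa using h1
      | succ k ih =>
        rw [pow_succ, Units.val_mul]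
        exact hm _ ih _ ha
    show ((a⁻¹ : Rˣ) : R) ∈ Φ
    rw [e]
    exact hp m

theorem s_IHF2 : S_IHF2 := by
  intro K R _ _ _ _ _ Φ T hΦ hm
  have h1 : (1 : R) ∈ Φ := hΦ.one
  let H := IHF2_H Φ h1 hm
  obtain ⟨m, hmax⟩ := Ideal.exists_maximal R
  have hdom : IsDomain (R ⧸ m) := Ideal.Quotient.isDomain m
  let F : H →* (R ⧸ m) :=
    ((Ideal.Quotient.mk m : R →+* R ⧸ m) : R →* R ⧸ m).comp ((Units.coeHom R).comp H.subtype)
  have hF : Function.Injective F := by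
    intro a b hab
    by_contra hne
    have h2 : ((a : Rˣ) : R) ≠ ((b : Rˣ) : R) := by
      intro h
      exact hne (Subtype.ext (Units.ext h))
    have h3 : IsUnit (((a : Rˣ) : R) - ((b : Rˣ) : R)) := hΦ.unit _ a.2 _ b.2 h2
    have h4 : ((a : Rˣ) : R) - ((b : Rˣ) : R) ∈ m := Ideal.Quotient.eq.mp hab
    exact hmax.ne_top (Ideal.eq_top_of_isUnit_mem m h4 h3)
  have hcyc : IsCyclic H := isCyclic_of_injective_ringHom F hF
  obtain ⟨θ, hθ⟩ := hcyc.exists_generator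
  refine ⟨((θ : Rˣ) : R), θ.2, Units.ne_zero _, ?_⟩
  intro f hf hf0
  have hu : IsUnit f := by
    have := hΦ.unit f hf 0 hΦ.zero hf0
    rwa [sub_zero] at this
  obtain ⟨u, rfl⟩ := hu
  have h5 := hθ ⟨u, hf⟩
  rw [← mem_powers_iff_mem_zpowers] at h5
  obtain ⟨k, hk⟩ := h5
  refine ⟨k, ?_⟩
  have h6 := congrArg (fun x : H => ((x : Rˣ) : R)) hk
  simpa using h6.symm

end Pool.Agent.TP3
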