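import Pool.Agent.Lib.MP_a1e562_co.IH.Stm

/-! `S_IHF3`: for `0 < N` and every `j` some `k` has `gcd k N ∣ 2` and `gcd (k + j) N ∣ 2`. -/

namespace Pool.Agent.TP3

theorem s_IHF3 : S_IHF3 := by
  intro N j hN
  classical
  set Q : ℕ := ∏ p ∈ N.primeFactors.filter (fun p => ¬ p ∣ j), p ^ 2 with hQ
  have hA : ∀ p : ℕ, p.Prime → p ∣ N → ¬ p ∣ j → p ^ 2 ∣ Q := by
    intro p hp hpN hpj
    rw [hQ]
    exact Finset.dvd_prod_of_mem (fun p => p ^ 2)
      (Finset.mem_filter.mpr ⟨Nat.mem_primeFactors.mpr ⟨hp, hpN, hN.ne'⟩, hpj⟩)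
  have hB : ∀ p : ℕ, p.Prime → p ∣ j → ¬ p ∣ Q := by
    intro p hp hpj hpQ
    rw [hQ] at hpQ
    obtain ⟨q, hq, hpq⟩ := (Prime.dvd_finsetProd_iff hp.prime _).mp hpQ
    obtain ⟨hq1, hq2⟩ := Finset.mem_filter.mp hq
    have hqp : q.Prime := (Nat.mem_primeFactors.mp hq1).1
    have h1 : p ∣ q := hp.dvd_of_dvd_pow hpq
    have h2 : p = q := (Nat.prime_dvd_prime_iff_eq hp hqp).mp h1
    exact hq2 (h2 ▸ hpj)
  refine ⟨Q + j, ?_, ?_⟩
  · have h1 : Nat.gcd (Q + j) N = 1 := by
      rw [Nat.eq_one_iff_not_exists_prime_dvd]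
      intro p hp hpg
      have hpk : p ∣ Q + j := hpg.trans (Nat.gcd_dvd_left _ _)
      have hpN : p ∣ N := hpg.trans (Nat.gcd_dvd_right _ _)
      by_cases hpj : p ∣ j
      · exact hB p hp hpj ((Nat.dvd_add_left hpj).mp hpk)
      · have hpQ : p ∣ Q := (dvd_pow_self p two_ne_zero).trans (hA p hp hpN hpj)
        exact hpj ((Nat.dvd_add_right hpQ).mp hpk)
    rw [h1]
    exact one_dvd _
  · set g : ℕ := Nat.gcd (Q + j + j) N with hg
    have hgk : g ∣ Q + j + j := Nat.gcd_dvd_left _ _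
    have hgN : g ∣ N := Nat.gcd_dvd_right _ _
    -- every prime divisor of `g` is `2`
    have h2 : ∀ p : ℕ, p.Prime → p ∣ g → p = 2 := by
      intro p hp hpg
      have hpk : p ∣ Q + (j + j) := by
        rw [← add_assoc]
        exact hpg.trans hgk
      have hpN : p ∣ N := hpg.trans hgN
      by_cases hpj : p ∣ j
      · exact absurd ((Nat.dvd_add_left (dvd_add hpj hpj)).mp hpk) (hB p hp hpj)
      · have hpQ : p ∣ Q := (dvd_pow_self p two_ne_zero).trans (hA p hp hpN hpj)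
        have h3 : p ∣ j + j := (Nat.dvd_add_right hpQ).mp hpk
        have h4 : p ∣ 2 * j := by
          rw [two_mul]
          exact h3
        rcases (Nat.Prime.dvd_mul hp).mp h4 with h5 | h5
        · exact (Nat.prime_dvd_prime_iff_eq hp Nat.prime_two).mp h5
        · exact absurd h5 hpj
    -- `4` does not divide `g`
    have h4 : ¬ 4 ∣ g := by
      intro h4g
      have hk4 : 4 ∣ Q + (j + j) := by
        rw [← add_assoc]
        exact h4g.trans hgk
      have h2N : 2 ∣ N := (by norm_num : (2 : ℕ) ∣ 4).trans (h4g.trans hgN)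
      by_cases hj : 2 ∣ j
      · have h3 : 2 ∣ Q + (j + j) := (by norm_num : (2 : ℕ) ∣ 4).trans hk4
        exact hB 2 Nat.prime_two hj ((Nat.dvd_add_left (dvd_add hj hj)).mp h3)
      · have h3 : 2 ^ 2 ∣ Q := hA 2 Nat.prime_two h2N hj
        have h5 : 4 ∣ Q := by
          have h6 : (2 : ℕ) ^ 2 = 4 := by norm_num
          rw [h6] at h3
          exact h3
        have h7 : 4 ∣ j + j := (Nat.dvd_add_right h5).mp hk4
        omega
    by_cases h2g : 2 ∣ g
    · obtain ⟨m, hm⟩ := h2g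
      have hm1 : m = 1 := by
        rw [Nat.eq_one_iff_not_exists_prime_dvd]
        intro p hp hpm
        have h5 : p = 2 := h2 p hp (hm ▸ Dvd.dvd.mul_left hpm 2)
        rw [h5] at hpm
        obtain ⟨r, hr⟩ := hpm
        apply h4
        refine ⟨r, ?_⟩
        rw [hm, hr]
        ring
      rw [hm, hm1]
    · have h5 : g = 1 := by
        rw [Nat.eq_one_iff_not_exists_prime_dvd]
        intro p hp hpg
        have h6 : p = 2 := h2 p hp hpg
        rw [h6] at hpg
        exact h2g hpg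
      rw [h5]
      exact one_dvd _

end Pool.Agent.TP3
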