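import Pool.Agent.Lib.MP_a1e562_co.IH.Stm

/-!
# MP_a1e562_co, piece IH F4: the closure system is everything
-/

set_option autoImplicit false

namespace Pool.Agent.TP3

open Polynomial

theorem s_IHF4 : S_IHF4 := by
  intro hF3 K R _ _ _ _ _ h3 Φ T θ hΦ hT hmul hθ hθ0 hpow
  have h3R : (3 : R) = 0 := by
    have h := congrArg (algebraMap K R) h3
    rw [map_zero, map_ofNat] at h
    exact h
  obtain ⟨u, hu⟩ : IsUnit θ := by
    have := hΦ.unit θ hθ 0 hΦ.zero hθ0
    simpa using this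
  set N := orderOf u with hN
  have hN0 : 0 < N := orderOf_pos u
  have hθN : θ ^ N = 1 := by
    have := pow_orderOf_eq_one u
    have h1 := congrArg (fun t : Rˣ => (t : R)) this
    simpa [hu, ← hN] using h1
  have hpΦ : ∀ k : ℕ, θ ^ k ∈ Φ := by
    intro k
    induction k with
    | zero =>
      rw [pow_zero]
      exact hΦ.one
    | succ k ih =>
      rw [pow_succ]
      exact hmul _ ih _ hθ
  have hpne : ∀ k : ℕ, θ ^ k ≠ 0 := by
    intro k h
    have h1 : IsUnit (θ ^ k) := by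
      rw [← hu]
      exact (Units.isUnit u).pow k
    rw [h] at h1
    exact not_isUnit_zero h1
  -- (1)
  have hA1 : Algebra.adjoin K {θ} = ⊤ := by
    rw [eq_top_iff, ← hT, Algebra.adjoin_le_iff, Set.singleton_subset_iff]
    show T ∈ Algebra.adjoin K {θ}
    by_cases hT0 : T = 0
    · rw [hT0]
      exact zero_mem _
    · obtain ⟨k, hk⟩ := hpow T hΦ.gen hT0
      rw [hk]
      exact pow_mem (Algebra.subset_adjoin (Set.mem_singleton _)) k
  -- (2)
  have hA2 : Algebra.adjoin K {θ ^ 2} = ⊤ := by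
    rw [eq_top_iff, ← hA1, Algebra.adjoin_le_iff, Set.singleton_subset_iff]
    show θ ∈ Algebra.adjoin K {θ ^ 2}
    have hs : θ ^ 2 ∈ Algebra.adjoin K {θ ^ 2} := Algebra.subset_adjoin (Set.mem_singleton _)
    have h1 : θ * 1 + 1 ∈ Φ := hΦ.add 1 hΦ.one θ one_ne_zero (by rw [mul_one]; exact hθ) hA1
    rw [mul_one] at h1
    by_cases h0 : θ + 1 = 0
    · have : θ = -1 := eq_neg_of_add_eq_zero_left h0
      rw [this]
      exact neg_mem (one_mem _)
    · obtain ⟨i, hi⟩ := hpow _ h1 h0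
      have h2 : (θ + 1) ^ 2 ∈ Algebra.adjoin K {θ ^ 2} := by
        rw [hi, ← pow_mul, mul_comm, pow_mul]
        exact pow_mem hs i
      have h4 : θ = -((θ + 1) ^ 2 - θ ^ 2 - 1) := by
        have : θ = -((θ + 1) ^ 2 - θ ^ 2 - 1) + 3 * θ := by ring
        rw [h3R, zero_mul, add_zero] at this
        exact this
      have h5 : -((θ + 1) ^ 2 - θ ^ 2 - 1) ∈ Algebra.adjoin K {θ ^ 2} :=
        neg_mem (sub_mem (sub_mem h2 hs) (one_mem _))
      rw [← h4] at h5
      exact h5
  -- (3)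
  have hA3 : ∀ m : ℕ, Nat.gcd m N ∣ 2 → Algebra.adjoin K {θ ^ m} = ⊤ := by
    intro m hm
    have hg : θ ^ (Nat.gcd m N) ∈ Algebra.adjoin K {θ ^ m} := by
      have h1 : u ^ (Nat.gcd m N) ∈ Subgroup.zpowers (u ^ m) := by
        rw [Subgroup.mem_zpowers_iff]
        refine ⟨Nat.gcdA m N, ?_⟩
        have h2 : ((Nat.gcd m N : ℕ) : ℤ) = m * Nat.gcdA m N + N * Nat.gcdB m N :=
          Nat.gcd_eq_gcd_ab m N
        rw [← zpow_natCast u (Nat.gcd m N), h2, zpow_add, zpow_mul, zpow_mul, zpow_natCast,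
          zpow_natCast, hN, pow_orderOf_eq_one, one_zpow, mul_one]
      rw [← mem_powers_iff_mem_zpowers, Submonoid.mem_powers_iff] at h1
      obtain ⟨k, hk⟩ := h1
      have h2 := congrArg (fun t : Rˣ => (t : R)) hk
      simp only [Units.val_pow_eq_pow_val, hu] at h2
      rw [← h2]
      exact pow_mem (Algebra.subset_adjoin (Set.mem_singleton _)) k
    have hcase : Nat.gcd m N = 1 ∨ Nat.gcd m N = 2 := (Nat.dvd_prime Nat.prime_two).1 hm
    rcases hcase with h | h
    · rw [h, pow_one] at hg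
      rw [eq_top_iff, ← hA1, Algebra.adjoin_le_iff, Set.singleton_subset_iff]
      exact hg
    · rw [h] at hg
      rw [eq_top_iff, ← hA2, Algebra.adjoin_le_iff, Set.singleton_subset_iff]
      exact hg
  -- (4)
  have hadd1 : ∀ a b : ℕ, b ≤ a → θ ^ a + θ ^ b ∈ Φ := by
    intro a b hab
    obtain ⟨k, hk1, hk2⟩ := hF3 N (a - b) hN0
    have hNk : ∀ t : ℕ, θ ^ (b + (N - 1) * k) * θ ^ (k + t) = θ ^ (b + t) := by
      intro t
      rw [← pow_add]
      have h1 : b + (N - 1) * k + (k + t) = N * k + (b + t) := by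
        obtain ⟨M, hM⟩ : ∃ M, N = M + 1 := ⟨N - 1, by omega⟩
        rw [hM]
        simp only [Nat.add_sub_cancel]
        ring
      rw [h1, pow_add, pow_mul, hθN, one_pow, one_mul]
    have hs : θ ^ k * θ ^ (b + (N - 1) * k) = θ ^ b := by
      have := hNk 0
      rw [add_zero, add_zero] at this
      rw [mul_comm]
      exact this
    have hr : θ ^ (k + (a - b)) * θ ^ (b + (N - 1) * k) = θ ^ a := by
      have := hNk (a - b)
      rw [mul_comm, this]
      congr 1
      omega
    have := hΦ.add3 (θ ^ (b + (N - 1) * k)) (hpΦ _) (θ ^ (k + (a - b))) (θ ^ k) (hpne _)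
      (by rw [hr]; exact hpΦ _) (by rw [hs]; exact hpΦ _) (hA3 _ hk2) (hA3 _ hk1)
    rw [hr, hs] at this
    exact this
  have hadd : ∀ f ∈ Φ, ∀ g ∈ Φ, f + g ∈ Φ := by
    intro f hf g hg
    by_cases hf0 : f = 0
    · rw [hf0, zero_add]
      exact hg
    by_cases hg0 : g = 0
    · rw [hg0, add_zero]
      exact hf
    obtain ⟨a, ha⟩ := hpow f hf hf0
    obtain ⟨b, hb⟩ := hpow g hg hg0
    rw [ha, hb]
    rcases Nat.le_total b a with h | h
    · exact hadd1 a b h
    · rw [add_comm]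
      exact hadd1 b a h
  -- (5)
  intro f
  let A : Subalgebra K R :=
    { carrier := Φ
      mul_mem' := fun {a b} ha hb => hmul a ha b hb
      add_mem' := fun {a b} ha hb => hadd a ha b hb
      algebraMap_mem' := fun c => by
        rw [Algebra.algebraMap_eq_smul_one]
        exact hΦ.smul c 1 hΦ.one }
  have hA : A = ⊤ := by
    rw [eq_top_iff, ← hT, Algebra.adjoin_le_iff, Set.singleton_subset_iff]
    exact hΦ.gen
  have hf : f ∈ A := by
    rw [hA]
    exact Algebra.mem_top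
  exact hf

end Pool.Agent.TP3
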