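import Pool.Agent.Lib.MP_a1e562_co.IH.Stm

/-!
# MP_a1e562_co, involutory homology, piece GA: the trace lemma
-/

set_option autoImplicit false

namespace Pool.Agent.TP3

open Finset Matrix

private theorem ga_prime {s : ℕ} (hs : s ≠ 0) (hc : Nat.Coprime s 3) (n : ℕ) :
    ∃ l : ℕ, n < l ∧ l.Prime ∧ l ≡ 1 [MOD s] ∧ l ≡ 2 [MOD 3] := by
  obtain ⟨k, hk1, hk2⟩ := Nat.chineseRemainder hc 1 2
  have h1 : Nat.Coprime k s := by
    have h := hk1.gcd_eq
    rw [Nat.gcd_one_left] at h
    exact h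
  have h2 : Nat.Coprime k 3 := by
    have h := hk2.gcd_eq
    have h3 : Nat.gcd 2 3 = 1 := by norm_num
    rw [h3] at h
    exact h
  obtain ⟨l, hl1, hl2, hl3⟩ := Nat.forall_exists_prime_gt_and_modEq n (q := s * 3) (a := k)
    (by positivity) (Nat.Coprime.mul_right h1 h2)
  exact ⟨l, hl1, hl2, (hl3.of_mul_right 3).trans hk1, (hl3.of_mul_left s).trans hk2⟩

section

variable {X : Type} [Fintype X] [DecidableEq X] {R : Type} [CommRing R]

/-- the matrix of a permutation -/
private def gaM (R : Type) [CommRing R] (g : Equiv.Perm X) : Matrix X X R :=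
  Matrix.of fun a b => if g a = b then 1 else 0

private theorem gaM_apply (g : Equiv.Perm X) (a b : X) :
    gaM R g a b = if g a = b then 1 else 0 := rfl

private theorem gaM_mul (g : Equiv.Perm X) (A : Matrix X X R) (a c : X) :
    (gaM R g * A) a c = A (g a) c := by
  rw [Matrix.mul_apply]
  simp only [gaM_apply, ite_mul, one_mul, zero_mul]
  rw [Finset.sum_ite_eq]
  simp

private theorem mul_gaM (g : Equiv.Perm X) (A : Matrix X X R) (a c : X) :
    (A * gaM R g) a (g c) = A a c := by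
  rw [Matrix.mul_apply]
  simp only [gaM_apply, mul_ite, mul_one, mul_zero, EmbeddingLike.apply_eq_iff_eq]
  rw [Finset.sum_ite_eq']
  simp

private theorem gaM_mul_gaM (g h : Equiv.Perm X) : gaM R g * gaM R h = gaM R (h * g) := by
  ext a c
  rw [gaM_mul, gaM_apply, gaM_apply, Equiv.Perm.mul_apply]

private theorem gaM_one : gaM R (1 : Equiv.Perm X) = 1 := by
  ext a c
  rw [gaM_apply, Matrix.one_apply]
  rfl

private theorem gaM_pow (g : Equiv.Perm X) (k : ℕ) : gaM R g ^ k = gaM R (g ^ k) := by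
  induction k with
  | zero => rw [pow_zero, pow_zero, gaM_one]
  | succ k ih => rw [pow_succ, ih, gaM_mul_gaM, pow_succ']

end

private theorem ga_sum_pow {S ι : Type} [Ring S] (p : ℕ) [Fact p.Prime] [CharP S p] (s : Finset ι)
    (f : ι → S) (hf : ∀ i j, Commute (f i) (f j)) : (∑ i ∈ s, f i) ^ p = ∑ i ∈ s, f i ^ p := by
  classical
  induction s using Finset.induction_on with
  | empty =>
    rw [Finset.sum_empty, Finset.sum_empty, zero_pow (Fact.out : p.Prime).ne_zero]
  | insert a s ha ih =>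
    rw [Finset.sum_insert ha, Finset.sum_insert ha, ← ih]
    exact add_pow_expChar_of_commute p (Commute.sum_right _ _ _ fun j _ => hf a j)

theorem s_IHGA : S_IHGA := by
  intro X V _ _ _ χ T hχ hT hinv g hg hcop
  classical
  by_cases hX : Nonempty X
  swap
  · rw [not_nonempty_iff] at hX
    exact Finset.sum_of_isEmpty _
  obtain ⟨p⟩ := hX
  have : Nonempty X := ⟨p⟩
  have : Fintype V := Fintype.ofFinite V
  have hs : orderOf g ≠ 0 := (orderOf_pos g).ne'
  obtain ⟨l, hl1, hl2, hl3, hl4⟩ := ga_prime hs hcop (Fintype.card X + 3)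
  have : Fact l.Prime := ⟨hl2⟩
  have : CharP (Matrix X X (ZMod l)) l := inferInstance
  -- the translations
  let c : V → ℤ := fun v => χ p (T v p)
  have hc : ∀ v a, χ a (T v a) = c v := by
    intro v a
    obtain ⟨u, rfl⟩ := hT.reg p a
    have h1 : T v (T u p) = T u (T v p) := by
      rw [← Equiv.Perm.mul_apply, ← Equiv.Perm.mul_apply, ← hT.add, ← hT.add, add_comm]
    rw [h1, hinv]
  have hcneg : ∀ v, c (-v) = -c v := by
    intro v
    have h1 := hc (-v) (T v p)
    have h0 : T (-v) (T v p) = p := by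
      rw [← Equiv.Perm.mul_apply, hT.neg, inv_mul_cancel]
      rfl
    rw [h0] at h1
    rw [← h1, hχ.anti]
  -- the matrices
  let A : Matrix X X (ZMod l) := Matrix.of fun a b => ((χ a b : ℤ) : ZMod l)
  have hA : A = ∑ v, ((c v : ℤ) : ZMod l) • gaM (ZMod l) (T v) := by
    ext a b
    obtain ⟨v, rfl⟩ := hT.reg a b
    rw [Matrix.sum_apply]
    simp only [Matrix.smul_apply, gaM_apply, smul_eq_mul, mul_ite, mul_one, mul_zero]
    rw [Finset.sum_eq_single v]
    · rw [if_pos rfl, ← hc v a]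
      rfl
    · intro w _ hw
      rw [if_neg]
      exact fun h => hw (hT.inj h)
    · intro h
      exact absurd (mem_univ v) h
  have hE : ∀ v w, Commute (gaM (ZMod l) (T v)) (gaM (ZMod l) (T w)) := by
    intro v w
    show _ * _ = _ * _
    rw [gaM_mul_gaM, gaM_mul_gaM, ← hT.add, ← hT.add, add_comm]
  have hTpow : ∀ (v : V) (k : ℕ), T v ^ k = T (k • v) := by
    intro v k
    induction k with
    | zero => rw [pow_zero, zero_smul, hT.zero]
    | succ k ih => rw [pow_succ, ih, succ_nsmul, hT.add]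
  have hlv : ∀ v : V, l • v = -v := by
    intro v
    obtain ⟨m, hm⟩ : ∃ m, l = 3 * m + 2 := by
      refine ⟨l / 3, ?_⟩
      have h1 : l % 3 = 2 % 3 := hl4
      omega
    have h3 : (3 : ℕ) • v = 0 := by
      have := hT.exp v
      rw [show (3 : ℕ) = 2 + 1 from rfl, succ_nsmul, two_nsmul]
      exact this
    rw [hm, add_smul, mul_comm, mul_smul, h3, smul_zero, zero_add, two_nsmul, hT.two]
  have hApow : A ^ l = -A := by
    have h1 : A ^ l = ∑ v, (((c v : ℤ) : ZMod l) • gaM (ZMod l) (T v)) ^ l := by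
      conv_lhs => rw [hA]
      refine ga_sum_pow l _ _ fun v w => ?_
      exact ((hE v w).smul_left _).smul_right _
    have h2 : ∀ v, (((c v : ℤ) : ZMod l) • gaM (ZMod l) (T v)) ^ l =
        ((c v : ℤ) : ZMod l) • gaM (ZMod l) (T (-v)) := by
      intro v
      rw [smul_pow, ZMod.pow_card, gaM_pow, hTpow, hlv]
    rw [h1, Finset.sum_congr rfl fun v _ => h2 v]
    rw [← Equiv.sum_comp (Equiv.neg V)]
    conv_rhs => rw [hA]
    rw [← Finset.sum_neg_distrib]
    refine Finset.sum_congr rfl fun v _ => ?_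
    rw [Equiv.neg_apply, neg_neg, hcneg, Int.cast_neg, neg_smul]
  -- the automorphism
  let Q : Matrix X X (ZMod l) := gaM (ZMod l) g
  have hQpow : Q ^ l = Q := by
    have h1 : g ^ l = g := by
      conv_rhs => rw [← pow_one g]
      exact pow_eq_pow_iff_modEq.2 hl3
    show gaM (ZMod l) g ^ l = gaM (ZMod l) g
    rw [gaM_pow, h1]
  have hQA : Commute Q A := by
    show Q * A = A * Q
    ext a b
    obtain ⟨b, rfl⟩ := g.surjective b
    show (gaM (ZMod l) g * A) a (g b) = (A * gaM (ZMod l) g) a (g b)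
    rw [gaM_mul, mul_gaM]
    show ((χ (g a) (g b) : ℤ) : ZMod l) = ((χ a b : ℤ) : ZMod l)
    rw [hg]
  have hN : (Q * A) ^ l = -(Q * A) := by
    rw [hQA.mul_pow, hQpow, hApow, mul_neg]
  have htr := ZMod.trace_pow_card (Q * A)
  rw [hN, Matrix.trace_neg, ZMod.pow_card] at htr
  have htr2 : (2 : ZMod l) * Matrix.trace (Q * A) = 0 := by
    linear_combination -htr
  have hl3' : 3 < l := by omega
  have h20 : (2 : ZMod l) ≠ 0 := by
    intro h
    have h1 : ((2 : ℕ) : ZMod l) = 0 := by exact_mod_cast h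
    rw [ZMod.natCast_eq_zero_iff] at h1
    have := Nat.le_of_dvd (by norm_num) h1
    omega
  have htr3 := (mul_eq_zero.1 htr2).resolve_left h20
  -- the sum
  have hsum : ((∑ a, χ a (g a) : ℤ) : ZMod l) = 0 := by
    have h1 : Matrix.trace (Q * A) = -((∑ a, χ a (g a) : ℤ) : ZMod l) := by
      rw [Matrix.trace, Int.cast_sum, ← Finset.sum_neg_distrib]
      refine Finset.sum_congr rfl fun a _ => ?_
      rw [Matrix.diag_apply]
      show (gaM (ZMod l) g * A) a a = _
      rw [gaM_mul]
      show ((χ (g a) a : ℤ) : ZMod l) = _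
      rw [hχ.anti (g a) a, Int.cast_neg]
    rw [h1, neg_eq_zero] at htr3
    exact htr3
  have hdvd : (l : ℤ) ∣ ∑ a, χ a (g a) := (ZMod.intCast_zmod_eq_zero_iff_dvd _ l).1 hsum
  refine Int.eq_zero_of_abs_lt_dvd hdvd ?_
  have h1 : ∀ a, |χ a (g a)| ≤ 1 := by
    intro a
    by_cases h : a = g a
    · have h2 := hχ.anti a a
      have h3 : χ a a = 0 := by omega
      rw [← h, h3]
      norm_num
    · rcases hχ.val a (g a) h with h2 | h2 <;> rw [h2] <;> norm_num
  calc |∑ a, χ a (g a)| ≤ ∑ a, |χ a (g a)| := Finset.abs_sum_le_sum_abs _ _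
    _ ≤ ∑ _a : X, (1 : ℤ) := Finset.sum_le_sum fun a _ => h1 a
    _ = Fintype.card X := by simp
    _ < l := by exact_mod_cast (by omega : Fintype.card X < l)

end Pool.Agent.TP3
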