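import Pool.Agent.Lib.MP_a1e562_co.IH.Stm

/-!
# [IH GB] parity lemma for tournaments
-/

set_option autoImplicit false

namespace Pool.Agent.TP3

open Configuration Polynomial

private theorem GB_fix {X : Type} {χ : X → X → ℤ} (h : Tour X χ) (σ : Equiv.Perm X)
    (hσ : ∀ a b, χ (σ a) (σ b) = -χ a b) {a b : X} (ha : σ a = a) (hb : σ b = b) : a = b := by
  by_contra hne
  have h1 := hσ a b
  rw [ha, hb] at h1
  rcases h.val a b hne with h2 | h2
  · rw [h2] at h1
    omega
  · rw [h2] at h1
    omega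

theorem s_IHGB : S_IHGB := by
  classical
  intro X _ χ hT hodd τ g N hτ hτχ hN hg hsum hτg
  have hττ : ∀ a, τ (τ a) = a := by
    intro a
    have := congrArg (fun f : Equiv.Perm X => f a) hτ
    simpa using this
  have hconj : ∀ a, τ (g (τ a)) = g⁻¹ a := by
    intro a
    have := congrArg (fun f : Equiv.Perm X => f a) hτg
    simpa using this
  have hgτg : ∀ a, g (τ (g a)) = τ a := by
    intro a
    have h1 := hconj (τ (g (τ (τ a))))
    have h2 := hconj (τ a)
    have h3 : τ (g a) = g⁻¹ (τ a) := by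
      rw [← h2, hττ]
    rw [h3]
    exact Equiv.apply_symm_apply g _
  have hσσ : ∀ a, τ (g (τ (g a))) = a := by
    intro a
    rw [hgτg, hττ]
  have hσ2 : (τ * g) ^ 2 ^ 1 = 1 := by
    ext a
    rw [pow_one, pow_two, Equiv.Perm.mul_apply, Equiv.Perm.mul_apply, Equiv.Perm.mul_apply,
      Equiv.Perm.one_apply, hσσ]
  have hndvd : ¬ 2 ∣ Fintype.card X := by
    rw [← even_iff_two_dvd, Nat.not_even_iff_odd]
    exact hodd
  obtain ⟨M, hM⟩ := Equiv.Perm.exists_fixed_point_of_prime hndvd hσ2
  rw [Equiv.Perm.mul_apply] at hM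
  have hσχ : ∀ a b, χ ((τ * g) a) ((τ * g) b) = -χ a b := by
    intro a b
    rw [Equiv.Perm.mul_apply, Equiv.Perm.mul_apply, hτχ, hg]
  have hf : ∀ a, χ (τ (g a)) (g (τ (g a))) = χ a (g a) := by
    intro a
    rw [hgτg, hτχ, hT.anti (g a) a, neg_neg]
  have hs0 : ∑ a ∈ Finset.univ.erase M, ((χ a (g a) : ℤ) : ZMod 2) = 0 := by
    refine Finset.sum_involution (fun a _ => τ (g a)) ?_ ?_ ?_ ?_
    · intro a _
      rw [hf]
      exact CharTwo.add_self_eq_zero _
    · intro a ha _ hfix
      have : a = M := GB_fix hT (τ * g) hσχ (by rw [Equiv.Perm.mul_apply]; exact hfix)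
        (by rw [Equiv.Perm.mul_apply]; exact hM)
      exact (Finset.mem_erase.1 ha).1 this
    · intro a ha
      refine Finset.mem_erase.2 ⟨?_, Finset.mem_univ _⟩
      intro h1
      apply (Finset.mem_erase.1 ha).1
      have h2 := hσσ a
      rw [h1, hM] at h2
      exact h2.symm
    · intro a _
      exact hσσ a
  have hs1 : ∑ a, ((χ a (g a) : ℤ) : ZMod 2) = 0 := by
    rw [← Int.cast_sum, hsum, Int.cast_zero]
  have hM0 : ((χ M (g M) : ℤ) : ZMod 2) = 0 := by
    rw [← Finset.add_sum_erase Finset.univ _ (Finset.mem_univ M), hs0, add_zero] at hs1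
    exact hs1
  have hgM : g M = M := by
    by_contra hne
    rcases hT.val M (g M) (fun h => hne h.symm) with h2 | h2
    · rw [h2] at hM0
      exact absurd hM0 (by decide)
    · rw [h2] at hM0
      exact absurd hM0 (by decide)
  have hτM : τ M = M := by
    rw [hgM] at hM
    exact hM
  have hMN : M = N := GB_fix hT τ hτχ hτM hN
  rw [← hMN]
  exact hgM

end Pool.Agent.TP3
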