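import Pool.Agent.Lib.MP_a1e562_co.IH.Stm

/-! Piece IH GD: a central element of order 3 of an invariant Sylow 3-subgroup. -/

set_option autoImplicit false

namespace Pool.Agent.TP3

open MulAction

private theorem GD_orbit {Γ X : Type} [Group Γ] [MulAction Γ X] (K : Subgroup Γ) (x : X) :
    Nat.card (orbit K x) = (stabilizer Γ x).relIndex K := by
  rw [Nat.card_congr (orbitEquivQuotientStabilizer K x)]
  rfl

theorem s_IHGD : S_IHGD := by
  intro hS hO X V _ _ _ χ T hχ hT G ι o hG hTG hι2 hιχ hιo hιG hne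
  have h3 : Fact (Nat.Prime 3) := ⟨by norm_num⟩
  have hodd : Odd (Nat.card G) := hO X χ hχ G hG
  have hιι : ∀ g : Equiv.Perm X, ι * (ι * g * ι) * ι = g := by
    intro g
    calc ι * (ι * g * ι) * ι = (ι * ι) * g * (ι * ι) := by group
      _ = g := by rw [hι2, one_mul, mul_one]
  -- the automorphism
  let t : G ≃* G :=
    { toFun := fun g => ⟨ι * g * ι, hιG g g.2⟩
      invFun := fun g => ⟨ι * g * ι, hιG g g.2⟩
      left_inv := fun g => Subtype.ext (hιι g)
      right_inv := fun g => Subtype.ext (hιι g)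
      map_mul' := fun g h => by
        apply Subtype.ext
        show ι * (g.val * h.val) * ι = (ι * g.val * ι) * (ι * h.val * ι)
        calc ι * (g.val * h.val) * ι = ι * g.val * 1 * h.val * ι := by group
          _ = ι * g.val * (ι * ι) * h.val * ι := by rw [hι2]
          _ = _ := by group }
  have htv : ∀ g : G, (t g : Equiv.Perm X) = ι * g * ι := fun g => rfl
  have htt : ∀ g, t (t g) = g := fun g => Subtype.ext (hιι g)
  obtain ⟨P, hP3, hidx, ht⟩ := hS G ⊥ t 3 h3.out bot_le (by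
    intro g hg
    rw [Subgroup.mem_bot] at hg ⊢
    have h1 : orderOf g ∣ 2 := orderOf_dvd_of_pow_eq_one (by rw [pow_two]; exact hg)
    have h2 : orderOf g ∣ Nat.card G := orderOf_dvd_natCard g
    have h4 : orderOf g = 1 := by
      rcases (Nat.dvd_prime Nat.prime_two).1 h1 with h | h
      · exact h
      · exfalso
        rw [h] at h2
        exact (Nat.not_even_iff_odd.2 hodd) (even_iff_two_dvd.2 h2)
    exact orderOf_eq_one_iff.1 h4) htt
  -- the number of the points
  have hcX : ∃ n, Nat.card X = 3 ^ n := by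
    have h1 : IsPGroup 3 (Multiplicative V) := by
      intro g
      refine ⟨1, ?_⟩
      apply Multiplicative.toAdd.injective
      have := hT.exp (Multiplicative.toAdd g)
      rw [toAdd_pow, toAdd_one, pow_one, ← this]
      abel
    obtain ⟨n, hn⟩ := IsPGroup.iff_card.1 h1
    refine ⟨n, ?_⟩
    rw [← hn]
    have hbij : Function.Bijective (fun v : V => T v o) :=
      ⟨fun v w h => hT.inj h, fun a => hT.reg o a⟩
    exact (Nat.card_eq_of_bijective _ hbij).symm
  obtain ⟨n, hn⟩ := hcX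
  set S : Subgroup G := stabilizer G o with hSdef
  have hSidx : S.index = 3 ^ n := by
    have h1 := GD_orbit (⊤ : Subgroup G) o
    rw [Subgroup.relIndex_top_right] at h1
    rw [← h1, ← hn]
    have h2 : (orbit (⊤ : Subgroup G) o) = Set.univ := by
      ext x
      simp only [Set.mem_univ, iff_true]
      obtain ⟨v, hv⟩ := hT.reg o x
      exact ⟨⟨⟨T v, hTG v⟩, Subgroup.mem_top _⟩, hv⟩
    rw [h2]
    exact Nat.card_congr (Equiv.Set.univ X)
  have hrel := Subgroup.relIndex_mul_index (inf_le_left : P ⊓ S ≤ P)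
  have hrel' := Subgroup.relIndex_mul_index (inf_le_right : P ⊓ S ≤ S)
  have hPo : Nat.card (orbit P o) = (P ⊓ S).relIndex P := by
    rw [GD_orbit, Subgroup.inf_relIndex_left]
  have hle : Nat.card (orbit P o) ≤ 3 ^ n := by
    rw [← hn]
    exact Nat.card_le_card_of_injective _ Subtype.val_injective
  have hpos : 0 < Nat.card (orbit P o) := by
    have : Nonempty (orbit P o) := ⟨⟨o, mem_orbit_self o⟩⟩
    exact Nat.card_pos
  have hdvd : 3 ^ n ∣ Nat.card (orbit P o) := by
    have h1 : 3 ^ n ∣ (P ⊓ S).relIndex P * P.index := by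
      rw [hrel, ← hrel', hSidx]
      exact dvd_mul_left _ _
    have h2 : Nat.Coprime (3 ^ n) P.index :=
      Nat.Coprime.pow_left _ ((Nat.Prime.coprime_iff_not_dvd h3.out).2 hidx)
    rw [hPo]
    exact h2.dvd_of_dvd_mul_right h1
  have hPeq : Nat.card (orbit P o) = 3 ^ n := le_antisymm hle (Nat.le_of_dvd hpos hdvd)
  have hPS : (P ⊓ S).relIndex S = P.index := by
    rw [← hPo, hPeq] at hrel
    rw [hSidx, ← hrel, mul_comm] at hrel'
    exact Nat.eq_of_mul_eq_mul_left (by positivity) hrel'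
  -- transitivity
  have htr : ∀ x : X, ∃ p ∈ P, (p : Equiv.Perm X) o = x := by
    intro x
    have h1 : (orbit P o) = Set.univ := by
      refine Set.eq_of_subset_of_ncard_le (Set.subset_univ _) ?_ Set.finite_univ
      rw [Set.ncard_univ, hn, ← Nat.card_coe_set_eq, hPeq]
    have h2 : x ∈ orbit P o := by rw [h1]; exact Set.mem_univ x
    obtain ⟨p, hp⟩ := h2
    exact ⟨p.1, p.2, hp⟩
  -- central elements which fix o are trivial
  have hcen : ∀ c : G, (∀ p ∈ P, c * p = p * c) → (c : Equiv.Perm X) o = o → c = 1 := by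
    intro c hc hco
    apply Subtype.ext
    ext x
    obtain ⟨p, hp, hpx⟩ := htr x
    have h1 := congrArg (fun g : G => (g : Equiv.Perm X) o) (hc p hp)
    simp only [Subgroup.coe_mul, Equiv.Perm.mul_apply] at h1
    rw [hpx, hco, hpx] at h1
    rw [h1]
    rfl
  have hfix : ∀ x : X, ι x = x → x = o := by
    intro x hx
    by_contra hxo
    have h1 := hιχ x o
    rw [hx, hιo] at h1
    rcases hχ.val x o hxo with h | h <;> rw [h] at h1 <;> norm_num at h1
  have hcen2 : ∀ c : G, (∀ p ∈ P, c * p = p * c) → t c = c → c = 1 := by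
    intro c hc htc
    refine hcen c hc (hfix _ ?_)
    have h1 := congrArg (fun g : G => (g : Equiv.Perm X) o) htc
    simp only [htv, Equiv.Perm.mul_apply] at h1
    rw [hιo] at h1
    exact h1
  -- the element of order three
  obtain ⟨a, ha⟩ := hne
  obtain ⟨p, hp, hpa⟩ := htr a
  have : Nontrivial P := ⟨⟨p, hp⟩, 1, fun h => by
    have h1 : (p : Equiv.Perm X) = 1 := congrArg (fun g : P => ((g : G) : Equiv.Perm X)) h
    rw [h1] at hpa
    exact ha hpa.symm⟩
  have : Nontrivial (Subgroup.center P) := hP3.center_nontrivial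
  have hcard3 : 3 ∣ Nat.card (Subgroup.center P) := by
    obtain ⟨k, hk⟩ := IsPGroup.iff_card.1 (hP3.to_subgroup (Subgroup.center P))
    rcases Nat.eq_zero_or_pos k with h | h
    · exfalso
      rw [h, pow_zero] at hk
      have := Finite.one_lt_card (α := Subgroup.center P)
      omega
    · rw [hk]
      exact dvd_pow_self 3 h.ne'
  obtain ⟨z, hz⟩ := exists_prime_orderOf_dvd_card' 3 hcard3
  set ζ : G := ((z : P) : G) with hζ
  have hζP : ζ ∈ P := (z : P).2
  have hζc : ∀ p ∈ P, ζ * p = p * ζ := by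
    intro p hp
    have h1 := Subgroup.mem_center_iff.1 z.2 ⟨p, hp⟩
    exact (congrArg Subtype.val h1).symm
  have hz3 : z ^ 3 = 1 := by rw [← hz]; exact pow_orderOf_eq_one z
  have hζ3 : ζ * ζ * ζ = 1 := by
    have h1 := congrArg (fun g : Subgroup.center P => ((g : P) : G)) hz3
    have h2 : ζ ^ 3 = 1 := h1
    rw [← h2, pow_succ, pow_two]
  have hζ1 : ζ ≠ 1 := by
    intro h
    have h1 : z = 1 := Subtype.ext (Subtype.ext h)
    rw [h1, orderOf_one] at hz
    norm_num at hz
  have hζo : (ζ : Equiv.Perm X) o ≠ o := fun h => hζ1 (hcen ζ hζc h)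
  have htc : ∀ p ∈ P, t ζ * p = p * t ζ := by
    intro p hp
    have h1 := congrArg t (hζc (t p) (ht p hp))
    rw [map_mul, map_mul, htt] at h1
    exact h1
  have hinv : t ζ = ζ⁻¹ := by
    have h1 : ζ * t ζ = 1 := by
      refine hcen2 _ (fun p hp => ?_) ?_
      · rw [mul_assoc, htc p hp, ← mul_assoc, hζc p hp, mul_assoc]
      · rw [map_mul, htt]
        exact (hζc _ (ht _ hζP)).symm
    exact eq_inv_of_mul_eq_one_right h1
  refine ⟨ζ, ζ.2, congrArg Subtype.val hζ3, hζo, congrArg Subtype.val hinv, ?_⟩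
  -- the orbit
  set H : Subgroup G := (G2 G o ((ζ : Equiv.Perm X) o)).subgroupOf G with hH
  have hmemH : ∀ g : G, g ∈ H ↔ (g : Equiv.Perm X) o = o ∧
      (g : Equiv.Perm X) ((ζ : Equiv.Perm X) o) = (ζ : Equiv.Perm X) o := by
    intro g
    rw [hH, Subgroup.mem_subgroupOf, mem_G2]
    exact ⟨fun h => h.2, fun h => ⟨g.2, h⟩⟩
  set y : X := (ζ : Equiv.Perm X)⁻¹ o with hy
  have horb : Nat.card (orbit (G2 G o ((ζ : Equiv.Perm X) o)) y) = Nat.card (orbit H y) := by
    have : orbit (G2 G o ((ζ : Equiv.Perm X) o)) y = orbit H y := by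
      ext x
      constructor
      · rintro ⟨g, hg⟩
        exact ⟨⟨⟨g.1, (mem_G2.1 g.2).1⟩, (hmemH _).2 (mem_G2.1 g.2).2⟩, hg⟩
      · rintro ⟨g, hg⟩
        exact ⟨⟨g.1.1, mem_G2.2 ⟨g.1.2, (hmemH _).1 g.2⟩⟩, hg⟩
    rw [this]
  rw [horb, GD_orbit, ← Subgroup.inf_relIndex_left]
  have hle1 : P ⊓ S ≤ H ⊓ stabilizer G y := by
    rintro g ⟨hgP, hgS⟩
    have h1 : (g : Equiv.Perm X) o = o := hgS
    have h2 := hζc g hgP
    have h3 : (ζ : Equiv.Perm X) * g = g * ζ := congrArg Subtype.val h2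
    refine ⟨(hmemH g).2 ⟨h1, ?_⟩, ?_⟩
    · rw [← Equiv.Perm.mul_apply, ← h3, Equiv.Perm.mul_apply, h1]
    · show (g : Equiv.Perm X) y = y
      have h4 : (g : Equiv.Perm X) * (ζ : Equiv.Perm X)⁻¹ = (ζ : Equiv.Perm X)⁻¹ * g := by
        rw [mul_inv_eq_iff_eq_mul, mul_assoc, ← h3, ← mul_assoc, inv_mul_cancel, one_mul]
      rw [hy, ← Equiv.Perm.mul_apply, h4, Equiv.Perm.mul_apply, h1]
  have hle2 : H ≤ S := fun g hg => ((hmemH g).1 hg).1
  have hmul1 := Subgroup.relIndex_mul_relIndex (P ⊓ S) (H ⊓ stabilizer G y) S hle1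
    (inf_le_left.trans hle2)
  have hmul2 := Subgroup.relIndex_mul_relIndex (H ⊓ stabilizer G y) H S inf_le_left hle2
  intro h
  apply hidx
  rw [← hPS, ← hmul1, ← hmul2]
  exact Dvd.dvd.mul_left (Dvd.dvd.mul_right h _) _

end Pool.Agent.TP3
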