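import Pool.Agent.Lib.MP_a1e562_co.IH.Stm

/-! Piece GE: the two point stabiliser fixes the third point. -/

set_option autoImplicit false

namespace Pool.Agent.TP3

private theorem IHGE_odd {X V : Type} [Fintype X] [AddCommGroup V] [Finite V]
    {T : V → Equiv.Perm X} (h : RegAct X V T) (o : X) : Odd (Fintype.card X) := by
  classical
  haveI := Fintype.ofFinite V
  have hb : Function.Bijective (fun v : V => T v o) :=
    ⟨fun v w hvw => h.inj hvw, fun a => h.reg o a⟩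
  rw [← Fintype.card_of_bijective hb]
  by_contra hodd
  rw [Nat.not_odd_iff_even] at hodd
  haveI : Fact (Nat.Prime 2) := ⟨Nat.prime_two⟩
  obtain ⟨x, hx⟩ := exists_prime_addOrderOf_dvd_card (G := V) 2 hodd.two_dvd
  have h2 : (2 : ℕ) • x = 0 := by
    rw [← hx]
    exact addOrderOf_nsmul_eq_zero x
  rw [two_nsmul] at h2
  have h3 := h.exp x
  rw [h2, zero_add] at h3
  rw [h3, addOrderOf_zero] at hx
  exact absurd hx (by norm_num)

theorem s_IHGE : S_IHGE := by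
  intro hS hO hA hB hC hD X V _ _ _ χ T hTo hR G ι o hG hTG hι2 hια hιo hιG hιT hex
  obtain ⟨ζ, hζG, hζ3, hζo, hιζ, h3⟩ := hD hS hO X V χ T hTo hR G ι o hG hTG hι2 hια hιo hιG hex
  refine ⟨ζ, hζG, hζ3, hζo, hιζ, ?_⟩
  haveI := Fintype.ofFinite X
  set N := ζ⁻¹ o with hN
  obtain ⟨v, hv⟩ := hR.reg o N
  have hιinv : ι⁻¹ = ι := inv_eq_of_mul_eq_one_left hι2
  set τ : Equiv.Perm X := T v * ι * (T v)⁻¹ with hτ
  have hτ2 : τ * τ = 1 := by
    rw [hτ]
    calc T v * ι * (T v)⁻¹ * (T v * ι * (T v)⁻¹) = T v * (ι * ι) * (T v)⁻¹ := by group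
      _ = 1 := by rw [hι2]; group
  have hτα : ∀ a b, χ (τ a) (τ b) = -χ a b := by
    intro a b
    have h1 : χ (τ a) (τ b) = χ (ι ((T v)⁻¹ a)) (ι ((T v)⁻¹ b)) := hG (T v) (hTG v) _ _
    rw [h1, hια, hG _ (G.inv_mem (hTG v))]
  have hτN : τ N = N := by
    rw [← hv, hτ]
    show T v (ι ((T v)⁻¹ (T v o))) = T v o
    have e : (T v)⁻¹ (T v o) = o := by simp
    rw [e, hιo]
  have hιTv : ∀ w : V, ι * T w = T (-w) * ι := by
    intro w
    rw [← hιT w, mul_assoc, hι2, mul_one]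
  have hτe : τ = T (-v) * ι := by
    rw [hτ, ← hR.neg, mul_assoc, hιTv, neg_neg, ← mul_assoc, ← hR.add, hR.two]
  have hτo : τ o = T (-v) o := by
    rw [hτe, Equiv.Perm.mul_apply, hιo]
  have hζo2 : ζ o = T (-v) o := by
    have h1 : ζ = ι * ζ⁻¹ * ι := by
      have h2 : (ι * ζ * ι)⁻¹ = (ζ⁻¹)⁻¹ := by rw [hιζ]
      rw [mul_inv_rev, mul_inv_rev, inv_inv, hιinv] at h2
      rw [mul_assoc]
      exact h2.symm
    calc ζ o = (ι * ζ⁻¹ * ι) o := by rw [← h1]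
      _ = ι (ζ⁻¹ (ι o)) := rfl
      _ = ι (T v o) := by rw [hιo, hv]
      _ = (ι * T v) o := rfl
      _ = (T (-v) * ι) o := by rw [hιTv]
      _ = T (-v) o := by rw [Equiv.Perm.mul_apply, hιo]
  have h1 : τ o = ζ o := by rw [hτo, hζo2]
  have h2 : τ (ζ o) = o := by
    rw [← h1, ← Equiv.Perm.mul_apply, hτ2, Equiv.Perm.one_apply]
  have hτG : ∀ g ∈ G2 G o (ζ o), τ * g * τ ∈ G2 G o (ζ o) := by
    rintro g ⟨hg, hgo, hgz⟩
    refine ⟨?_, ?_, ?_⟩
    · have e : τ * g * τ = T v * (ι * ((T v)⁻¹ * g * T v) * ι) * (T v)⁻¹ := by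
        rw [hτ]
        group
      rw [e]
      exact G.mul_mem (G.mul_mem (hTG v) (hιG _ (G.mul_mem (G.mul_mem (G.inv_mem (hTG v)) hg)
        (hTG v)))) (G.inv_mem (hTG v))
    · show τ (g (τ o)) = o
      rw [h1, hgz, h2]
    · show τ (g (τ (ζ o))) = ζ o
      rw [h2, hgo, h1]
  have hcop : ∀ g ∈ G2 G o (ζ o), Nat.Coprime (orderOf g) 3 → τ * g * τ = g⁻¹ → g N = N := by
    rintro g ⟨hg, hgo, hgz⟩ hc he
    exact hB X χ hTo (IHGE_odd hR o) τ g N hτ2 hτα hτN (hG g hg)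
      (hA X V χ T hTo hR (fun w => hG (T w) (hTG w)) g (hG g hg) hc) he
  have hcard : Nat.card (MulAction.orbit (G2 G o (ζ o)) N) = 1 := by
    by_contra hne
    obtain ⟨s, hs, hsd⟩ := Nat.exists_prime_and_dvd hne
    by_cases hs3 : s = 3
    · subst hs3
      exact h3 hsd
    · exact hC hS hO X χ hTo (G2 G o (ζ o)) τ N s (fun g hg => hG g hg.1) hτ2 hτα hτN hτG hcop
        hs hs3 hsd
  intro g hg hgo hgz
  rw [Nat.card_eq_one_iff_unique] at hcard
  obtain ⟨hsub, -⟩ := hcard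
  let g' : G2 G o (ζ o) := ⟨g, hg, hgo, hgz⟩
  have h4 : (⟨g' • N, MulAction.mem_orbit N g'⟩ : MulAction.orbit (G2 G o (ζ o)) N) =
      ⟨N, MulAction.mem_orbit_self N⟩ := Subsingleton.elim _ _
  exact congrArg Subtype.val h4

end Pool.Agent.TP3
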