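import Pool.Agent.Lib.MP_a1e562_co.IH.Stm

/-!
# MP_a1e562_co, project IH: piece GF (the third point function)
-/

set_option autoImplicit false

namespace Pool.Agent.TP3

open Configuration Polynomial

private theorem gf_ai {X : Type} (k : Equiv.Perm X) (x : X) : k (k⁻¹ x) = x := by
  rw [← Equiv.Perm.mul_apply, mul_inv_cancel, Equiv.Perm.one_apply]

private theorem gf_ia {X : Type} (k : Equiv.Perm X) (x : X) : k⁻¹ (k x) = x := by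
  rw [← Equiv.Perm.mul_apply, inv_mul_cancel, Equiv.Perm.one_apply]

theorem s_IHGF : S_IHGF := by
  classical
  intro X G Sg ι ζ o hιι hι hS htr0 hζ hζ3 hζo hinv hE htr hrig
  let H : Set (Equiv.Perm X) := {h | ∃ g ∈ G, ∃ σ ∈ Sg, h = g * σ}
  have hmul : ∀ h ∈ H, ∀ k ∈ H, h * k ∈ H := by
    rintro _ ⟨g, hg, σ, hσ, rfl⟩ _ ⟨g', hg', σ', hσ', rfl⟩
    refine ⟨g * (σ * g' * σ⁻¹), G.mul_mem hg ((hS σ hσ).2 g' hg'), σ * σ', Sg.mul_mem hσ hσ', ?_⟩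
    group
  have hinvH : ∀ h ∈ H, h⁻¹ ∈ H := by
    rintro _ ⟨g, hg, σ, hσ, rfl⟩
    refine ⟨σ⁻¹ * g⁻¹ * (σ⁻¹)⁻¹, (hS σ⁻¹ (Sg.inv_mem hσ)).2 g⁻¹ (G.inv_mem hg), σ⁻¹,
      Sg.inv_mem hσ, ?_⟩
    group
  have hGH : ∀ g ∈ G, g ∈ H := fun g hg => ⟨g, hg, 1, Sg.one_mem, (mul_one g).symm⟩
  have hSH : ∀ σ ∈ Sg, σ ∈ H := fun σ hσ => ⟨1, G.one_mem, σ, hσ, (one_mul σ).symm⟩
  -- (i)
  have h1 : ∀ h ∈ H, h o = o → h (ζ o) = ζ o → h (ζ⁻¹ o) = ζ⁻¹ o := by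
    rintro h ⟨g, hg, σ, hσ, hh⟩ h2 h3
    rw [hh, Equiv.Perm.mul_apply, (hS σ hσ).1] at h2
    rw [hh, Equiv.Perm.mul_apply] at h3
    have h4 : σ ∈ G := hrig σ hσ g hg h2 h3
    have h5 : h ∈ G := by rw [hh]; exact G.mul_mem hg h4
    refine hE h h5 ?_ ?_
    · rw [hh, Equiv.Perm.mul_apply, (hS σ hσ).1, h2]
    · rw [hh, Equiv.Perm.mul_apply, h3]
  -- (ii)
  have h2 : ∀ a b : X, a ≠ b → ∃ h : Equiv.Perm X, h ∈ H ∧ h o = a ∧ h (ζ o) = b := by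
    intro a b hab
    obtain ⟨k, hk, hka⟩ := htr0 a
    have hkb : k⁻¹ b ≠ o := by
      intro h
      apply hab
      rw [← hka, ← h, gf_ai]
    obtain ⟨σ, hσ, g, hg, hgo, hgb⟩ := htr (k⁻¹ b) hkb
    refine ⟨k * g * σ, ⟨k * g, G.mul_mem hk hg, σ, hσ, rfl⟩, ?_, ?_⟩
    · rw [Equiv.Perm.mul_apply, (hS σ hσ).1, Equiv.Perm.mul_apply, hgo, hka]
    · rw [Equiv.Perm.mul_apply, Equiv.Perm.mul_apply, hgb, gf_ai]
  choose f hfH hfo hfz using h2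
  let m : X → X → X := fun a b => if h : a ≠ b then f a b h (ζ⁻¹ o) else a
  -- (iii)
  have h3 : ∀ h ∈ H, ∀ a b : X, a ≠ b → h o = a → h (ζ o) = b → m a b = h (ζ⁻¹ o) := by
    intro h hh a b hab ha hb
    have e : m a b = f a b hab (ζ⁻¹ o) := dif_pos hab
    rw [e]
    have h4 := h1 (h⁻¹ * f a b hab) (hmul _ (hinvH h hh) _ (hfH a b hab)) (by
      rw [Equiv.Perm.mul_apply, hfo, ← ha, gf_ia]) (by
      rw [Equiv.Perm.mul_apply, hfz, ← hb, gf_ia])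
    rw [Equiv.Perm.mul_apply] at h4
    have h5 := congrArg (fun x => h x) h4
    rw [gf_ai] at h5
    exact h5
  -- (iv)
  have h4 : ∀ k ∈ H, ∀ a b : X, a ≠ b → m (k a) (k b) = k (m a b) := by
    intro k hk a b hab
    have e : m a b = f a b hab (ζ⁻¹ o) := dif_pos hab
    rw [e, h3 (k * f a b hab) (hmul _ hk _ (hfH a b hab)) (k a) (k b)
      (fun h => hab (k.injective h)) (by rw [Equiv.Perm.mul_apply, hfo])
      (by rw [Equiv.Perm.mul_apply, hfz]), Equiv.Perm.mul_apply]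
  refine ⟨m, fun g hg a b hab => h4 g (hGH g hg) a b hab,
    fun a b hab => h4 ι (hSH ι hι) a b hab, ?_⟩
  -- (v)
  intro a b hab
  have hιo : ι o = o := (hS ι hι).1
  have e : m a b = f a b hab (ζ⁻¹ o) := dif_pos hab
  have hζι : ∀ x : X, ζ (ι (ζ x)) = ι x := by
    intro x
    have h5 : ι (ζ (ι (ι x))) = ζ⁻¹ (ι x) := by
      have := congrArg (fun p : Equiv.Perm X => p (ι x)) hinv
      simpa [Equiv.Perm.mul_apply] using this
    have h6 : ι (ι x) = x := by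
      have := congrArg (fun p : Equiv.Perm X => p x) hιι
      simpa [Equiv.Perm.mul_apply] using this
    rw [h6] at h5
    rw [h5, gf_ai]
  have hz2 : ζ (ζ o) = ζ⁻¹ o := by
    have h5 : ζ (ζ (ζ o)) = o := by
      have := congrArg (fun p : Equiv.Perm X => p o) hζ3
      simpa [Equiv.Perm.mul_apply] using this
    rw [Equiv.Perm.eq_inv_iff_eq, h5]
  have h7 : ζ (ι (ζ⁻¹ o)) = ζ⁻¹ o := by
    have h8 := hζι (ζ⁻¹ (ζ⁻¹ o))
    rw [gf_ai] at h8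
    rw [h8]
    have h9 : ζ⁻¹ (ζ⁻¹ o) = ζ o := by
      rw [← hz2, gf_ia]
    rw [h9]
    have h10 := hζι o
    rw [hιo] at h10
    rw [Equiv.Perm.eq_inv_iff_eq, h10]
  rw [e, h3 (f a b hab * ζ * ι) (hmul _ (hmul _ (hfH a b hab) _ (hGH ζ hζ)) _ (hSH ι hι)) b a
    hab.symm (by rw [Equiv.Perm.mul_apply, hιo, Equiv.Perm.mul_apply, hfz])
    (by rw [Equiv.Perm.mul_apply, Equiv.Perm.mul_apply, hζι, hιo, hfo])]
  rw [Equiv.Perm.mul_apply, Equiv.Perm.mul_apply, h7]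

end Pool.Agent.TP3
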