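import Pool.Agent.Lib.MP_a1e562_co.IH.Stm

/-!
# MP_a1e562_co, project IH, piece GO: automorphism groups of tournaments have odd order
-/

set_option autoImplicit false

namespace Pool.Agent.TP3

theorem s_IHGO : S_IHGO := by
  intro X _ χ hT G hG
  by_contra hodd
  rw [Nat.not_odd_iff_even] at hodd
  have : Fact (Nat.Prime 2) := ⟨Nat.prime_two⟩
  obtain ⟨g, hg⟩ := exists_prime_orderOf_dvd_card' (G := G) 2 hodd.two_dvd
  have hg1 : g ≠ 1 := by
    rintro rfl
    rw [orderOf_one] at hg
    norm_num at hg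
  have hg2 : g * g = 1 := by
    rw [← pow_two, ← hg]
    exact pow_orderOf_eq_one g
  have hne : (g : Equiv.Perm X) ≠ 1 := fun h => hg1 (Subtype.ext h)
  obtain ⟨a, ha⟩ : ∃ a, (g : Equiv.Perm X) a ≠ a := by
    by_contra hc
    push Not at hc
    exact hne (Equiv.ext hc)
  have hgg : (g : Equiv.Perm X) ((g : Equiv.Perm X) a) = a := by
    have h1 : ((g * g : G) : Equiv.Perm X) a = a := by rw [hg2]; rfl
    exact h1
  have h1 := hG g g.2 a ((g : Equiv.Perm X) a)
  rw [hgg] at h1
  have h2 := hT.anti a ((g : Equiv.Perm X) a)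
  have h3 := hT.val a ((g : Equiv.Perm X) a) (Ne.symm ha)
  have h4 := hT.anti ((g : Equiv.Perm X) a) a
  rcases h3 with h3 | h3 <;> omega

end Pool.Agent.TP3
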