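import Pool.Agent.Lib.MP_a1e562_co.IH.Stm

/-!
# MP_a1e562_co, piece IH GT: the third point in the coordinates of a regular action
-/

set_option autoImplicit false

namespace Pool.Agent.TP3

theorem s_IHGT : S_IHGT := by
  intro X V _ T h ι o m hιo hιT hιι hmT hmι hsym
  have hcomp : ∀ (v w : V) (x : X), T v (T w x) = T (v + w) x := by
    intro v w x
    rw [h.add, Equiv.Perm.mul_apply]
  have hι : ∀ v : V, ι (T v o) = T (-v) o := by
    intro v
    have h1 := congrArg (fun e : Equiv.Perm X => e o) (hιT v)
    simp only [Equiv.Perm.mul_apply, hιo] at h1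
    exact h1
  have hne : ∀ w : V, w ≠ 0 → o ≠ T w o := fun w hw he => hw (h.free w o he.symm)
  have h0 : ∀ w : V, w ≠ 0 → m o (T w o) = T (-w) o := by
    intro w hw
    obtain ⟨w', hw'⟩ := h.reg o (m o (T w o))
    have h1 : m (T w o) o = T w' o := by
      rw [← hsym o (T w o) (hne w hw), hw']
    have h2 : m o (T (-w) o) = T (-w + w') o := by
      have := hmT (-w) (T w o) o (hne w hw).symm
      rw [h1, hcomp, hcomp, neg_add_cancel, h.zero, Equiv.Perm.one_apply] at this
      exact this
    have h3 : m o (T w o) = T (w + -w') o := by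
      have h4 := hmι o (T (-w) o) (hne (-w) (neg_ne_zero.2 hw))
      rw [hιo, hι, neg_neg, h2, hι] at h4
      rw [h4]
      congr 2
      abel
    rw [← hw'] at h3
    have h5 : w' = w + -w' := h.inj h3
    have h6 : w' + w' = w := by
      nth_rewrite 1 [h5]
      abel
    rw [h.two] at h6
    rw [← hw', ← h6, neg_neg]
  intro a w hw
  obtain ⟨u, rfl⟩ := h.reg o a
  have h1 : T w (T u o) = T u (T w o) := by
    rw [hcomp, hcomp, add_comm]
  rw [h1, hmT u o (T w o) (hne w hw), h0 w hw, hcomp, hcomp, add_comm]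

end Pool.Agent.TP3
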