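import Pool.Agent.Lib.MP_a1e562_co.IH.Stm2

/-!
# MP_a1e562_co, IH: piece K2 (coordinates over `ZMod 3` with `0, 1` in the spread set)

The fields `zero` and `one` of the given coordinates are not used.
-/

set_option autoImplicit false

namespace Pool.Agent.TP3

open Configuration Polynomial

theorem s_IHK2 : S_IHK2 := by
  intro P L V _ _ _ _ C hV hneg hexp
  obtain ⟨x₀, hx₀⟩ := hV
  -- the zero map
  have hzero : (0 : V →+ V) ∈ C.S := by
    obtain ⟨M, hM, hMx⟩ := C.ex x₀ hx₀ 0
    have h1 : -M = M := by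
      refine C.uq (-M) (hneg M hM) M hM x₀ hx₀ ?_
      rw [AddMonoidHom.neg_apply, hMx, neg_zero]
    have h2 : M = 0 := by
      ext v
      have h3 : -(M v) = M v := by
        rw [← AddMonoidHom.neg_apply, h1]
      have h4 := hexp (M v)
      have h5 : M v + M v = 0 := by
        nth_rewrite 1 [← h3]
        rw [neg_add_cancel]
      rw [h5, zero_add] at h4
      rw [h4, AddMonoidHom.zero_apply]
    rw [← h2]
    exact hM
  obtain ⟨B, hB, hBx⟩ := C.ex x₀ hx₀ x₀
  have hBinj : Function.Injective B := by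
    rw [injective_iff_map_eq_zero]
    intro v hv
    by_contra hne
    have h1 : B = 0 := C.uq B hB 0 hzero v hne (by rw [hv, AddMonoidHom.zero_apply])
    rw [h1, AddMonoidHom.zero_apply] at hBx
    exact hx₀ hBx.symm
  have hBsurj : Function.Surjective B := Finite.surjective_of_injective hBinj
  let E : V ≃+ V := AddEquiv.ofBijective B ⟨hBinj, hBsurj⟩
  have hE : ∀ v, B (E.symm v) = v := fun v => E.apply_symm_apply v
  letI mod3 : Module (ZMod 3) V := AddCommGroup.zmodModule (n := 3) (fun v => by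
    rw [show (3 : ℕ) = 2 + 1 from rfl, succ_nsmul, two_nsmul]
    exact hexp v)
  -- every additive map is `B ∘ N`
  have hN : ∀ M : V →+ V, ∃ N : Module.End (ZMod 3) V, B.comp N.toAddMonoidHom = M := by
    intro M
    refine ⟨AddMonoidHom.toZModLinearMap 3 (E.symm.toAddMonoidHom.comp M), ?_⟩
    ext v
    exact hE (M v)
  have hcomp : ∀ M N : Module.End (ZMod 3) V,
      B.comp M.toAddMonoidHom = B.comp N.toAddMonoidHom → M = N := by
    intro M N h
    refine LinearMap.ext fun v => hBinj ?_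
    exact DFunLike.congr_fun h v
  refine ⟨mod3, {
    S := {N | B.comp N.toAddMonoidHom ∈ C.S}
    inf := C.inf
    Z := C.Z
    pt := fun x y => C.pt x (B y)
    Zp := fun N => C.Zp (B.comp N.toAddMonoidHom)
    vt := C.vt
    ln := fun N b => C.ln (B.comp N.toAddMonoidHom) (B b)
    zero := ?_
    one := ?_
    ex := ?_
    uq := ?_
    pts := ?_
    lns := ?_
    pt_inf := fun x y => C.pt_inf x (B y)
    pt_vt := fun x y c => C.pt_vt x (B y) c
    pt_ln := ?_
    Zp_inf := fun N hN => C.Zp_inf _ hN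
    Zp_vt := fun N hN c => C.Zp_vt _ hN c
    Zp_ln := ?_
    Z_inf := C.Z_inf
    Z_vt := C.Z_vt
    Z_ln := fun N hN b => C.Z_ln _ hN (B b) }, ?_⟩
  · show B.comp (0 : Module.End (ZMod 3) V).toAddMonoidHom ∈ C.S
    have : B.comp (0 : Module.End (ZMod 3) V).toAddMonoidHom = 0 := by
      ext v
      show B 0 = 0
      exact map_zero B
    rw [this]
    exact hzero
  · show B.comp (1 : Module.End (ZMod 3) V).toAddMonoidHom ∈ C.S
    have : B.comp (1 : Module.End (ZMod 3) V).toAddMonoidHom = B := by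
      ext v
      rfl
    rw [this]
    exact hB
  · intro x hx y
    obtain ⟨M, hM, hMx⟩ := C.ex x hx (B y)
    obtain ⟨N, hNM⟩ := hN M
    refine ⟨N, ?_, ?_⟩
    · show B.comp N.toAddMonoidHom ∈ C.S
      rw [hNM]
      exact hM
    · apply hBinj
      rw [← hMx, ← hNM]
      rfl
  · intro M hM N hN' x hx h
    apply hcomp
    refine C.uq _ hM _ hN' x hx ?_
    show B (M x) = B (N x)
    rw [h]
  · intro q
    rcases C.pts q with ⟨x, y, hq⟩ | ⟨M, hM, hq⟩ | hq
    · obtain ⟨y', hy'⟩ := hBsurj y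
      refine Or.inl ⟨x, y', ?_⟩
      rw [hq, hy']
    · obtain ⟨N, hNM⟩ := hN M
      refine Or.inr (Or.inl ⟨N, ?_, ?_⟩)
      · show B.comp N.toAddMonoidHom ∈ C.S
        rw [hNM]
        exact hM
      · rw [hq, hNM]
    · exact Or.inr (Or.inr hq)
  · intro l
    rcases C.lns l with hl | ⟨c, hl⟩ | ⟨M, hM, b, hl⟩
    · exact Or.inl hl
    · exact Or.inr (Or.inl ⟨c, hl⟩)
    · obtain ⟨N, hNM⟩ := hN M
      obtain ⟨b', hb'⟩ := hBsurj b
      refine Or.inr (Or.inr ⟨N, ?_, b', ?_⟩)
      · show B.comp N.toAddMonoidHom ∈ C.S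
        rw [hNM]
        exact hM
      · rw [hl, hNM, hb']
  · intro N hN' b x y
    rw [C.pt_ln _ hN']
    show B y = B (N x) + B b ↔ y = N x + b
    rw [← map_add]
    exact hBinj.eq_iff
  · intro M hM N hN' b
    rw [C.Zp_ln _ hM _ hN']
    exact ⟨hcomp M N, fun h => by rw [h]⟩
  · intro N hN'
    show B.comp (-N).toAddMonoidHom ∈ C.S
    have : B.comp (-N).toAddMonoidHom = -(B.comp N.toAddMonoidHom) := by
      ext v
      show B (-(N v)) = -(B (N v))
      exact map_neg B _
    rw [this]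
    exact hneg _ hN'

end Pool.Agent.TP3
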