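import Pool.Agent.Lib.MP_a1e562_co.IH.Stm2

set_option autoImplicit false

namespace Pool.Agent.TP3

private theorem k5_inj {K U : Type} [Field K] [AddCommGroup U] [Module K U]
    {S : Set (Module.End K U)} (hS : SpreadSet K U S) {B : Module.End K U} (hB : B ∈ S)
    (hB0 : B ≠ 0) : Function.Injective B := by
  intro a b hab
  by_contra hne
  apply hB0
  apply hS.uq B hB 0 hS.zero (a - b) (sub_ne_zero.2 hne)
  rw [map_sub, hab, sub_self, LinearMap.zero_apply]

private theorem k5_inv {K U : Type} [Field K] [AddCommGroup U] [Module K U] [Finite U]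
    {S : Set (Module.End K U)} (hS : SpreadSet K U S) {B : Module.End K U} (hB : B ∈ S)
    (hB0 : B ≠ 0) : ∃ B' : Module.End K U, B * B' = 1 ∧ B' * B = 1 := by
  have hi := k5_inj hS hB hB0
  have hs : Function.Surjective B := Finite.surjective_of_injective hi
  let E : U ≃ₗ[K] U := LinearEquiv.ofBijective B ⟨hi, hs⟩
  have hE : ∀ v, E v = B v := fun _ => rfl
  refine ⟨E.symm.toLinearMap, ?_, ?_⟩
  · ext v
    show B (E.symm v) = v
    rw [← hE]
    simp
  · ext v
    show E.symm (B v) = v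
    rw [← hE]
    simp

theorem s_IHK5 : S_IHK5 := by
  intro K U _ _ _ _ S hS hA P hP Q hQ R hR a b c hP0 hQ0 hab hR1 hPc
  obtain ⟨P', hP1, hP2⟩ := k5_inv hS hP hP0
  obtain ⟨Q', hQ1, hQ2⟩ := k5_inv hS hQ hQ0
  have hPi := k5_inj hS hP hP0
  have hQi := k5_inj hS hQ hQ0
  by_cases ha : a = 0
  · rw [ha, map_zero] at hPc
    rw [ha, map_zero, add_zero]
    have hc : c = 0 := hPi (by rw [hPc, map_zero])
    rw [hc, map_zero]
  · have hw : P a ≠ 0 := by
      intro h0
      exact ha (hPi (by rw [h0, map_zero]))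
    have hR0 : R ≠ 0 := by
      rintro rfl
      rw [LinearMap.zero_apply] at hR1
      exact hw hR1.symm
    obtain ⟨R', hR2, hR3⟩ := k5_inv hS hR hR0
    have eP : ∀ v, P' (P v) = v := fun v => by
      rw [← Module.End.mul_apply, hP2, Module.End.one_apply]
    have eQ : ∀ v, Q' (Q v) = v := fun v => by
      rw [← Module.End.mul_apply, hQ2, Module.End.one_apply]
    have eR : ∀ v, R' (R v) = v := fun v => by
      rw [← Module.End.mul_apply, hR3, Module.End.one_apply]
    have eR2 : ∀ v, R (R' v) = v := fun v => by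
      rw [← Module.End.mul_apply, hR2, Module.End.one_apply]
    have key := hA P' (Or.inr ⟨P, hP, hP1, hP2⟩) Q' (Or.inr ⟨Q, hQ, hQ1, hQ2⟩)
      R' (Or.inr ⟨R, hR, hR2, hR3⟩) (P a) (Q a) hw (by rw [eP, eQ])
      (by
        have h1 : R' (P a) = a + b := by rw [← hR1, eR]
        have h2 : Q' (P a) = b := by rw [hab, eQ]
        rw [h1, h2, eP])
    have h3 : P' (Q a) = c := by rw [← hPc, eP]
    rw [h3, eQ] at key
    rw [← key, eR2]

end Pool.Agent.TP3
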