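import Pool.Agent.Lib.MP_a1e562_co.IH.Stm2

/-! Piece K6: an additive spread set gives a semifield plane. -/

set_option autoImplicit false

namespace Pool.Agent.TP3

open Configuration

theorem s_IHK6 : S_IHK6 := by
  classical
  rintro P L K U _ _ _ _ _ C ⟨e, he⟩ hadd
  choose m hmS hme using C.ex e he
  have hm_add : ∀ k l : U, m (k + l) = m k + m l := by
    intro k l
    apply C.uq _ (hmS _) _ (hadd _ (hmS k) _ (hmS l)) e he
    rw [hme, LinearMap.add_apply, hme, hme]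
  have hm_e : ∀ M ∈ C.S, m (M e) = M := by
    intro M hM
    exact C.uq _ (hmS _) _ hM e he (hme _)
  let mul : U →+ U →+ U := AddMonoidHom.mk'
    (fun x => AddMonoidHom.mk' (fun k => m k x) (by
      intro k l
      rw [hm_add, LinearMap.add_apply]))
    (by
      intro x y
      ext k
      show m k (x + y) = m k x + m k y
      rw [map_add])
  have hmul : ∀ x k : U, mul x k = m k x := fun _ _ => rfl
  let g : U × U → {x : P // x ∉ C.inf} := fun p => ⟨C.pt p.1 p.2, C.pt_inf _ _⟩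
  have hginj : Function.Injective g := by
    rintro ⟨x, y⟩ ⟨x', y'⟩ h
    have h1 : C.pt x y = C.pt x' y' := congrArg Subtype.val h
    have hx : x = x' := by
      have h2 := (C.pt_vt x' y' x').2 rfl
      rw [← h1, C.pt_vt] at h2
      exact h2
    have hy : y = y' := by
      have h2 : C.pt x' y' ∈ C.ln 0 y' := (C.pt_ln 0 C.zero y' x' y').2 (by simp)
      rw [← h1, C.pt_ln 0 C.zero] at h2
      simpa using h2
    rw [hx, hy]
  have hgsurj : Function.Surjective g := by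
    rintro ⟨p, hp⟩
    rcases C.pts p with ⟨x, y, rfl⟩ | ⟨M, hM, rfl⟩ | rfl
    · exact ⟨(x, y), rfl⟩
    · exact absurd (C.Zp_inf M hM) hp
    · exact absurd C.Z_inf hp
  let ψ : U × U ≃ {x : P // x ∉ C.inf} := Equiv.ofBijective g ⟨hginj, hgsurj⟩
  have hψ : ∀ p : {x : P // x ∉ C.inf}, ∃ x y : U, (p : P) = C.pt x y ∧ ψ.symm p = (x, y) := by
    intro p
    obtain ⟨⟨x, y⟩, rfl⟩ := hgsurj p
    exact ⟨x, y, rfl, ψ.symm_apply_apply (x, y)⟩
  have hvt : ∀ c : U, ∀ p : {x : P // x ∉ C.inf}, (p : P) ∈ C.vt c ↔ (ψ.symm p).1 = c := by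
    intro c p
    obtain ⟨x, y, h1, h2⟩ := hψ p
    rw [h1, h2, C.pt_vt]
  have hln : ∀ k b : U, ∀ p : {x : P // x ∉ C.inf},
      (p : P) ∈ C.ln (m k) b ↔ (ψ.symm p).2 = mul (ψ.symm p).1 k + b := by
    intro k b p
    obtain ⟨x, y, h1, h2⟩ := hψ p
    rw [h1, h2, C.pt_ln _ (hmS k), hmul]
  refine ⟨U, inferInstance, mul, C.inf, ψ.symm, ?_, ?_, ?_, ?_⟩
  · intro x k h
    rw [hmul] at h
    by_cases hx : x = 0
    · exact Or.inl hx
    · right
      have h1 : m k = 0 := C.uq _ (hmS k) _ C.zero x hx (by rw [h, LinearMap.zero_apply])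
      rw [← hme k, h1, LinearMap.zero_apply]
  · intro l hl
    rcases C.lns l with h | ⟨c, rfl⟩ | ⟨M, hM, b, rfl⟩
    · exact absurd h hl
    · exact Or.inl ⟨c, hvt c⟩
    · right
      refine ⟨M e, b, ?_⟩
      have h1 := hln (M e) b
      rw [hm_e M hM] at h1
      exact h1
  · intro c
    refine ⟨C.vt c, ?_, hvt c⟩
    intro h
    exact C.pt_inf c 0 (h ▸ (C.pt_vt c 0 c).2 rfl)
  · intro k b
    refine ⟨C.ln (m k) b, ?_, hln k b⟩
    intro h
    exact C.pt_inf 0 b (h ▸ (C.pt_ln _ (hmS k) b 0 b).2 (by simp))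

end Pool.Agent.TP3
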