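import Pool.Agent.Lib.MP_a1e562_co.IH.Stm2

/-!
# Piece [IH K7] of MP_a1e562_co
-/

set_option autoImplicit false

namespace Pool.Agent.TP3

open Configuration Polynomial

theorem s_IHK7 : S_IHK7 := by
  intro P L K U _ _ _ _ _ _ _ _ C
  have h1 := ProjectivePlane.pointCount_eq P (C.vt 0)
  unfold pointCount at h1
  have hne : ∀ x y : U, C.pt x y ≠ C.Z := fun x y h => C.pt_inf x y (h ▸ C.Z_inf)
  have h2 : Nat.card (Option U) = Nat.card {p : P // p ∈ C.vt 0} := by
    refine Nat.card_eq_of_bijective (fun o : Option U => (match o with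
      | none => ⟨C.Z, C.Z_vt 0⟩
      | some y => ⟨C.pt 0 y, (C.pt_vt 0 y 0).2 rfl⟩ : {p : P // p ∈ C.vt 0})) ⟨?_, ?_⟩
    · rintro (_ | y) (_ | y') h
      · rfl
      · exact absurd (congrArg Subtype.val h).symm (hne 0 y')
      · exact absurd (congrArg Subtype.val h) (hne 0 y)
      · have h3 : C.pt 0 y = C.pt 0 y' := congrArg Subtype.val h
        have h4 : C.pt 0 y ∈ C.ln 0 y := (C.pt_ln 0 C.zero y 0 y).2 (by simp)
        rw [h3, C.pt_ln 0 C.zero] at h4
        rw [LinearMap.zero_apply, zero_add] at h4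
        rw [h4]
    · rintro ⟨p, hp⟩
      rcases C.pts p with ⟨x, y, rfl⟩ | ⟨M, hM, rfl⟩ | rfl
      · rw [C.pt_vt] at hp
        subst hp
        exact ⟨some y, rfl⟩
      · exact absurd hp (C.Zp_vt M hM 0)
      · exact ⟨none, rfl⟩
  rw [← h2, Finite.card_option] at h1
  omega

end Pool.Agent.TP3
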