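import Pool.Agent.Lib.MP_a1e562_co.IH.Stm

set_option autoImplicit false

namespace Pool.Agent.TP3

open Polynomial

theorem s_IHL1 : S_IHL1 := by
  intro K V R _ _ _ _ _ _ S ev h hinj
  have zero : (0 : R) ∈ frm S ev := ⟨0, h.zero, fun g => by simp⟩
  refine ⟨zero, ?_, ?_, ?_⟩
  · rintro c f ⟨M, hM, hMf⟩
    exact ⟨c • M, h.smul c M hM, fun g => by
      rw [LinearMap.smul_apply, hMf, ← map_smul, smul_mul_assoc]⟩
  · rintro f ⟨M, hM, hMf⟩ g ⟨N, hN, hNg⟩ hfg
    have hinj2 : Function.Injective (fun k : R => (f - g) * k) := by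
      intro k l hkl
      by_contra hne
      have h0 : (f - g) * (k - l) = 0 := by
        have h3 : (f - g) * k = (f - g) * l := hkl
        rw [mul_sub, h3, sub_self]
      have hk0 : ev (k - l) ≠ 0 := fun hz => hne (sub_eq_zero.1 (hinj (by rw [hz, map_zero])))
      have hMN : M = N := by
        apply h.uq M hM N hN _ hk0
        rw [hMf, hNg]
        congr 1
        have h4 : f * (k - l) - g * (k - l) = 0 := by rw [← sub_mul]; exact h0
        exact sub_eq_zero.1 h4
      apply hfg
      apply hinj
      have e1 := hMf 1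
      have e2 := hNg 1
      rw [mul_one] at e1 e2
      rw [← e1, ← e2, hMN]
    obtain ⟨u, hu⟩ := Finite.surjective_of_injective hinj2 1
    exact IsUnit.of_mul_eq_one u hu
  · rintro g ⟨Q, hQ, hQg⟩ r _ ⟨P, hP, hPf⟩ hr
    by_cases h1 : ev 1 = 0
    · have h10 : (1 : R) = 0 := hinj (by rw [h1, map_zero])
      have h2 : r * g + g = 0 := by rw [← mul_one (r * g + g), h10, mul_zero]
      rw [h2]
      exact zero
    · obtain ⟨R0, hR0, hR01⟩ := h.ex (ev 1) h1 (ev (r * g + g))
      have step : ∀ k : R, R0 (ev k) = ev ((r * g + g) * k) →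
          R0 (ev (r * k)) = ev ((r * g + g) * (r * k)) := by
        intro k hk
        by_cases hk0 : ev k = 0
        · have h5 : k = 0 := hinj (by rw [hk0, map_zero])
          simp [h5]
        · have h6 := h.hexA P hP Q hQ R0 hR0 (ev k) (ev (r * k)) hk0
            (by rw [hPf, hQg]; congr 1; ring)
            (by rw [hk, hPf, hQg, ← map_add]; congr 1; ring)
          rw [h6, hPf, hQg, ← map_add]
          congr 1
          ring
      have pw : ∀ n : ℕ, R0 (ev (r ^ n)) = ev ((r * g + g) * r ^ n) := by
        intro n
        induction n with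
        | zero => rw [pow_zero, mul_one]; exact hR01
        | succ n ih =>
          rw [pow_succ']
          exact step _ ih
      refine ⟨R0, hR0, fun x => ?_⟩
      have hx : x ∈ Algebra.adjoin K {r} := by rw [hr]; trivial
      rw [Algebra.adjoin_singleton_eq_range_aeval] at hx
      obtain ⟨p, rfl⟩ := hx
      induction p using Polynomial.induction_on' with
      | add p q hp hq => rw [map_add, map_add, map_add, hp, hq, mul_add, map_add]
      | monomial n a =>
        have h7 : (aeval r) (monomial n a) = a • r ^ n := by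
          rw [aeval_monomial, Algebra.smul_def]
        erw [h7]
        rw [map_smul, map_smul, pw, mul_smul_comm, map_smul]

end Pool.Agent.TP3
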