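import Pool.Agent.Lib.MP_a1e562_co.IH.Stm

/-!
# MP_a1e562_co, [IH L2]: frames, `f² / g`
-/

set_option autoImplicit false

namespace Pool.Agent.TP3

open Configuration Polynomial

/-- a generator in a subalgebra with one generator -/
private theorem IHL2_top {K R : Type} [Field K] [CommRing R] [Algebra K R] {r s : R}
    (hr : Algebra.adjoin K {r} = ⊤) (h : r ∈ Algebra.adjoin K {s}) :
    Algebra.adjoin K {s} = ⊤ := by
  rw [← top_le_iff, ← hr]
  exact Algebra.adjoin_le (Set.singleton_subset_iff.2 h)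

/-- in a finite ring the inverse of an element is a power -/
private theorem IHL2_pow {R : Type} [CommRing R] [Finite R] {r t : R} (h : r * t = 1) :
    ∃ n : ℕ, r = t ^ n := by
  let w : Rˣ := ⟨t, r, by rw [mul_comm, h], h⟩
  obtain ⟨n, hn, hw⟩ := isOfFinOrder_iff_pow_eq_one.mp (isOfFinOrder_of_finite w)
  have h1 : t ^ n = 1 := by
    have := congrArg (Units.val) hw
    simpa [w] using this
  obtain ⟨m, rfl⟩ : ∃ m, n = m + 1 := ⟨n - 1, by omega⟩
  refine ⟨m, ?_⟩
  calc r = r * t ^ (m + 1) := by rw [h1, mul_one]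
    _ = (r * t) * t ^ m := by ring
    _ = t ^ m := by rw [h, one_mul]

theorem s_IHL2 : S_IHL2 := by
  intro K V R _ _ _ _ _ _ S ev hS hev hΦ g hg r hg0 hf hr
  -- units
  have hgu : IsUnit g := by
    have := hΦ.unit g hg 0 hΦ.zero hg0
    rwa [sub_zero] at this
  by_cases hf0 : r * g = 0
  · rw [hf0, mul_zero]
    exact hΦ.zero
  have hfu : IsUnit (r * g) := by
    have := hΦ.unit _ hf 0 hΦ.zero hf0
    rwa [sub_zero] at this
  obtain ⟨gi, hgi⟩ := hgu.exists_right_inv
  obtain ⟨fi, hfi⟩ := hfu.exists_right_inv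
  by_cases hfg : r * g = g
  · rw [hfg, hfg]
    exact hg
  -- `f = r * g`
  obtain ⟨f, hfdef⟩ : ∃ f, f = r * g := ⟨_, rfl⟩
  rw [← hfdef] at hf hf0 hfi hfg ⊢
  have hfgi : f * gi = r := by
    rw [hfdef, mul_assoc, hgi, mul_one]
  -- generators
  have hri : r * (g * fi) = 1 := by rw [← mul_assoc, ← hfdef, hfi]
  have hs : (g - f) * fi = g * fi - 1 := by rw [sub_mul, hfi]
  have htops : Algebra.adjoin K {(g - f) * fi} = ⊤ := by
    apply IHL2_top hr
    obtain ⟨n, hn⟩ := IHL2_pow hri
    rw [hn]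
    apply Subalgebra.pow_mem
    have h1 : g * fi = (g - f) * fi + 1 := by rw [hs]; ring
    rw [h1]
    exact Subalgebra.add_mem _ (Algebra.self_mem_adjoin_singleton K _) (Subalgebra.one_mem _)
  have htopn : Algebra.adjoin K {-r} = ⊤ := by
    apply IHL2_top hr
    have h1 : r = -(-r) := by ring
    rw [h1]
    refine Subalgebra.neg_mem _ ?_
    rw [neg_neg]
    exact Algebra.self_mem_adjoin_singleton K _
  have htop1 : Algebra.adjoin K {r - 1} = ⊤ := by
    apply IHL2_top hr
    have h1 : r = (r - 1) + 1 := by ring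
    have h2 : (r - 1) + 1 ∈ Algebra.adjoin K {r - 1} :=
      Subalgebra.add_mem _ (Algebra.self_mem_adjoin_singleton K _) (Subalgebra.one_mem _)
    rwa [← h1] at h2
  -- negatives
  have hneg : ∀ k ∈ frm S ev, -k ∈ frm S ev := by
    intro k hk
    have := hΦ.smul (-1) k hk
    rwa [neg_one_smul] at this
  have hgf : g - f ∈ frm S ev := by
    have h1 : -r * g ∈ frm S ev := by
      rw [neg_mul, ← hfdef]
      exact hneg f hf
    have h2 := hΦ.add g hg (-r) hg0 h1 htopn
    rw [neg_mul, ← hfdef, neg_add_eq_sub] at h2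
    exact h2
  have hgf0 : g - f ≠ 0 := by
    rw [sub_ne_zero]
    exact fun h => hfg h.symm
  obtain ⟨P, hPS, hP⟩ := hf
  obtain ⟨Q, hQS, hQ⟩ := hgf
  have hP0 : P ≠ 0 := by
    rintro rfl
    have h1 := hP 1
    rw [LinearMap.zero_apply, mul_one] at h1
    exact hf0 (hev (by rw [← h1, map_zero]))
  have hQ0 : Q ≠ 0 := by
    rintro rfl
    have h1 := hQ 1
    rw [LinearMap.zero_apply, mul_one] at h1
    exact hgf0 (hev (by rw [← h1, map_zero]))
  have h1ne : ev 1 ≠ 0 := by
    intro h1
    have h2 : (1 : R) = 0 := hev (by rw [h1, map_zero])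
    exact hg0 (by rw [← mul_one g, h2, mul_zero])
  obtain ⟨u, hu⟩ : ∃ u, u = f * (g - f) * gi := ⟨_, rfl⟩
  obtain ⟨R0, hR0S, hR0⟩ := hS.ex (ev 1) h1ne (ev u)
  -- the claim
  have claim : ∀ h : R, R0 (ev h) = ev (u * h) →
      R0 (ev ((g - f) * fi * h)) = ev (u * ((g - f) * fi * h)) := by
    intro h hh
    have e1 : P (ev (h * (g - f) * gi)) = Q (ev (h * f * gi)) := by
      rw [hP, hQ]
      congr 1
      ring
    have e2 : h * (g - f) * gi + h * f * gi = h := by
      linear_combination h * hgi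
    have e3 : R0 (ev (h * (g - f) * gi) + ev (h * f * gi)) = P (ev (h * (g - f) * gi)) := by
      rw [← map_add, e2, hh, hP, hu]
      congr 1
      ring
    have e4 : P (ev ((g - f) * fi * (h * (g - f) * gi))) = Q (ev (h * (g - f) * gi)) := by
      rw [hP, hQ]
      congr 1
      linear_combination ((g - f) * (h * (g - f) * gi)) * hfi
    have e5 := hS.hexB P hPS Q hQS R0 hR0S _ _ _ hP0 hQ0 e1 e3 e4
    rw [← map_add, hQ] at e5
    have e6 : (g - f) * fi * (h * (g - f) * gi) + h * (g - f) * gi = (g - f) * fi * h := by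
      linear_combination (h * (g - f) * fi) * hgi - (h * (g - f) * gi) * hfi
    have e7 : (g - f) * (h * (g - f) * gi) = u * ((g - f) * fi * h) := by
      rw [hu]
      linear_combination (-(g - f) * (g - f) * gi * h) * hfi
    rw [e6, e7] at e5
    exact e5
  let B : Subalgebra K R :=
    { carrier := {b | ∀ h : R, R0 (ev h) = ev (u * h) → R0 (ev (b * h)) = ev (u * (b * h))}
      mul_mem' := by
        intro a b ha hb h hh
        rw [mul_assoc]
        exact ha _ (hb _ hh)
      add_mem' := by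
        intro a b ha hb h hh
        rw [add_mul, map_add, map_add, ha h hh, hb h hh, mul_add, map_add]
      algebraMap_mem' := by
        intro c h hh
        rw [← Algebra.smul_def, map_smul, map_smul, hh, mul_smul_comm, map_smul] }
  have hB : B = ⊤ := by
    rw [← top_le_iff, ← htops]
    exact Algebra.adjoin_le (Set.singleton_subset_iff.2 claim)
  have hall : ∀ k : R, R0 (ev k) = ev (u * k) := by
    intro k
    have h1 : k ∈ B := by
      rw [hB]
      exact Algebra.mem_top
    have h2 := h1 1 (by rw [hR0, mul_one])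
    rwa [mul_one] at h2
  have huΦ : u ∈ frm S ev := ⟨R0, hR0S, hall⟩
  have h3 : -u = (r - 1) * f := by
    rw [hu]
    linear_combination (-f) * hgi + f * hfgi
  have h4 : (r - 1) * f ∈ frm S ev := by
    rw [← h3]
    exact hneg u huΦ
  have h5 := hΦ.add f ⟨P, hPS, hP⟩ (r - 1) hf0 h4 htop1
  have h6 : (r - 1) * f + f = r * f := by ring
  rwa [h6] at h5

end Pool.Agent.TP3
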