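import Pool.Agent.Lib.MP_a1e562_co.IH.Stm

/-!
# Piece [IH L3]: frames, sums through a third element
-/

set_option autoImplicit false

namespace Pool.Agent.TP3

open Configuration Polynomial

/-- the inverse of a unit of a finite ring is a power -/
private theorem IHL3_inv {R : Type} [CommRing R] [Finite R] (u : Rˣ) :
    ∃ n : ℕ, (↑u⁻¹ : R) = (↑u : R) ^ n := by
  haveI : Finite Rˣ := inferInstance
  obtain ⟨n, hn⟩ := (isOfFinOrder_of_finite u).mem_powers_iff_mem_zpowers.2
    (Subgroup.inv_mem _ (Subgroup.mem_zpowers u))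
  refine ⟨n, ?_⟩
  have h1 : u ^ n = u⁻¹ := hn
  rw [← h1, Units.val_pow_eq_pow_val]

theorem s_IHL3 : S_IHL3 := by
  intro K V R _ _ _ _ _ _ S ev hS hinj hB h hh r s h0 hr hs hadr hads
  set Φ := frm S ev with hΦ
  have hunit : ∀ f ∈ Φ, f ≠ 0 → IsUnit f := by
    intro f hf hf0
    have := hB.unit f hf 0 hB.zero hf0
    rwa [sub_zero] at this
  have hneg : ∀ f ∈ Φ, -f ∈ Φ := by
    intro f hf
    have := hB.smul (-1) f hf
    rwa [neg_one_smul] at this
  by_cases hf0 : r * h = 0
  · rw [hf0, zero_add]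
    exact hs
  by_cases hg0 : s * h = 0
  · rw [hg0, add_zero]
    exact hr
  by_cases hfg0 : r * h + s * h = 0
  · rw [hfg0]
    exact hB.zero
  obtain ⟨uf, huf⟩ := hunit _ hr hf0
  obtain ⟨ug, hug⟩ := hunit _ hs hg0
  obtain ⟨uh, huh⟩ := hunit _ hh h0
  have hfgu : IsUnit (r * h + s * h) := by
    have h1 : r * h ≠ -(s * h) := fun h2 => hfg0 (by rw [h2, neg_add_cancel])
    have := hB.unit _ hr _ (hneg _ hs) h1
    rwa [sub_neg_eq_add] at this
  obtain ⟨ufg, hufg⟩ := hfgu
  have hfh : r * h + h ∈ Φ := hB.add h hh r h0 hr hadr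
  have hadns : Algebra.adjoin K {-s} = ⊤ := by
    rw [eq_top_iff, ← hads]
    apply Algebra.adjoin_le
    intro y hy
    rw [Set.mem_singleton_iff.1 hy]
    have := (Algebra.adjoin K {-s}).neg_mem (Algebra.self_mem_adjoin_singleton K (-s))
    rwa [neg_neg] at this
  have hgh : s * h - h ∈ Φ := by
    have h1 := hB.add h hh (-s) h0 (by rw [neg_mul]; exact hneg _ hs) hadns
    have h2 := hneg _ h1
    have h3 : -(-s * h + h) = s * h - h := by ring
    rwa [h3] at h2
  -- the case when all elements are scalars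
  have hscal : (∃ c : K, r = algebraMap K R c) ∨ (∃ c : K, s = algebraMap K R c) →
      r * h + s * h ∈ Φ := by
    intro hrs
    have htop : ∀ y : R, ∃ c : K, y = algebraMap K R c := by
      intro y
      have hbot : (⊤ : Subalgebra K R) = ⊥ := by
        rcases hrs with ⟨c, hc⟩ | ⟨c, hc⟩
        · rw [← hadr, hc]
          rw [eq_bot_iff]
          apply Algebra.adjoin_le
          intro z hz
          rw [Set.mem_singleton_iff.1 hz]
          exact (⊥ : Subalgebra K R).algebraMap_mem c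
        · rw [← hads, hc]
          rw [eq_bot_iff]
          apply Algebra.adjoin_le
          intro z hz
          rw [Set.mem_singleton_iff.1 hz]
          exact (⊥ : Subalgebra K R).algebraMap_mem c
      have hy : y ∈ (⊥ : Subalgebra K R) := by
        rw [← hbot]
        exact Algebra.mem_top
      obtain ⟨c, hc⟩ := Algebra.mem_bot.1 hy
      exact ⟨c, hc.symm⟩
    obtain ⟨c, hc⟩ := htop (r + s)
    have h1 : r * h + s * h = c • h := by
      rw [← add_mul, hc, Algebra.smul_def]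
    rw [h1]
    exact hB.smul c h hh
  by_cases hfh0 : r * h + h = 0
  · apply hscal
    left
    refine ⟨-1, ?_⟩
    have h1 : (r + 1) * h = 0 := by rw [add_mul, one_mul]; exact hfh0
    rw [← huh] at h1
    have h2 : r + 1 = 0 := by
      have := congrArg (· * (↑uh⁻¹ : R)) h1
      simpa [mul_assoc] using this
    rw [map_neg, map_one]
    exact eq_neg_of_add_eq_zero_left h2
  by_cases hgh0 : s * h - h = 0
  · apply hscal
    right
    refine ⟨1, ?_⟩
    have h1 : (s - 1) * h = 0 := by rw [sub_mul, one_mul]; exact hgh0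
    rw [← huh] at h1
    have h2 : s - 1 = 0 := by
      have := congrArg (· * (↑uh⁻¹ : R)) h1
      simpa [mul_assoc] using this
    rw [map_one]
    exact sub_eq_zero.1 h2
  obtain ⟨u1, hu1⟩ := hunit _ hfh hfh0
  obtain ⟨u2, hu2⟩ := hunit _ hgh hgh0
  have hev1 : ev 1 ≠ 0 := by
    intro he
    have h1 : (1 : R) = 0 := hinj (by rw [he, map_zero])
    apply h0
    rw [← one_mul h, h1, zero_mul]
  obtain ⟨R0, hR0, hR01⟩ := hS.ex (ev 1) hev1 (ev (r * h + s * h))
  -- the additive group A and the subalgebra B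
  let B : Subalgebra K R :=
    { carrier := {b | ∀ k : R, R0 (ev k) = ev ((r * h + s * h) * k) →
        R0 (ev (b * k)) = ev ((r * h + s * h) * (b * k))}
      mul_mem' := by
        intro b c hb hc k hk
        have := hb _ (hc k hk)
        rw [← mul_assoc b c k] at this
        exact this
      add_mem' := by
        intro b c hb hc k hk
        rw [add_mul, map_add, map_add, hb k hk, hc k hk, ← map_add, mul_add]
      algebraMap_mem' := by
        intro c k hk
        have h1 : algebraMap K R c * k = c • k := (Algebra.smul_def c k).symm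
        rw [h1, map_smul, map_smul, hk, mul_smul_comm, map_smul] }
  have hBmem : ∀ b : R, b ∈ B ↔ ∀ k : R, R0 (ev k) = ev ((r * h + s * h) * k) →
        R0 (ev (b * k)) = ev ((r * h + s * h) * (b * k)) := fun b => Iff.rfl
  have hclaim : ∀ f' ∈ Φ, ∀ g' ∈ Φ, ∀ u : Rˣ, (u : R) = g' → f' + g' = r * h + s * h →
      f' * (↑u⁻¹ : R) ∈ B := by
    intro f' hf' g' hg' u hu hsum
    rw [hBmem]
    intro k hk
    by_cases hk0 : k = 0
    · rw [hk0, mul_zero, mul_zero, map_zero, map_zero]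
    obtain ⟨P, hP, hPe⟩ := hf'
    obtain ⟨Q, hQ, hQe⟩ := hg'
    have hx : ev k ≠ 0 := fun he => hk0 (hinj (by rw [he, map_zero]))
    have h1 : P (ev k) = Q (ev (f' * (↑u⁻¹ : R) * k)) := by
      rw [hPe, hQe, ← hu]
      congr 1
      have : (u : R) * (f' * (↑u⁻¹ : R) * k) = ((u : R) * (↑u⁻¹ : R)) * (f' * k) := by ring
      rw [this, Units.mul_inv, one_mul]
    have h2 : R0 (ev k) = P (ev k) + Q (ev k) := by
      rw [hk, hPe, hQe, ← map_add, ← hsum, add_mul]
    rw [hS.hexA P hP Q hQ R0 hR0 _ _ hx h1 h2, hPe, hQe, ← map_add, ← hsum, add_mul]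
  have hinvB : ∀ u : Rˣ, (u : R) ∈ B → (↑u⁻¹ : R) ∈ B := by
    intro u hu
    obtain ⟨n, hn⟩ := IHL3_inv u
    rw [hn]
    exact B.pow_mem hu n
  have hx : r * h * (↑ug⁻¹ : R) ∈ B := hclaim _ hr _ hs ug hug rfl
  have hy : (r * h + h) * (↑u2⁻¹ : R) ∈ B := hclaim _ hfh _ hgh u2 hu2 (by ring)
  have e2 : (u2 : R) * (↑u2⁻¹ : R) = 1 := Units.mul_inv u2
  have eg : (ug : R) * (↑ug⁻¹ : R) = 1 := Units.mul_inv ug
  have h1y : 1 + (r * h + h) * (↑u2⁻¹ : R) = (↑(ufg * u2⁻¹) : R) := by
    rw [Units.val_mul, hufg]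
    have : (1 : R) = (s * h - h) * (↑u2⁻¹ : R) := by rw [← hu2, e2]
    linear_combination this
  have hw : (↑(ufg * u2⁻¹)⁻¹ : R) ∈ B := by
    apply hinvB
    rw [← h1y]
    exact B.add_mem B.one_mem hy
  have hkey : h * (↑ug⁻¹ : R) ∈ B := by
    have h3 : h * (↑ug⁻¹ : R) = ((r * h + h) * (↑u2⁻¹ : R) - r * h * (↑ug⁻¹ : R)) *
        (↑(ufg * u2⁻¹)⁻¹ : R) := by
      rw [mul_inv_rev, inv_inv, Units.val_mul]
      have e3 : (ufg : R) * (↑ufg⁻¹ : R) = 1 := Units.mul_inv ufg
      rw [hufg] at e3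
      rw [hug] at eg
      rw [hu2] at e2 ⊢
      linear_combination (-(h * (↑ug⁻¹ : R))) * e3 +
        (-(r * h + h) * (↑ufg⁻¹ : R)) * e2 + ((r * h + h) * (↑ufg⁻¹ : R)) * eg
    rw [h3]
    exact B.mul_mem (B.sub_mem hy hx) hw
  have hsB : s ∈ B := by
    have h3 : (↑(uh * ug⁻¹) : R) ∈ B := by
      rw [Units.val_mul, huh]
      exact hkey
    have h4 := hinvB _ h3
    rw [mul_inv_rev, inv_inv, Units.val_mul, hug] at h4
    have h5 : s * h * (↑uh⁻¹ : R) = s := by
      rw [← huh, mul_assoc, Units.mul_inv, mul_one]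
    rwa [h5] at h4
  have hBtop : ∀ b : R, b ∈ B := by
    intro b
    have h3 : Algebra.adjoin K {s} ≤ B := by
      apply Algebra.adjoin_le
      intro z hz
      rw [Set.mem_singleton_iff.1 hz]
      exact hsB
    rw [hads] at h3
    exact h3 Algebra.mem_top
  refine ⟨R0, hR0, fun g => ?_⟩
  have h3 := (hBmem g).1 (hBtop g) 1 (by rw [mul_one]; exact hR01)
  rwa [mul_one] at h3

end Pool.Agent.TP3
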