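import Pool.Agent.Lib.MP_a1e562_co.IH.Stm

/-!
# MP_a1e562_co, [IH PW]: powers in a finite field
-/

set_option autoImplicit false

namespace Pool.Agent.TP3

open Configuration Polynomial

theorem s_IHPW : S_IHPW := by
  intro K _ _ a o m hm hcard y hy
  have : Fintype K := Fintype.ofFinite K
  have hy1 : y ^ (2 ^ a * o) = 1 := by
    rw [← hcard, Nat.card_eq_fintype_card]
    exact FiniteField.pow_card_sub_one_eq_one y hy
  rcases Nat.eq_zero_or_pos a with rfl | ha
  · refine ⟨1, one_ne_zero, ?_⟩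
    rw [one_pow]
    rw [pow_zero, one_mul] at hy1
    exact hy1.symm
  · have hco : Nat.Coprime m (2 ^ a) := Nat.Coprime.pow_right a (Nat.coprime_two_right.mpr hm)
    obtain ⟨k, hk⟩ := Nat.exists_mul_mod_eq_one_of_coprime hco (Nat.one_lt_two_pow ha.ne')
    refine ⟨y ^ k, pow_ne_zero k hy, ?_⟩
    have h1 : m * k = 1 + 2 ^ a * (m * k / 2 ^ a) := by
      conv_lhs => rw [← Nat.mod_add_div (m * k) (2 ^ a)]
      rw [hk.2]
    generalize m * k / 2 ^ a = t at h1
    calc (y ^ k) ^ (m * o) = (y ^ o) ^ (m * k) := by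
          rw [← pow_mul, ← pow_mul]
          congr 1
          ring
      _ = y ^ o * (y ^ (2 ^ a * o)) ^ t := by
          rw [h1, pow_add, pow_one, ← pow_mul, ← pow_mul]
          congr 2
          ring
      _ = y ^ o := by rw [hy1, one_pow, mul_one]

end Pool.Agent.TP3
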