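import Pool.Agent.Lib.MP_a1e562_co.IH.Stm

/-!
# Piece [IH S1]: the local structure theorem
-/

set_option autoImplicit false

namespace Pool.Agent.TP3

open Configuration Polynomial

/-- the annihilator of a vector -/
private def IHS1_I {K V : Type} [Field K] [AddCommGroup V] [Module K V] (T : Module.End K V)
    (x : V) : Ideal K[X] where
  carrier := {φ | aeval T φ x = 0}
  add_mem' := by
    intro φ ψ hφ hψ
    show aeval T (φ + ψ) x = 0
    rw [map_add, LinearMap.add_apply, show aeval T φ x = 0 from hφ, show aeval T ψ x = 0 from hψ,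
      add_zero]
  zero_mem' := by
    show aeval T 0 x = 0
    rw [map_zero, LinearMap.zero_apply]
  smul_mem' := by
    intro c φ hφ
    show aeval T (c • φ) x = 0
    rw [smul_eq_mul, map_mul, Module.End.mul_apply, show aeval T φ x = 0 from hφ, map_zero]

private theorem IHS1_mem {K V : Type} [Field K] [AddCommGroup V] [Module K V]
    (T : Module.End K V) (x : V) (φ : K[X]) : φ ∈ IHS1_I T x ↔ aeval T φ x = 0 := Iff.rfl

theorem s_IHS1 : S_IHS1 := by
  intro hF hL hM K V _ _ _ _ S hS h3 A hA B hB hB0 T hT x hx φ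
  have hS' := hM K V S B hS (hS.inj hB hB0)
  set S' : Set (Module.End K V) := {N | ∃ M ∈ S, ∀ v, B (N v) = M v} with hS'def
  set I := IHS1_I T x with hI
  have hsurj : Function.Surjective (Ideal.Quotient.mk I) := Ideal.Quotient.mk_surjective
  let ev0 : (K[X] ⧸ I) → V := fun r => aeval T (Function.surjInv hsurj r) x
  have hev0 : ∀ ψ : K[X], ev0 (Ideal.Quotient.mk I ψ) = aeval T ψ x := by
    intro ψ
    have h1 : Ideal.Quotient.mk I (Function.surjInv hsurj (Ideal.Quotient.mk I ψ)) =
        Ideal.Quotient.mk I ψ := Function.surjInv_eq hsurj _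
    rw [Ideal.Quotient.eq, IHS1_mem, map_sub, LinearMap.sub_apply] at h1
    exact sub_eq_zero.1 h1
  let ev : (K[X] ⧸ I) →ₗ[K] V :=
    { toFun := ev0
      map_add' := by
        intro r s
        obtain ⟨φ, rfl⟩ := hsurj r
        obtain ⟨ψ, rfl⟩ := hsurj s
        rw [← map_add, hev0, hev0, hev0, map_add, LinearMap.add_apply]
      map_smul' := by
        intro c r
        obtain ⟨φ, rfl⟩ := hsurj r
        have h1 : c • Ideal.Quotient.mk I φ = Ideal.Quotient.mk I (c • φ) := rfl
        rw [h1, hev0, hev0, map_smul, LinearMap.smul_apply, RingHom.id_apply] }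
  have hev : ∀ ψ : K[X], ev (Ideal.Quotient.mk I ψ) = aeval T ψ x := hev0
  have hinj : Function.Injective ev := by
    intro r s hrs
    obtain ⟨φ, rfl⟩ := hsurj r
    obtain ⟨ψ, rfl⟩ := hsurj s
    rw [hev, hev] at hrs
    rw [Ideal.Quotient.eq, IHS1_mem, map_sub, LinearMap.sub_apply, hrs, sub_self]
  have hfin : Finite (K[X] ⧸ I) := Finite.of_injective ev hinj
  have hev1 : ev 1 = x := by
    have h5 : aeval T (1 : K[X]) = 1 := map_one _
    have := hev 1
    rw [h5] at this
    exact this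
  have hnt : Nontrivial (K[X] ⧸ I) := by
    refine ⟨⟨1, 0, fun h => hx ?_⟩⟩
    rw [← hev1, h, map_zero]
  have h1 : (1 : K[X] ⧸ I) ∈ frm S' ev := by
    refine ⟨1, ⟨B, hB, fun v => rfl⟩, fun g => ?_⟩
    rw [one_mul]
    rfl
  have hX : Ideal.Quotient.mk I X ∈ frm S' ev := by
    refine ⟨T, ⟨A, hA, hT⟩, fun g => ?_⟩
    obtain ⟨ψ, rfl⟩ := hsurj g
    rw [← map_mul, hev, hev, map_mul, aeval_X, Module.End.mul_apply]
  have hadj : Algebra.adjoin K {Ideal.Quotient.mk I X} = ⊤ := by
    rw [eq_top_iff]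
    intro r _
    obtain ⟨ψ, rfl⟩ := hsurj r
    have h2 : aeval (Ideal.Quotient.mk I X) ψ = Ideal.Quotient.mk I ψ := by
      have h3 := Polynomial.aeval_algHom_apply (Ideal.Quotient.mkₐ K I) X ψ
      rw [aeval_X_left_apply] at h3
      exact h3
    rw [← h2]
    exact Polynomial.aeval_mem_adjoin_singleton K _
  have hPhi := hL K V (K[X] ⧸ I) S' ev (Ideal.Quotient.mk I X) hS' hinj h1 hX
  have hall := hF K (K[X] ⧸ I) h3 (frm S' ev) (Ideal.Quotient.mk I X) hPhi hadj
  constructor
  · intro M hMS hMx ψ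
    obtain ⟨N, ⟨M', hM', hN⟩, hNe⟩ := hall (Ideal.Quotient.mk I φ)
    have h2 : M' = M := by
      apply hS.uq M' hM' M hMS x hx
      rw [← hN, hMx]
      congr 1
      have := hNe 1
      rw [hev1, mul_one, hev] at this
      exact this
    rw [← h2, ← hN]
    congr 1
    have := hNe (Ideal.Quotient.mk I ψ)
    rw [hev, ← map_mul, hev] at this
    exact this
  · intro hne
    have h2 : Ideal.Quotient.mk I φ ≠ 0 := by
      intro h0
      apply hne
      rw [← hev, h0, map_zero]
    have h4 := hPhi.unit _ (hall (Ideal.Quotient.mk I φ)) 0 (hall 0) h2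
    rw [sub_zero] at h4
    obtain ⟨u, hu⟩ := h4
    obtain ⟨ψ, hψ⟩ := hsurj (↑u⁻¹ : K[X] ⧸ I)
    refine ⟨ψ, ?_⟩
    rw [← hev, map_mul, hψ, ← hu, Units.inv_mul, hev1]

end Pool.Agent.TP3
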