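import Pool.Agent.Lib.MP_a1e562_co.IH.Stm

/-!
# MP_a1e562_co, IH: piece S2 (the global field property)
-/

set_option autoImplicit false

namespace Pool.Agent.TP3

open Configuration Polynomial

theorem s_IHS2 : S_IHS2 := by
  intro K V _ _ _ T h g φ hg hφg
  by_contra hne
  have hw : ∃ w : V, aeval T φ w ≠ 0 := by
    by_contra hc
    push Not at hc
    exact hne (LinearMap.ext fun w => by rw [hc w, LinearMap.zero_apply])
  obtain ⟨w, hw⟩ := hw
  have hw0 : w ≠ 0 := by
    rintro rfl
    exact hw (map_zero _)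
  obtain ⟨ψ, hψ⟩ := h w hw0 φ hw
  have h1 : aeval T (ψ * φ) g = 0 := by
    rw [map_mul, Module.End.mul_apply, hφg, map_zero]
  have h2 : aeval T (ψ * φ) (g + w) = w := by
    rw [map_add, h1, hψ, zero_add]
  have hu : g + w ≠ 0 := by
    intro h0
    rw [h0, map_zero] at h2
    exact hw0 h2.symm
  obtain ⟨χ, hχ⟩ := h (g + w) hu (ψ * φ) (by rw [h2]; exact hw0)
  have h3 : aeval T χ w = g + w := by
    rw [map_mul, Module.End.mul_apply, h2] at hχ
    exact hχ
  have h4 : aeval T (ψ * φ) (aeval T χ w) = aeval T χ (aeval T (ψ * φ) w) := by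
    rw [← Module.End.mul_apply, ← Module.End.mul_apply, ← map_mul, ← map_mul, mul_comm]
  rw [h3, h2, hψ, h3] at h4
  exact hg (by simpa using h4)

end Pool.Agent.TP3
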