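import Pool.Agent.Lib.MP_a1e562_co.IH.Stm

/-! Piece SG: a sign function on a finite field. -/

set_option autoImplicit false

namespace Pool.Agent.TP3

theorem s_IHSG : S_IHSG := by
  classical
  intro K _ _ h2
  obtain ⟨n, ⟨e⟩⟩ := Finite.exists_equiv_fin K
  have hne : ∀ z : K, z ≠ 0 → e z ≠ e (-z) := by
    intro z hz h
    have h1 : z = -z := e.injective h
    have h3 : (2 : K) * z = 0 := by
      rw [two_mul]
      nth_rewrite 1 [h1]
      exact neg_add_cancel z
    rcases mul_eq_zero.1 h3 with h4 | h4
    · exact h2 h4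
    · exact hz h4
  refine ⟨fun z => if z = 0 then 0 else if e z < e (-z) then 1 else -1, by simp, ?_, ?_⟩
  · intro z hz
    simp only [if_neg hz]
    by_cases h : e z < e (-z)
    · left
      rw [if_pos h]
    · right
      rw [if_neg h]
  · intro z
    by_cases hz : z = 0
    · subst hz
      simp
    · have hz' : -z ≠ 0 := neg_ne_zero.2 hz
      simp only [if_neg hz, if_neg hz', neg_neg]
      rcases lt_or_gt_of_ne (hne z hz) with h | h
      · rw [if_pos h, if_neg (not_lt.2 h.le)]
      · rw [if_pos h, if_neg (not_lt.2 h.le), neg_neg]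

end Pool.Agent.TP3
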