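import Pool.Agent.Lib.MP_a1e562_co.IH.Stm

/-!
# [IH Z1] The regular actions on `S`
-/

set_option autoImplicit false

namespace Pool.Agent.TP3

theorem s_IHZ1 : S_IHZ1 := by
  intro K V _ _ _ _ S h h3 ι hι p hp
  classical
  have key : ∀ (v : V) (M : S), ∃ E : S,
      (E : Module.End K V) p = (M : Module.End K V) p + v := by
    intro v M
    obtain ⟨E, hE, hEp⟩ := h.ex p hp ((M : Module.End K V) p + v)
    exact ⟨⟨E, hE⟩, hEp⟩
  choose f hf using key
  have hext : ∀ M N : S, (M : Module.End K V) p = (N : Module.End K V) p → M = N := by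
    intro M N hMN
    exact Subtype.ext (h.uq M M.2 N N.2 p hp hMN)
  let T : V → Equiv.Perm S := fun v =>
    { toFun := f v
      invFun := f (-v)
      left_inv := by
        intro M
        apply hext
        rw [hf, hf, add_neg_cancel_right]
      right_inv := by
        intro M
        apply hext
        rw [hf, hf, neg_add_cancel_right] }
  have hT : ∀ (v : V) (M : S), (T v M : Module.End K V) p = (M : Module.End K V) p + v :=
    fun v M => hf v M
  refine ⟨T, ⟨?_, ?_, ?_, ?_⟩, hT, ?_⟩
  · intro v w
    apply Equiv.ext
    intro M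
    apply hext
    rw [Equiv.Perm.mul_apply, hT, hT, hT, add_assoc, add_comm w v]
  · intro v
    have h4 : (3 : K) • v = v + v + v := by
      rw [show (3 : K) = 1 + 1 + 1 by norm_num, add_smul, add_smul, one_smul]
    rw [← h4, h3, zero_smul]
  · intro a b
    refine ⟨(b : Module.End K V) p - (a : Module.End K V) p, ?_⟩
    apply hext
    rw [hT, add_sub_cancel]
  · intro v a hva
    have h5 := hT v a
    rw [hva] at h5
    exact (left_eq_add.1 h5)
  · intro v
    apply Equiv.ext
    intro M
    apply hext
    rw [Equiv.Perm.mul_apply, Equiv.Perm.mul_apply, hι, LinearMap.neg_apply, hT, hι,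
      LinearMap.neg_apply, hT]
    abel

end Pool.Agent.TP3
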