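import Pool.Agent.Lib.MP_a1e562_co.IH.Stm

/-!
# [IH Z2] The maps `t`
-/

set_option autoImplicit false

namespace Pool.Agent.TP3

theorem s_IHZ2 : S_IHZ2 := by
  intro K V _ _ _ _ S h B hB hB0 p hp
  classical
  have : Finite (Module.End K V) :=
    Finite.of_injective (fun f : Module.End K V => (f : V → V)) DFunLike.coe_injective
  have : Finite S := Subtype.finite
  have key : ∀ M : S, (M : Module.End K V) ≠ 0 → ∃ E : S, (E : Module.End K V) ≠ 0 ∧
      ∃ v : V, (M : Module.End K V) v = B p ∧ (E : Module.End K V) p = - B v := by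
    intro M hM
    obtain ⟨v, hv⟩ := h.surj M.2 hM (B p)
    have hv0 : v ≠ 0 := by
      intro h0
      rw [h0, map_zero] at hv
      exact h.apply_ne hB hB0 hp hv.symm
    obtain ⟨E, hE, hEp⟩ := h.ex p hp (- B v)
    refine ⟨⟨E, hE⟩, ?_, v, hv, hEp⟩
    intro hE0
    have hE0' : E = 0 := hE0
    rw [hE0', LinearMap.zero_apply] at hEp
    exact h.apply_ne hB hB0 hv0 (neg_eq_zero.1 hEp.symm)
  choose f hf0 g hg1 hg2 using key
  let t : S → S := fun M => if hM : (M : Module.End K V) = 0 then ⟨0, h.zero⟩ else f M hM
  have ht0 : ∀ M : S, (M : Module.End K V) = 0 → (t M : Module.End K V) = 0 := by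
    intro M hM
    simp only [t, dif_pos hM]
  have ht1 : ∀ (M : S) (hM : (M : Module.End K V) ≠ 0), t M = f M hM := by
    intro M hM
    simp only [t, dif_neg hM]
  have hinj : Function.Injective t := by
    intro M N hMN
    by_cases hM : (M : Module.End K V) = 0
    · by_cases hN : (N : Module.End K V) = 0
      · exact Subtype.ext (hM.trans hN.symm)
      · exfalso
        have h1 := ht0 M hM
        rw [hMN, ht1 N hN] at h1
        exact hf0 N hN h1
    · by_cases hN : (N : Module.End K V) = 0
      · exfalso
        have h1 := ht0 N hN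
        rw [← hMN, ht1 M hM] at h1
        exact hf0 M hM h1
      · rw [ht1 M hM, ht1 N hN] at hMN
        have h1 : g M hM = g N hN := by
          apply h.inj hB hB0
          have h2 := hg2 M hM
          rw [hMN, hg2 N hN] at h2
          exact (neg_injective h2).symm
        have h3 : g M hM ≠ 0 := by
          intro h0
          have h4 := hg1 M hM
          rw [h0, map_zero] at h4
          exact h.apply_ne hB hB0 hp h4.symm
        apply Subtype.ext
        apply h.uq M M.2 N N.2 (g M hM) h3
        rw [hg1 M hM, h1, hg1 N hN]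
  refine ⟨Equiv.ofBijective t (Finite.injective_iff_bijective.1 hinj), ?_, ?_⟩
  · intro M hM
    exact ht0 M hM
  · intro M hM
    have h1 : (Equiv.ofBijective t (Finite.injective_iff_bijective.1 hinj)) M = f M hM := ht1 M hM
    rw [h1]
    exact ⟨hf0 M hM, g M hM, hg1 M hM, hg2 M hM⟩

end Pool.Agent.TP3
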