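import Pool.Agent.Lib.MP_a1e562_co.IH.Stm

/-!
# MP_a1e562_co: [IH Z3] transitivity
-/

set_option autoImplicit false

namespace Pool.Agent.TP3

theorem s_IHZ3 : S_IHZ3 := by
  intro h2 K V _ _ _ _ _ S hS hodd o h4 h5 B C hB0 hC0 hBC
  -- a nonzero vector
  have hpos : 0 < Module.finrank K V := hodd.pos
  have hnt : Nontrivial V := Module.nontrivial_of_finrank_pos hpos
  obtain ⟨p, hp⟩ := exists_ne (0 : V)
  obtain ⟨A, hA, u, hA0, hBu, hAu, hdet⟩ := h5 B B.2 C C.2 p hB0 hC0 hp hBC
  obtain ⟨tA, tA0, tA1⟩ := h2 K V S hS A hA hA0 p hp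
  obtain ⟨tB, tB0, tB1⟩ := h2 K V S hS B B.2 hB0 p hp
  have hdB : LinearMap.det (B : Module.End K V) ≠ 0 := by
    have := hS.det_ne B.2 hS.zero hB0
    rwa [sub_zero] at this
  -- the last step
  have hfin : ∀ a b : K, a * (LinearMap.det (B : Module.End K V)) ^ 2 =
      (LinearMap.det A) ^ 2 * b → a ^ o = b ^ o := by
    intro a b hab
    have h6 := congrArg (fun z => z ^ o) hab
    simp only [mul_pow, ← pow_mul] at h6
    have h7 : (LinearMap.det A) ^ (2 * o) = (LinearMap.det (B : Module.End K V)) ^ (2 * o) := by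
      rw [pow_mul, hdet, mul_pow, hBC, ← pow_add]
      congr 1
      ring
    rw [h7, mul_comm] at h6
    exact mul_left_cancel₀ (pow_ne_zero _ hdB) h6
  have hnegdet : ∀ M : Module.End K V, LinearMap.det (-M) = -LinearMap.det M := by
    intro M
    have h6 : -M = (-1 : K) • M := by simp
    rw [h6, LinearMap.det_smul, hodd.neg_one_pow, neg_one_mul]
  -- one nonzero member
  have hone : ∀ X : S, (X : Module.End K V) ≠ 0 →
      LinearMap.det ((tB X : Module.End K V)) * LinearMap.det (X : Module.End K V) =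
        -(LinearMap.det (B : Module.End K V)) ^ 2 ∧
      LinearMap.det ((tA (tB X) : Module.End K V)) * LinearMap.det (tB X : Module.End K V) =
        -(LinearMap.det A) ^ 2 := by
    intro X hX
    obtain ⟨hX1, v, hv1, hv2⟩ := tB1 X hX
    obtain ⟨hX2, w, hw1, hw2⟩ := tA1 (tB X) hX1
    exact ⟨(h4 B B.2 X X.2 X X.2 (tB X) (tB X).2 (tB X) (tB X).2 p v v hB0 hX hX hp hv1 hv2
      hv1 hv2).1, (h4 A hA (tB X) (tB X).2 (tB X) (tB X).2 (tA (tB X)) (tA (tB X)).2 (tA (tB X))
      (tA (tB X)).2 p w w hA0 hX1 hX1 hp hw1 hw2 hw1 hw2).1⟩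
  have honeo : ∀ X : S, (X : Module.End K V) ≠ 0 →
      LinearMap.det ((tA (tB X) : Module.End K V)) * (LinearMap.det (B : Module.End K V)) ^ 2 =
        (LinearMap.det A) ^ 2 * LinearMap.det (X : Module.End K V) := by
    intro X hX
    obtain ⟨e1, e2⟩ := hone X hX
    linear_combination (LinearMap.det ((tA (tB X) : Module.End K V))) * e1 -
      LinearMap.det (X : Module.End K V) * e2
  refine ⟨tA * tB, ?_, ?_, ?_⟩
  · -- the image of `B`
    obtain ⟨hX1, v, hv1, hv2⟩ := tB1 B hB0
    obtain ⟨hX2, w, hw1, hw2⟩ := tA1 (tB B) hX1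
    have hvp : v = p := hS.inj B.2 hB0 hv1
    rw [hvp] at hv2
    have hE : (tB B : Module.End K V) = -B := by
      apply hS.uq _ (tB B).2 _ (hS.neg_mem B.2) p hp
      rw [hv2, LinearMap.neg_apply]
    have hwu : w = -u := by
      rw [hE, LinearMap.neg_apply] at hw1
      have h6 : (B : Module.End K V) (-w) = (B : Module.End K V) u := by
        rw [map_neg, hw1, hBu]
      have h7 := hS.inj B.2 hB0 h6
      rw [← h7, neg_neg]
    apply Subtype.ext
    show (tA (tB B) : Module.End K V) = C
    apply hS.uq _ (tA (tB B)).2 _ C.2 p hp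
    rw [hw2, hwu, map_neg, neg_neg, hAu]
  · intro M hM
    show (tA (tB M) : Module.End K V) = 0
    exact tA0 _ (tB0 M hM)
  · intro X Y
    show (LinearMap.det ((tA (tB X) : Module.End K V) - (tA (tB Y) : Module.End K V))) ^ o =
      (LinearMap.det ((X : Module.End K V) - (Y : Module.End K V))) ^ o
    by_cases hX : (X : Module.End K V) = 0
    · have hX'' : (tA (tB X) : Module.End K V) = 0 := tA0 _ (tB0 X hX)
      by_cases hY : (Y : Module.End K V) = 0
      · have hY'' : (tA (tB Y) : Module.End K V) = 0 := tA0 _ (tB0 Y hY)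
        rw [hX, hY, hX'', hY'']
      · rw [hX, hX'', zero_sub, zero_sub, hnegdet, hnegdet]
        apply hfin
        linear_combination -(honeo Y hY)
    · by_cases hY : (Y : Module.End K V) = 0
      · have hY'' : (tA (tB Y) : Module.End K V) = 0 := tA0 _ (tB0 Y hY)
        rw [hY, hY'', sub_zero, sub_zero]
        exact hfin _ _ (honeo X hX)
      · obtain ⟨hX1, v, hv1, hv2⟩ := tB1 X hX
        obtain ⟨hX2, w, hw1, hw2⟩ := tA1 (tB X) hX1
        obtain ⟨hY1, v', hv1', hv2'⟩ := tB1 Y hY
        obtain ⟨hY2, w', hw1', hw2'⟩ := tA1 (tB Y) hY1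
        have f1 := (h4 B B.2 X X.2 Y Y.2 (tB X) (tB X).2 (tB Y) (tB Y).2 p v v' hB0 hX hY hp
          hv1 hv2 hv1' hv2').2
        have f2 := (h4 A hA (tB X) (tB X).2 (tB Y) (tB Y).2 (tA (tB X)) (tA (tB X)).2 (tA (tB Y))
          (tA (tB Y)).2 p w w' hA0 hX1 hY1 hp hw1 hw2 hw1' hw2').2
        have g1 := (hone X hX).1
        have g2 := (hone Y hY).1
        apply hfin
        generalize LinearMap.det ((tA (tB X) : Module.End K V) - (tA (tB Y) : Module.End K V)) = z
          at f2 ⊢
        generalize LinearMap.det ((tB X : Module.End K V) - (tB Y : Module.End K V)) = z' at f1 f2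
        generalize LinearMap.det ((X : Module.End K V) - (Y : Module.End K V)) = z0 at f1 ⊢
        generalize LinearMap.det (tB X : Module.End K V) = x' at f2 g1
        generalize LinearMap.det (tB Y : Module.End K V) = y' at f2 g2
        generalize LinearMap.det (X : Module.End K V) = x at f1 g1
        generalize LinearMap.det (Y : Module.End K V) = y at f1 g2
        generalize LinearMap.det (B : Module.End K V) = b at *
        generalize LinearMap.det A = a at *
        have hb2 : b ^ 2 ≠ 0 := pow_ne_zero _ hdB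
        apply mul_left_cancel₀ hb2
        have e1 : z * (x' * y') * (x * y) = a ^ 2 * (b ^ 2 * z0) := by
          rw [f2, mul_assoc, f1]
        have e2 : (x' * x) * (y' * y) = b ^ 2 * b ^ 2 := by
          rw [g1, g2]; ring
        calc b ^ 2 * (z * b ^ 2) = z * (b ^ 2 * b ^ 2) := by ring
          _ = z * ((x' * x) * (y' * y)) := by rw [e2]
          _ = z * (x' * y') * (x * y) := by ring
          _ = a ^ 2 * (b ^ 2 * z0) := e1
          _ = b ^ 2 * (a ^ 2 * z0) := by ring

end Pool.Agent.TP3
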