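import Pool.Agent.Lib.MP_a1e562_co.IH.Stm

/-!
# Piece [IH Z4] of MP_a1e562_co
-/

set_option autoImplicit false

namespace Pool.Agent.TP3

open Configuration Polynomial

namespace Z4

variable {K V : Type} [Field K] [AddCommGroup V] [Module K V] {S : Set (Module.End K V)}

theorem ap_inv {X : Type} (g : Equiv.Perm X) (a : X) : g (g⁻¹ a) = a := g.apply_symm_apply a

/-- the cocycle -/
noncomputable def ps (S : Set (Module.End K V)) (o : ℕ) (A B : S) : K :=
  (LinearMap.det ((A : Module.End K V) - (B : Module.End K V))) ^ o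

theorem det_neg' (hodd : Odd (Module.finrank K V)) (M : Module.End K V) :
    LinearMap.det (-M) = -LinearMap.det M := by
  have h1 : -M = (-1 : K) • M := by rw [neg_one_smul]
  rw [h1, LinearMap.det_smul, hodd.neg_one_pow]
  ring

theorem ps_anti (hodd : Odd (Module.finrank K V)) {o : ℕ} (ho : Odd o) (A B : S) :
    ps S o B A = -ps S o A B := by
  unfold ps
  have h1 : ((B : Module.End K V) - (A : Module.End K V)) =
      -((A : Module.End K V) - (B : Module.End K V)) := by rw [neg_sub]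
  rw [h1, det_neg' hodd, ho.neg_pow]

theorem ps_ne [Finite V] (hS : HS K V S) (o : ℕ) {A B : S} (h : A ≠ B) : ps S o A B ≠ 0 :=
  pow_ne_zero _ (hS.det_ne A.2 B.2 fun h' => h (Subtype.ext h'))

theorem ps_smul (o : ℕ) {σ : Equiv.Perm S} {c : K}
    (hσ : ∀ M : S, (σ M : Module.End K V) = c • (M : Module.End K V)) (A B : S) :
    ps S o (σ A) (σ B) = c ^ (Module.finrank K V * o) * ps S o A B := by
  unfold ps
  rw [hσ, hσ, ← smul_sub, LinearMap.det_smul, mul_pow, ← pow_mul]

/-- the group of the permutations which preserve the cocycle -/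
noncomputable def GG (S : Set (Module.End K V)) (o : ℕ) : Subgroup (Equiv.Perm S) where
  carrier := {g | ∀ A B, ps S o (g A) (g B) = ps S o A B}
  one_mem' := fun _ _ => rfl
  mul_mem' := by
    intro g h hg hh A B
    rw [Equiv.Perm.mul_apply, Equiv.Perm.mul_apply, hg, hh]
  inv_mem' := by
    intro g hg A B
    have h1 := hg (g⁻¹ A) (g⁻¹ B)
    rw [ap_inv, ap_inv] at h1
    exact h1.symm

theorem mem_GG {o : ℕ} {g : Equiv.Perm S} :
    g ∈ GG S o ↔ ∀ A B, ps S o (g A) (g B) = ps S o A B := Iff.rfl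

/-- the group of the scalars -/
def SS (S : Set (Module.End K V)) : Subgroup (Equiv.Perm S) where
  carrier := {σ | ∃ c : K, c ≠ 0 ∧ ∀ M : S, (σ M : Module.End K V) = c • (M : Module.End K V)}
  one_mem' := ⟨1, one_ne_zero, fun M => by rw [one_smul]; rfl⟩
  mul_mem' := by
    rintro g h ⟨c, hc, hg⟩ ⟨d, hd, hh⟩
    refine ⟨c * d, mul_ne_zero hc hd, fun M => ?_⟩
    rw [Equiv.Perm.mul_apply, hg, hh, smul_smul]
  inv_mem' := by
    rintro g ⟨c, hc, hg⟩
    refine ⟨c⁻¹, inv_ne_zero hc, fun M => ?_⟩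
    have h1 := hg (g⁻¹ M)
    rw [ap_inv] at h1
    rw [h1, smul_smul, inv_mul_cancel₀ hc, one_smul]

theorem mem_SS {σ : Equiv.Perm S} : σ ∈ SS S ↔ ∃ c : K, c ≠ 0 ∧
    ∀ M : S, (σ M : Module.End K V) = c • (M : Module.End K V) := Iff.rfl

/-- the scalar permutation -/
noncomputable def sc (hS : HS K V S) (c : K) (hc : c ≠ 0) : Equiv.Perm S where
  toFun M := ⟨c • (M : Module.End K V), hS.smul c _ M.2⟩
  invFun M := ⟨c⁻¹ • (M : Module.End K V), hS.smul c⁻¹ _ M.2⟩
  left_inv M := Subtype.ext (by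
    show c⁻¹ • c • (M : Module.End K V) = M
    rw [smul_smul, inv_mul_cancel₀ hc, one_smul])
  right_inv M := Subtype.ext (by
    show c • c⁻¹ • (M : Module.End K V) = M
    rw [smul_smul, mul_inv_cancel₀ hc, one_smul])

end Z4

open Z4 in
theorem s_IHZ4 : S_IHZ4 := by
  intro hGF hGT hZ1 hSG hPW hE K V _ _ _ _ _ S hS h30 hodd a o ho hcard h3 hZ3
  have h20 : (2 : K) ≠ 0 := by
    intro h2
    have h1 : (1 : K) = 3 - 2 := by norm_num
    rw [h30, h2, sub_zero] at h1
    exact one_ne_zero h1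
  have : Finite (Module.End K V) :=
    Finite.of_injective (fun f : Module.End K V => (f : V → V)) DFunLike.coe_injective
  have hmpos : 0 < Module.finrank K V := hodd.pos
  have : Nontrivial V := Module.nontrivial_of_finrank_pos hmpos
  have hopos : o ≠ 0 := ho.pos.ne'
  have hps0 : ∀ A : S, ps S o A A = 0 := by
    intro A
    unfold ps
    rw [sub_self, LinearMap.det_zero'', zero_pow hopos]
  obtain ⟨s, hs0, hs1, hs2⟩ := hSG K h20
  let o0 : S := ⟨0, hS.zero⟩
  let ι : Equiv.Perm S := sc hS (-1) (neg_ne_zero.2 one_ne_zero)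
  have hι : ∀ M : S, (ι M : Module.End K V) = -M := fun M => neg_one_smul K (M : Module.End K V)
  have hιι : ι * ι = 1 := by
    ext1 M
    apply Subtype.ext
    rw [Equiv.Perm.mul_apply, hι, hι, neg_neg]
    rfl
  have hιψ : ∀ A B, ps S o (ι A) (ι B) = -ps S o A B := by
    intro A B
    rw [ps_smul o (c := -1) (fun M => rfl) A B, Odd.neg_one_pow (hodd.mul ho)]
    ring
  have hι0 : ι o0 = o0 := Subtype.ext (by rw [hι]; exact neg_zero)
  have hιSS : ι ∈ SS S := ⟨-1, neg_ne_zero.2 one_ne_zero, fun _ => rfl⟩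
  have hσG : ∀ σ ∈ SS S, ∀ g ∈ GG S o, σ * g * σ⁻¹ ∈ GG S o := by
    rintro σ ⟨c, hc, hσ⟩ g hg A B
    have h1 := ps_smul o hσ (σ⁻¹ A) (σ⁻¹ B)
    rw [ap_inv, ap_inv] at h1
    rw [Equiv.Perm.mul_apply, Equiv.Perm.mul_apply, Equiv.Perm.mul_apply, Equiv.Perm.mul_apply,
      ps_smul o hσ, hg, ← h1]
  have hιG : ∀ g ∈ GG S o, ι * g * ι ∈ GG S o := by
    intro g hg
    have h1 := hσG ι hιSS g hg
    have h2 : ι⁻¹ = ι := inv_eq_of_mul_eq_one_left hιι
    rwa [h2] at h1
  have hT : ∀ p : V, p ≠ 0 → ∃ T : V → Equiv.Perm S, RegAct S V T ∧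
      (∀ (v : V) (M : S), (T v M : Module.End K V) p = (M : Module.End K V) p + v) ∧
      (∀ v, ι * T v * ι = T (-v)) ∧ ∀ v, T v ∈ GG S o := by
    intro p hp
    obtain ⟨T, hT1, hT2, hT3⟩ := hZ1 K V S hS h30 ι hι p hp
    refine ⟨T, hT1, hT2, hT3, fun v A B => ?_⟩
    obtain ⟨C, hC, hCp⟩ := hS.ex p hp ((A : Module.End K V) p - (B : Module.End K V) p)
    have e1 := h3 A A.2 B B.2 C hC p hp hCp
    have e2 := h3 (T v A) (T v A).2 (T v B) (T v B).2 C hC p hp (by
      rw [hT2, hT2, hCp]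
      abel)
    unfold ps
    rw [← e1, ← e2]
  have hχ : Tour S (fun A B => s (ps S o A B)) := by
    constructor
    · intro A B
      show s (ps S o A B) = -s (ps S o B A)
      rw [ps_anti hodd ho B A, hs2]
    · intro A B hAB
      exact hs1 _ (ps_ne hS o hAB)
  obtain ⟨p0, hp0⟩ := exists_ne (0 : V)
  obtain ⟨T0, hT1, hT2, hT3, hT4⟩ := hT p0 hp0
  have hne : ∃ M : S, M ≠ o0 := by
    obtain ⟨M, hM, hMp⟩ := hS.ex p0 hp0 p0
    refine ⟨⟨M, hM⟩, fun h => hp0 ?_⟩
    have h1 : M = 0 := congrArg Subtype.val h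
    rw [← hMp, h1, LinearMap.zero_apply]
  obtain ⟨ζ, hζG, hζ3, hζ0, hιζ, hζE⟩ := hE S V (fun A B => s (ps S o A B)) T0 hχ hT1 (GG S o) ι o0
    (fun g hg A B => by
      show s (ps S o (g A) (g B)) = s (ps S o A B)
      rw [hg A B])
    hT4 hιι
    (fun A B => by
      show s (ps S o (ι A) (ι B)) = -s (ps S o A B)
      rw [hιψ, hs2])
    hι0 hιG hT3 hne
  have hζne : ((ζ o0 : S) : Module.End K V) ≠ 0 := fun h => hζ0 (Subtype.ext h)
  have htr0 : ∀ b : S, ∃ g ∈ GG S o, g o0 = b := by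
    intro b
    obtain ⟨v, hv⟩ := hT1.reg o0 b
    exact ⟨T0 v, hT4 v, hv⟩
  obtain ⟨μ, hμG, hμι, hμs⟩ := hGF S (GG S o) (SS S) ι ζ o0 hιι hιSS
    (fun σ hσ => ⟨by
      obtain ⟨c, hc, hσ'⟩ := hσ
      apply Subtype.ext
      rw [hσ']
      exact smul_zero c, hσG σ hσ⟩) htr0 hζG hζ3 hζ0 hιζ hζE
    (by
      intro b hb
      have hb0 : (b : Module.End K V) ≠ 0 := fun h => hb (Subtype.ext h)
      have hdb : LinearMap.det (b : Module.End K V) ≠ 0 := by
        have := hS.det_ne b.2 hS.zero hb0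
        rwa [sub_zero] at this
      have hdM : LinearMap.det ((ζ o0 : S) : Module.End K V) ≠ 0 := by
        have := hS.det_ne (ζ o0).2 hS.zero hζne
        rwa [sub_zero] at this
      obtain ⟨c, hc, hc1⟩ := hPW K a o (Module.finrank K V) hodd hcard
        (LinearMap.det (b : Module.End K V) / LinearMap.det ((ζ o0 : S) : Module.End K V))
        (div_ne_zero hdb hdM)
      have hval : ((sc hS c hc (ζ o0) : S) : Module.End K V) =
          c • ((ζ o0 : S) : Module.End K V) := rfl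
      obtain ⟨g, hg1, hg2, hg3⟩ := hZ3 (sc hS c hc (ζ o0)) b
        (by rw [hval]; exact smul_ne_zero hc hζne) hb0
        (by
          rw [hval, LinearMap.det_smul, mul_pow, ← pow_mul, hc1, ← mul_pow, div_mul_cancel₀ _ hdM])
      exact ⟨sc hS c hc, ⟨c, hc, fun _ => rfl⟩, g, hg3, Subtype.ext (hg2 o0 rfl), hg1⟩)
    (by
      rintro σ ⟨c, hc, hσ⟩ g hg hg0 hgσ A B
      have h1 : ps S o o0 (ζ o0) = c ^ (Module.finrank K V * o) * ps S o o0 (ζ o0) := by
        have hσ0 : σ o0 = o0 := by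
          apply Subtype.ext
          rw [hσ]
          exact smul_zero c
        have h2 := hg (σ o0) (σ (ζ o0))
        rw [hgσ, ps_smul o hσ] at h2
        rw [hσ0, hg0] at h2
        exact h2
      have h2 : ps S o o0 (ζ o0) ≠ 0 := ps_ne hS o fun h => hζ0 h.symm
      have h3 : c ^ (Module.finrank K V * o) = 1 := by
        have h4 : (c ^ (Module.finrank K V * o) - 1) * ps S o o0 (ζ o0) = 0 := by
          linear_combination -h1
        rcases mul_eq_zero.1 h4 with h5 | h5
        · exact sub_eq_zero.1 h5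
        · exact absurd h5 h2
      rw [ps_smul o hσ, h3, one_mul])
  have h3V : ∀ v : V, v + v + v = 0 := by
    intro v
    have h1 : (3 : K) • v = v + v + v := by
      rw [show (3 : K) = 1 + 1 + 1 by norm_num, add_smul, add_smul, one_smul]
    rw [← h1, h30, zero_smul]
  intro A hA B hB
  by_cases hAB : A = B
  · subst hAB
    have h1 : A + A = -A := by
      ext v
      rw [LinearMap.add_apply, LinearMap.neg_apply, eq_neg_iff_add_eq_zero]
      exact h3V _
    rw [h1]
    exact hS.neg_mem hA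
  · have hne' : (⟨A, hA⟩ : S) ≠ ⟨B, hB⟩ := fun h => hAB (congrArg Subtype.val h)
    have key : ∀ p : V, ((μ ⟨A, hA⟩ ⟨B, hB⟩ : S) : Module.End K V) p = -(A p + B p) := by
      intro p
      by_cases hp : p = 0
      · rw [hp, map_zero, map_zero, map_zero, add_zero, neg_zero]
      · obtain ⟨T, t1, t2, t3, t4⟩ := hT p hp
        have hw : B p - A p ≠ 0 := by
          intro h
          exact hAB (hS.uq A hA B hB p hp (sub_eq_zero.1 h).symm)
        have hTB : T (B p - A p) ⟨A, hA⟩ = ⟨B, hB⟩ := by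
          apply Subtype.ext
          refine hS.uq _ (T (B p - A p) ⟨A, hA⟩).2 B hB p hp ?_
          rw [t2]
          show A p + (B p - A p) = B p
          abel
        have h1 := hGT S V T t1 ι o0 μ hι0 t3 hιι (fun v a b hab => hμG (T v) (t4 v) a b hab)
          hμι hμs ⟨A, hA⟩ (B p - A p) hw
        rw [hTB] at h1
        rw [h1, t2]
        show A p + -(B p - A p) = -(A p + B p)
        have h2 := h3V (A p)
        rw [← sub_eq_zero]
        calc A p + -(B p - A p) - -(A p + B p) = A p + A p + A p := by abel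
          _ = 0 := h2
    have h1 : A + B = -((μ ⟨A, hA⟩ ⟨B, hB⟩ : S) : Module.End K V) := by
      ext v
      rw [LinearMap.neg_apply, key, neg_neg, LinearMap.add_apply]
    rw [h1]
    exact hS.neg_mem (μ ⟨A, hA⟩ ⟨B, hB⟩).2

end Pool.Agent.TP3
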