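import Pool.Agent.Lib.MP_a1e562_co.IH.Asm
import Pool.Agent.Lib.MP_a1e562_co.SF.All
import Pool.Agent.Lib.MP_a1e562_co.A2
import Pool.Agent.Lib.MP_a1e562_co.A4
import Pool.Agent.Lib.MP_a1e562_co.IH.PF1
import Pool.Agent.Lib.MP_a1e562_co.IH.PF2
import Pool.Agent.Lib.MP_a1e562_co.IH.PF3
import Pool.Agent.Lib.MP_a1e562_co.IH.PF4
import Pool.Agent.Lib.MP_a1e562_co.IH.PL1
import Pool.Agent.Lib.MP_a1e562_co.IH.PL2
import Pool.Agent.Lib.MP_a1e562_co.IH.PL3
import Pool.Agent.Lib.MP_a1e562_co.IH.PM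
import Pool.Agent.Lib.MP_a1e562_co.IH.PS1
import Pool.Agent.Lib.MP_a1e562_co.IH.PS2
import Pool.Agent.Lib.MP_a1e562_co.IH.PD1
import Pool.Agent.Lib.MP_a1e562_co.IH.PD2
import Pool.Agent.Lib.MP_a1e562_co.IH.PD3
import Pool.Agent.Lib.MP_a1e562_co.IH.PD4
import Pool.Agent.Lib.MP_a1e562_co.IH.PD5
import Pool.Agent.Lib.MP_a1e562_co.IH.PGA
import Pool.Agent.Lib.MP_a1e562_co.IH.PGO
import Pool.Agent.Lib.MP_a1e562_co.IH.PGB
import Pool.Agent.Lib.MP_a1e562_co.IH.PGC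
import Pool.Agent.Lib.MP_a1e562_co.IH.PGD
import Pool.Agent.Lib.MP_a1e562_co.IH.PGE
import Pool.Agent.Lib.MP_a1e562_co.IH.PGF
import Pool.Agent.Lib.MP_a1e562_co.IH.PGT
import Pool.Agent.Lib.MP_a1e562_co.IH.PZ1
import Pool.Agent.Lib.MP_a1e562_co.IH.PZ2
import Pool.Agent.Lib.MP_a1e562_co.IH.PZ3
import Pool.Agent.Lib.MP_a1e562_co.IH.PZ4
import Pool.Agent.Lib.MP_a1e562_co.IH.PSG
import Pool.Agent.Lib.MP_a1e562_co.IH.PPW
import Pool.Agent.Lib.MP_a1e562_co.IH.PE1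
import Pool.Agent.Lib.MP_a1e562_co.IH.PE2
import Pool.Agent.Lib.MP_a1e562_co.IH.PE3
import Pool.Agent.Lib.MP_a1e562_co.IH.PE4
import Pool.Agent.Lib.MP_a1e562_co.IH.PE5
import Pool.Agent.Lib.MP_a1e562_co.IH.PE6
import Pool.Agent.Lib.MP_a1e562_co.IH.PE7
import Pool.Agent.Lib.MP_a1e562_co.IH.PK0
import Pool.Agent.Lib.MP_a1e562_co.IH.PK1
import Pool.Agent.Lib.MP_a1e562_co.IH.PK2
import Pool.Agent.Lib.MP_a1e562_co.IH.PK3
import Pool.Agent.Lib.MP_a1e562_co.IH.PK4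
import Pool.Agent.Lib.MP_a1e562_co.IH.PK5
import Pool.Agent.Lib.MP_a1e562_co.IH.PK6
import Pool.Agent.Lib.MP_a1e562_co.IH.PK7

/-! # Translation planes of characteristic three with an involutory homology -/

set_option autoImplicit false

namespace Pool.Agent.TP3

open Configuration

theorem ihF : S_IHF := IHA_F s_IHF1 s_IHF2 s_IHF3 s_IHF4

theorem ihL : S_IHL := IHA_L s_IHL1 s_IHL2 s_IHL3

theorem ihOdd : IHOdd where
  F := ihF
  L := ihL
  M := s_IHM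
  S1 := s_IHS1
  S2 := s_IHS2
  D1 := s_IHD1
  D2 := s_IHD2
  D3 := s_IHD3
  D4 := s_IHD4
  D5 := s_IHD5
  FF := s_SFFF
  SYL := s_SFSYL
  GA := s_IHGA
  GO := s_IHGO
  GB := s_IHGB
  GC := s_IHGC
  GD := s_IHGD
  GE := s_IHGE
  GF := s_IHGF
  GT := s_IHGT
  Z1 := s_IHZ1
  Z2 := s_IHZ2
  Z3 := s_IHZ3
  SG := s_IHSG
  PW := s_IHPW
  Z4 := s_IHZ4

theorem ihEven : IHEven where
  toIHOdd := ihOdd
  B9 := s_B9
  PAR := s_SFPAR
  E1 := s_IHE1
  E2 := s_IHE2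
  E3 := s_IHE3
  E4 := s_IHE4
  E5 := s_IHE5
  E6 := s_IHE6
  E7 := s_IHE7

theorem ihGeo : IHGeo where
  toIHEven := ihEven
  A1 := s_A1
  A2 := s_A2
  A4 := s_A4
  K0 := s_IHK0
  K1 := s_IHK1
  K2 := s_IHK2
  K3 := s_IHK3
  K4 := s_IHK4
  K5 := s_IHK5
  K6 := s_IHK6
  K7 := s_IHK7

theorem finite_lines (P L : Type) [Membership P L] [ProjectivePlane P L] [Finite P] : Finite L := by
  have hinj : Function.Injective (fun l : L => {p : P | p ∈ l}) := by
    intro l m hlm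
    have hlm' : ∀ p : P, p ∈ l ↔ p ∈ m := fun p => by
      have := congrArg (fun s : Set P => p ∈ s) hlm
      simpa using this
    by_contra hne
    have hr := HasPoints.mkPoint_ax (P := P) (L := L) hne
    set r := HasPoints.mkPoint (P := P) hne with hrdef
    have huni : ∀ p : P, p ∈ l → p = r := by
      intro p hp
      by_contra hpr
      rcases Nondegenerate.eq_or_eq hp hr.1 ((hlm' p).1 hp) hr.2 with h | h
      · exact hpr h
      · exact hne h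
    obtain ⟨k, hk⟩ := Nondegenerate.exists_line (P := P) (L := L) r
    have hkl : k ≠ l := by
      rintro rfl
      exact hk hr.1
    have h2 := HasPoints.mkPoint_ax (P := P) (L := L) hkl
    apply hk
    rw [← huni _ h2.2]
    exact h2.1
  exact Finite.of_injective _ hinj

theorem involutory_main (P L : Type) [Membership P L] [ProjectivePlane P L] [Finite P]
    (hc : Char3 P L) (h : InvPlane P L)
    (ho : ¬ ∃ k : ℕ, ProjectivePlane.order P L = k ^ 4) : Desarguesian P L := by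
  have : Finite L := finite_lines P L
  exact semifield_main P L hc (ihGeo.semifield P L hc h ho)

end Pool.Agent.TP3
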