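import Pool.Agent.Lib.MP_a1e562_co.IH.Defs

/-!
# Statements of the pieces [IH E1]-[IH E7] (dimension 2 mod 4) and [IH K0]-[IH K7] (geometry)

Put the proof of `S_IHxx` in `IH/Pxx.lean` as `theorem s_IHxx : S_IHxx`.
Definitions and basic lemmas are in `IH/Defs.lean`.
-/

set_option autoImplicit false

namespace Pool.Agent.TP3

open Configuration Polynomial

/-! ## E. dimension 2 mod 4 -/

/-- [IH E1] (about 150 lines) Uniqueness of roots. (Compare `SF/PE2.lean`.)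

Proof. `V ≠ 0` since `B ≠ 0`. `I`, `J` are injective (`z ≠ 0`), `X = B I ≠ 0`. Let `T` be the operator
`X⁻¹ Y`: `B (I (T v)) = X (T v) = Y v = B (J v)`, so `I T = J`. `FldT T` by `fld` for `(Y, X)`; take
`F, E, θ` from `hF` (`S_SFFF`): `E θ = T`, every `f : F` is `aeval θ φ` and `E f = aeval T φ`; `E` is
injective and `E f` is injective for `f ≠ 0`.
`T = z⁻¹ I J`, and `T⁻¹ = J⁻¹ I = z⁻¹ J I`, `I T = J = T⁻¹ I` (as `z⁻¹ J I I = J`). If `θ ^ 2 = 1` then
`θ = 1` or `-1`, `T = ±1` and `J = I T = ± I`. Suppose `θ ^ 2 ≠ 1`. For `f = aeval θ φ` let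
`σ f = aeval θ⁻¹ φ`, i.e. `σ f` is the unique element with `I (E f v) = E (σ f) (I v)` for all `v` (it
exists by the polynomial formula, unique as `I` is surjective and `E` injective). `σ` is a ring
homomorphism `F → F`, `σ (σ f) = f` (`I²` is a scalar), `σ θ = θ⁻¹ ≠ θ`, and `σ` fixes the image of
`z`. By `hB9` for `F`, `σ` and `y = (algebraMap z)⁻¹` there is `α` with `α * σ α = (algebraMap z)⁻¹`.
Then `(E α I)² = E α (E (σ α)) I² = 1`. Take `w ≠ 0`: if `E α (I w) + w = 0` put `v = w`, `α' = -α`,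
otherwise `v = E α (I w) + w`, `α' = α`. Then `v ≠ 0`, `E α' (I v) = v`, `α' * σ α' = α * σ α`.
So `I v = E α'⁻¹ v`. Let `g = σ α'`, `E g = aeval T φ`. `X (E g v) = B (I (E g v))
= B (E (σ g) (I v)) = B (E α' (E α'⁻¹ v)) = B v`. `loc` for `A := Y`, `B := X`, `M := B`, `x := v` gives for
all `f = aeval θ ψ`: `B (E f v) = X (E (g f) v) = B (E (σ g * σ f) (I v)) = B (E (α' σ f α'⁻¹) v)
= B (E (σ f) v)`. So `E (f - σ f) v = 0`, `σ f = f` for all `f`, contradiction. -/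
def S_IHE1 : Prop :=
  S_B9 → S_SFFF → ∀ (K V : Type) [Field K] [Finite K] [AddCommGroup V] [Module K V] [Finite V]
    (S : Set (Module.End K V)), HL K V S → (2 : K) ≠ 0 → ∀ z : K, z ≠ 0 →
    ∀ B ∈ S, B ≠ 0 → ∀ X ∈ S, ∀ Y ∈ S, ∀ I J : Module.End K V, (∀ v, B (I v) = X v) →
      (∀ v, B (J v) = Y v) → (∀ v, I (I v) = z • v) → (∀ v, J (J v) = z • v) → J = I ∨ J = -I

/-- [IH E2] (about 120 lines) Existence of roots.

Proof. `V ≠ 0`; fix `p ≠ 0`, `e = B p ≠ 0`. For `v ≠ 0` let `M ∈ S` with `M p = v` (`M ≠ 0`) and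
`ι v = B (M⁻¹ (B p))`, `ι 0 = 0`. `ι (f • v) = f⁻¹ • ι v` (`f • M`). `ι e = e` (`M = B`).
`ι (ι v) = v`: let `T` be the operator `B⁻¹ M`, `E ∈ S` with `E p = ι v = B (T⁻¹ p)`; `T⁻¹` is a
polynomial `aeval T φ` in `T` (`V` finite: `T⁻¹ = T ^ (N - 1)`), and `loc` (with `ψ = X`) gives
`E (T p) = B (T⁻¹ (T p)) = B p`, so `ι (ι v) = B (E⁻¹ (B p)) = B (T p) = M p = v`.
`hPAR` (`S_SFPAR`, contrapositive, `finrank` even) gives `v` with `ι v = c • v` and `v ≠ f • e` for all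
`f`; `v ≠ 0`, `c ≠ 0`. With `M, T` for `v`: `B (T⁻¹ p) = c • B (T p)`, so `p = c • T (T p)`, and
`FldT T` (`fld` for `(M, B)`) with the polynomial `X ^ 2 - C c⁻¹` gives `T (T w) = c⁻¹ • w` for all `w`.
`c⁻¹` is not a square: if `c⁻¹ = d ^ 2` then `(T - d) ((T + d) p) = 0`; if `(T + d) p = 0` then
`v = B (T p) = - d • e`, otherwise `FldT` gives `T = d`, `v = d • e`; contradiction. The quotient of two
nonsquares of a finite field is a square: `z = f ^ 2 * c⁻¹`, `f ≠ 0`. Take `X = f • M`, `I = f • T`. -/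
def S_IHE2 : Prop :=
  S_SFPAR → ∀ (K V : Type) [Field K] [Finite K] [AddCommGroup V] [Module K V] [Finite V]
    (S : Set (Module.End K V)), HL K V S → (2 : K) ≠ 0 → Even (Module.finrank K V) →
    ∀ z : K, ¬ IsSquare z → ∀ B ∈ S, B ≠ 0 →
    ∃ X ∈ S, ∃ I : Module.End K V, (∀ v, B (I v) = X v) ∧ ∀ v, I (I v) = z • v

/-- [IH E3] (about 50 lines)

Proof. Let `G = aeval T φ`. By `union_ker` it suffices that for every `x` one of `(G - I) x`,
`(G + I) x` is 0. Let `x ≠ 0`, `M ∈ S` with `M x = B (G x)` (`ex`), `J` the operator `B⁻¹ M`. By `loc`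
`M (aeval T ψ x) = B (aeval T (φ * ψ) x)`, so `J x = G x` (`ψ = 1`) and `J (G x) = G (G x) = z • x`
(`ψ = φ`). So `aeval J (X ^ 2 - C z)` kills `x ≠ 0`, and `fld` for `(M, B)` gives `J (J v) = z • v` for all
`v`. `huq` gives `J = ± I`, so `G x = ± I x`. -/
def S_IHE3 : Prop :=
  ∀ (K V : Type) [Field K] [AddCommGroup V] [Module K V] [Finite V]
    (S : Set (Module.End K V)), HL K V S → ∀ z : K, ∀ B ∈ S, B ≠ 0 → ∀ I : Module.End K V,
    (∀ Y ∈ S, ∀ J : Module.End K V, (∀ v, B (J v) = Y v) → (∀ v, J (J v) = z • v) →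
      J = I ∨ J = -I) →
    ∀ A ∈ S, ∀ T : Module.End K V, (∀ v, B (T v) = A v) → ∀ φ : K[X],
      (∀ v, aeval T φ (aeval T φ v) = z • v) → aeval T φ = I ∨ aeval T φ = -I

/-- [IH E4] (about 80 lines)

Proof. `V ≠ 0` as `T ≠ 0`. Take `F, E, θ` from `hF` (`S_SFFF`). `Fˣ` is cyclic, `γ` a generator. The
image of `z` in `F` is not a square: `algebraMap z = f ^ 2`, `E f = aeval T φ`, would give
`aeval T φ (aeval T φ v) = z • v`. `z ≠ 0` (`0` is a square), so `algebraMap z = γ ^ i` with `i` odd.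
Let `δ = det (E γ)`, `m = finrank K V` even. `δ ^ i = det (z • 1) = z ^ m` is a square, and
`δ ^ i = δ * (δ ^ ((i - 1) / 2)) ^ 2` with `δ ≠ 0`, so `δ` is a square. `θ ≠ 0` is a power of `γ`, so
`det T = det (E θ)` is a power of `δ`, a square. -/
def S_IHE4 : Prop :=
  S_SFFF → ∀ (K V : Type) [Field K] [Finite K] [AddCommGroup V] [Module K V] [Finite V]
    (T : Module.End K V), FldT T → T ≠ 0 → Even (Module.finrank K V) →
    ∀ z : K, ¬ IsSquare z → (∀ φ : K[X], ¬ ∀ v, aeval T φ (aeval T φ v) = z • v) →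
    IsSquare (LinearMap.det T)

/-- [IH E5] (about 120 lines)

Proof. `V ≠ 0`. `I` generates a field: `FldT I` (if `g ≠ 0` and `aeval I φ g = 0`: reduce `φ` mod
`X ^ 2 - C z` to `a + b X`; `a g + b I g = 0`; if `b ≠ 0` then `I g = c g`, `z g = c² g`, `z = c²`,
contradiction; so `b = 0`, `a = 0`). Take `F, E, θ` from `hF` (`S_SFFF`), `θ ^ 2 = z`, every `f : F` is
`a + b θ` (`a, b : K`), `finrank K F = 2` (`1, θ` is a basis). `V` is an `F`-module via `E`
(`Module.compHom`), scalar tower, `finrank F V = m`. By `LinearMap.det_restrictScalars`,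
`det_K (E f) = Algebra.norm K (f ^ m) = (Algebra.norm K f) ^ m`, and `Algebra.norm K (a + b θ) =
a ^ 2 - z * b ^ 2` (matrix of multiplication in the basis `1, θ`, or `Algebra.norm` is a product
over the two automorphisms). By `FiniteField.exists_root_sum_quadratic` (or `S_B9`-like) there are `a, b`
with `a ^ 2 - z * b ^ 2 = z`. Then `det (a • 1 + b • I) = z ^ m`, `m` odd, is not a square. -/
def S_IHE5 : Prop :=
  S_SFFF → ∀ (K V : Type) [Field K] [Finite K] [AddCommGroup V] [Module K V] [Finite V]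
    (I : Module.End K V) (z : K) (m : ℕ), (2 : K) ≠ 0 → ¬ IsSquare z → (∀ v, I (I v) = z • v) →
    Module.finrank K V = 2 * m → Odd m →
    ∃ a b : K, ¬ IsSquare (LinearMap.det (a • (1 : Module.End K V) + b • I))

/-- [IH E6] (about 200 lines) The roots are central.

Hypotheses for this `K, V, S, z`: `h1` uniqueness, `h2` existence of roots for every base,
`h3` (E3), `h4` (E4), `h5` (E5). `z ≠ 0` as it is not a square; `V ≠ 0`.
Proof. For `M ∈ S`, `M ≠ 0` let `I_M` be the operator of `h2` for the base `M` (`M I_M ∈ S`), unique up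
to sign by `h1`; `I = I_1` (base `1`), so `I ∈ S`.
(α) Let `M, N ∈ S` be nonzero, `T = M⁻¹ N` (operator), and suppose that
`aeval T φ (aeval T φ v) = z • v` for some `φ`. By `h3` (base `M`) `aeval T φ = ± I_M`. `T` is a power of
`T⁻¹ = N⁻¹ M` (`V` finite), so `aeval T φ = aeval T⁻¹ φ'`, and `h3` (base `N`) gives
`aeval T φ = ± I_N`. So `I_N = ± I_M`, and `I_M` commutes with `T`.
(β) For `M ∈ S`, `M ≠ 0` and `a, b : K`: `a • M + b • (M * I_M) ∈ S`. For `b = 0` by `smul`. Let `b ≠ 0`,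
`x ≠ 0`, `N ∈ S` with `N x = M ((a + b I_M) x)`, `J` the operator `M⁻¹ N`. `loc` for
`A := M * I_M`, `B := M`, `T := I_M`, `φ = C a + C b * X`: `J x = (a + b I_M) x` and
`J (I_M x) = (a + b I_M) (I_M x)`. So `(J - a) x = b I_M x`, `(J - a) ((J - a) x) = b² z x`, and `fld`
for `(N, M)` gives `(J - a)² = b² z`. So `aeval J (C b⁻¹ * (X - C a))` squares to `z`, and `h3` gives
`b⁻¹ (J - a) = ± I_M`; the sign `-` is impossible at `x` (`2 b I_M x ≠ 0`), so `J = a + b I_M`,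
`N = a • M + b • (M * I_M)`.
(γ) By `h5` there are `a, b` with `det (a • 1 + b • I)` not a square. `U = a • 1 + b • I ∈ S` by (β),
`U ≠ 0` and `b ≠ 0` (`det (a • 1) = a ^ (2 m)` is a square, `det 0 = 0`). The operator `b⁻¹ (U - a) = I`
is a polynomial in `U = 1⁻¹ U`, so (α) for `M = 1`, `N = U` gives `I_U = ± I`.
(δ) Let `M ∈ S`, `M ≠ 0`. If `det M` is not a square then `h4` for `T = M` (`FldT M` by `fld` for
`(M, 1)`) gives `φ` as in (α) for the pair `(1, M)`, so `I_M = ± I` and `I` commutes with `M`. If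
`det M` is a square, then for `T = U⁻¹ M`, `det T = det M / det U` is not a square, `h4` gives `φ` as in
(α) for `(U, M)`, so `I_M = ± I_U = ± I` and `I` commutes with `U⁻¹ M`, and with `U`, so with `M`.
By (β) `a • M + b • (M * I) ∈ S` for all `a, b` (also for `M = 0`). -/
def S_IHE6 : Prop :=
  ∀ (K V : Type) [Field K] [Finite K] [AddCommGroup V] [Module K V] [Finite V]
    (S : Set (Module.End K V)) (z : K) (m : ℕ), HL K V S → (2 : K) ≠ 0 → ¬ IsSquare z →
    Module.finrank K V = 2 * m → Odd m → (1 : Module.End K V) ∈ S →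
    (∀ B ∈ S, B ≠ 0 → ∀ X ∈ S, ∀ Y ∈ S, ∀ I J : Module.End K V, (∀ v, B (I v) = X v) →
      (∀ v, B (J v) = Y v) → (∀ v, I (I v) = z • v) → (∀ v, J (J v) = z • v) →
      J = I ∨ J = -I) →
    (∀ B ∈ S, B ≠ 0 →
      ∃ X ∈ S, ∃ I : Module.End K V, (∀ v, B (I v) = X v) ∧ ∀ v, I (I v) = z • v) →
    (∀ B ∈ S, B ≠ 0 → ∀ I : Module.End K V,
      (∀ Y ∈ S, ∀ J : Module.End K V, (∀ v, B (J v) = Y v) → (∀ v, J (J v) = z • v) →
        J = I ∨ J = -I) →
      ∀ A ∈ S, ∀ T : Module.End K V, (∀ v, B (T v) = A v) → ∀ φ : K[X],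
        (∀ v, aeval T φ (aeval T φ v) = z • v) → aeval T φ = I ∨ aeval T φ = -I) →
    (∀ T : Module.End K V, FldT T → T ≠ 0 →
      (∀ φ : K[X], ¬ ∀ v, aeval T φ (aeval T φ v) = z • v) → IsSquare (LinearMap.det T)) →
    (∀ I : Module.End K V, (∀ v, I (I v) = z • v) →
      ∃ a b : K, ¬ IsSquare (LinearMap.det (a • (1 : Module.End K V) + b • I))) →
    ∃ I : Module.End K V, (∀ v, I (I v) = z • v) ∧ (∀ M ∈ S, ∀ v, M (I v) = I (M v)) ∧
      ∀ M ∈ S, ∀ a b : K, a • M + b • (M * I) ∈ S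

/-- [IH E7] (about 120 lines) The larger field.

Proof. `V ≠ 0` (`finrank = 2 m`, `m` odd). `FldT I` as in E5. Take `F, E, θ` from `hF` (`S_SFFF`):
`E θ = I`, `F = K[θ]`, every `f : F` is `a + b θ`, `finrank K F = 2`. `K' = F` with the module structure
`f • v = E f v` (`Module.compHom`). `S'` = the set of the `F`-linear maps `M` for which some `N ∈ S` has
`N v = M v` for all `v`. Every `N ∈ S` commutes with `I`, so it is `F`-linear (`E (a + b θ) = a + b I`).
`HS`: `zero` clear; `smul`: `(a + b θ) • M` is `v ↦ a • M v + b • I (M v) = a • M v + b • M (I v)`, in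
`S'` by `hab`; `ex`, `uq`, `hexA`, `hexB` are statements about values only. `3 = 0` in `F`.
`finrank K F * finrank F V = finrank K V` (tower), so `finrank F V = m`. -/
def S_IHE7 : Prop :=
  S_SFFF → ∀ (K V : Type) [Field K] [Finite K] [AddCommGroup V] [Module K V] [Finite V]
    (S : Set (Module.End K V)) (z : K) (m : ℕ) (I : Module.End K V), HS K V S → (3 : K) = 0 →
    ¬ IsSquare z → Module.finrank K V = 2 * m → Odd m → (∀ v, I (I v) = z • v) →
    (∀ M ∈ S, ∀ v, M (I v) = I (M v)) → (∀ M ∈ S, ∀ a b : K, a • M + b • (M * I) ∈ S) →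
    ∃ (K' : Type) (_ : Field K') (_ : Finite K') (_ : Module K' V) (S' : Set (Module.End K' V)),
      HS K' V S' ∧ (3 : K') = 0 ∧ Module.finrank K' V = m ∧
      (∀ M ∈ S', ∃ N ∈ S, ∀ v, N v = M v) ∧ (∀ N ∈ S, ∃ M ∈ S', ∀ v, M v = N v)

/-! ## K. geometry -/

/-- [IH K0] (about 200 lines) Coordinates. (Compare `SF/PG0.lean` and `A6b.lean`.)

Proof. Get `V, S, ℓ, φ` from `InvPlane`. `V` is finite (`V × V` is in bijection with a set of points).
There are points off `ℓ` other than a given one, so `V` has a nonzero element (`V × V` has more than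
one element). Two different points lie on exactly one line, two lines with the same points off `ℓ`,
at least two of them, are equal. `ex`: for `x ≠ 0`, `y` the line joining `φ⁻¹ (0, 0)` and `φ⁻¹ (x, y)`
is not `ℓ` and not of the form `x = c`, so it is `y' = M x' + b` with `b = 0`, `M x = y`. `uq`: if
`M x = N x`, `x ≠ 0`, the lines `y = M x`, `y = N x` have two common points `(0, 0)`, `(x, M x)`, so they
are equal and `M = N`. `pt x y = φ⁻¹ (x, y)`, `inf = ℓ`, `vt c`, `ln M b` (for `M ∈ S`; junk otherwise)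
the given lines, `Z = vt 0 ∩ ℓ`, `Zp M = ln M 0 ∩ ℓ` (`mkPoint`). Parallel lines (`vt c`, `vt c'`; or
`ln M b`, `ln M b'`) have no common point off `ℓ`, so they meet `ℓ` in the same point; this gives
`Z_vt`, `Zp_ln` (if `M = N`). If `Zp M ∈ ln N b` then `Zp M ∈ ln N 0` and the lines `ln M 0`, `ln N 0`
have the common points `Zp M`, `pt 0 0`, so they are equal and `M = N`. Similarly `Z_ln`, `Zp_vt`
(compare the points `(0, y)`, `y ≠ 0`). `pts`: a point of `ℓ` is joined to `pt 0 0` by `vt 0` or some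
`ln M 0`. `lns` from the hypothesis. -/
def S_IHK0 : Prop :=
  ∀ (P L : Type) [Membership P L] [ProjectivePlane P L] [Finite P], InvPlane P L →
    ∃ (V : Type) (_ : AddCommGroup V) (_ : Finite V) (C : ACoor P L V),
      (∃ x : V, x ≠ 0) ∧ ∀ M ∈ C.S, -M ∈ C.S

/-- [IH K1] (about 120 lines) `V` has exponent three. (Compare `A3.lean`, `SF/PG1.lean`.)

Proof. There are `A ≠ B` in `C.S` (`ex` for `x ≠ 0` and two values `y`). `B - A` is injective (`uq`), hence
bijective (`V` finite); so it suffices: `w + w + w = 0` for `w = (B - A) v`, `v ≠ 0`. The points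
`pt 0 0, pt v (B v), Zp A, Z` form a quadrangle (`pt 0 0, pt v (B v)` lie on `ln B 0` only,
`Zp A, Z` on `inf` only, ..). Take `D` from `Quad4`. The lines `inf`, `ln B 0`, `vt 0`, `ln A 0`, `vt v` meet
`D` twice; `Zp B = inf ∩ ln B 0 ∈ D`. Let `Y = {y | pt 0 y ∈ D}`. `vt 0` has 4 points of `D`, one is
`Z`, the others are `pt 0 y`: `Y` has 3 elements. `0 ∈ Y`, `w ∈ Y` (`ln A w ∋ Zp A, pt v (B v)` meets
`vt 0` in `pt 0 w`). If `y, y' ∈ Y` then `y + y' ∈ Y`: clear if `y = 0`. Let `x` with `(B - A) x = y`;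
`pt x (B x) = ln A y ∩ ln B 0 ∈ D` (`ln A y ∋ Zp A, pt 0 y`), `vt x ∋ Z, pt x (B x)`,
`ln B y' ∋ Zp B, pt 0 y'`, so `pt x (B x + y') = vt x ∩ ln B y' ∈ D`, and `ln A (y + y')` contains
`Zp A` and `pt x (B x + y')` (`A x + y + y' = B x + y'`), so it meets `vt 0` in `pt 0 (y + y') ∈ D`.
`Y` is finite, closed under addition, contains `0`, `|Y| = 3`, so it is a subgroup of order 3 containing
`w`, and `w + w + w = 0`. -/
def S_IHK1 : Prop :=
  ∀ (P L V : Type) [Membership P L] [ProjectivePlane P L] [AddCommGroup V] [Finite V]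
    (_ : ACoor P L V), (∃ x : V, x ≠ 0) → Quad4 P L → ∀ v : V, v + v + v = 0

/-- [IH K2] (about 120 lines) Coordinates over `ZMod 3` with `0, 1` in the spread set.

Proof. Let `V` be a `ZMod 3`-module with `AddCommGroup.zmodModule` (or
`AddCommGroup.zmodModule (n := 3)`). `0 ∈ C.S`: take `x ≠ 0` and `M ∈ C.S` with `M x = 0`; `-M ∈ C.S` and
`(-M) x = M x`, so `M = -M`, `M + M = 0`, and `M v = - (M v + M v) = 0` (exponent 3) for all `v`. Let
`B ∈ C.S` with `B x = x`; `B` is injective (`uq` with `0`), hence bijective. New coordinates: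
`pt' x y = pt x (B y)`, `Z' = Z`, `inf' = inf`, `vt' = vt`; the new spread set is
`S' = {N | the additive map v ↦ B (N v) is in C.S}`, `Zp' N = Zp (B ∘ N)`, `ln' N b = ln (B ∘ N) (B b)`.
`0, 1 ∈ S'`. `pt' x y ∈ ln' N b ↔ B y = B (N x) + B b ↔ y = N x + b`. Every `M ∈ C.S` is `B ∘ N` for
exactly one `N = B⁻¹ M` (additive maps are `ZMod 3`-linear: `AddMonoidHom.toZModLinearMap`). The other
conditions are transported. `-N ∈ S'` since `-(B ∘ N) ∈ C.S`. -/
def S_IHK2 : Prop :=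
  ∀ (P L V : Type) [Membership P L] [ProjectivePlane P L] [AddCommGroup V] [Finite V]
    (C : ACoor P L V), (∃ x : V, x ≠ 0) → (∀ M ∈ C.S, -M ∈ C.S) → (∀ v : V, v + v + v = 0) →
    ∃ (_ : Module (ZMod 3) V) (C' : Coor P L (ZMod 3) V), ∀ M ∈ C'.S, -M ∈ C'.S

/-- [IH K3] (about 100 lines) Exchange of the axes. (Copy of `A5.lean`, `Finite U` instead of
`finrank = 2`.)

Proof. See the docstring of `S_A5` in `Stm.lean`: `pt' x y = pt y x`, `Z' = Zp 0`, `Zp' 0 = Z`,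
`Zp' M = Zp N` for `M ≠ 0`, `N ∈ C.S` the inverse of `M`; `vt' c = ln 0 c`, `ln' 0 b = vt b`,
`ln' M b = ln N (-(N b))`, `inf' = inf`. Every nonzero `N ∈ C.S` is injective, hence bijective as `U` is
finite. -/
def S_IHK3 : Prop :=
  ∀ (P L K U : Type) [Membership P L] [ProjectivePlane P L] [Field K] [AddCommGroup U]
    [Module K U] [Finite U], ∀ C : Coor P L K U, ∃ C' : Coor P L K U,
      C'.S = {M | M = 0 ∨ ∃ N ∈ C.S, N * M = 1 ∧ M * N = 1}

/-- [IH K4] (about 150 lines) The hexagon law (A).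

Proof. If `y = 0` clear. If `P x = 0`: `P = 0`, `Q y = 0`, `Q = 0`, `R x = 0`, `R = 0`, clear. If `y = x`:
`P = Q`, `R x = 2 Q x = (-Q) x`, `R = -Q` (`-Q ∈ S`), `R y = - Q y = 2 Q y`. If `y = -x`: `P = -Q`, `R x = 0`,
`R = 0`, and `P y + Q y = 0`. Otherwise `x, y` are linearly independent over `ZMod 3` (also `x, -y`).
Let `δ = P x = Q y ≠ 0`, and let `a, b` be the permutations of `S`: `(a M) x = M x + δ`,
`(b M) y = M y + δ` (`ex`, `uq`); `a³ = 1`, `b³ = 1` (`3 δ = 0`). The first conclusion of `Hex` for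
`(x, y, δ)` says `(b⁻¹ a)³ = 1` (`y_i = a x_i`, `x_(i+1) = b⁻¹ y_i`); for `(x, -y, δ)` it says
`(b a)³ = 1` (`(b' M) (-y) = M (-y) + δ` is `b' = b⁻¹`). Put `[g, h] = g h g⁻¹ h⁻¹`.
Group computation: let `a³ = b³ = (b a)³ = (b⁻¹ a)³ = 1` (so also `(a b)³ = (a b⁻¹)³ = 1`). Then
`[a, b] = a b a a b⁻¹ = (a b a) (a b⁻¹) = b⁻¹ a⁻¹ b⁻¹ a b⁻¹ = b⁻¹ a⁻¹ (a⁻¹ b a⁻¹) = b⁻¹ a b a⁻¹`, that is
`[a, b] = [b⁻¹, a]`. Applied to `(b, a⁻¹)`: `[b, a⁻¹] = [a, b]`, so `[a, b] = b a⁻¹ b⁻¹ a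
= a⁻¹ [a, b] a`, i.e. `a` commutes with `z = [a, b]`; then `z = [b⁻¹, a] = b⁻¹ (a b a⁻¹ b⁻¹) b = b⁻¹ z b`,
so `b` commutes with `z`, and `[a⁻¹, b⁻¹] = a⁻¹ b⁻¹ a b = a⁻¹ (b⁻¹ a b a⁻¹) a = a⁻¹ z a = z`.
Let `ι M = -M` on `S`; `ι a ι = a⁻¹`, `ι b ι = b⁻¹`, so `ι z ι = [a⁻¹, b⁻¹] = z`. So `ι (z 0) = z 0`,
i.e. `-N = N` for `N = z 0`, `N = 0` (`2 ≠ 0`). From `z = a⁻¹ b⁻¹ a b`: `a (b 0) = b (a 0)`. `a 0 = P`, `b 0 = Q`
(`uq`). `R' = a Q = b P`: `R' x = Q x + δ = P x + Q x = R x`, so `R' = R`, and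
`R y = P y + δ = P y + Q y`. -/
def S_IHK4 : Prop :=
  ∀ (U : Type) [AddCommGroup U] [Module (ZMod 3) U] (S : Set (Module.End (ZMod 3) U)),
    SpreadSet (ZMod 3) U S → (∀ M ∈ S, -M ∈ S) → Hex (ZMod 3) U S →
    ∀ P ∈ S, ∀ Q ∈ S, ∀ R ∈ S, ∀ x y : U, x ≠ 0 → P x = Q y → R x = P x + Q x →
      R y = P y + Q y

/-- [IH K5] (about 50 lines) The hexagon law (B).

Proof. Nonzero members of `S` are bijective. If `a = 0` then `b = 0`, `c = 0` and both sides are 0. Let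
`a ≠ 0`, `w = P a ≠ 0`; `R ≠ 0` since `R (a + b) = w`. Let `P', Q', R'` be the inverses of `P, Q, R`; apply
the hypothesis to them, `x = w`, `y = Q a`: `P' w = a = Q' (Q a)`, `R' w = a + b = P' w + Q' w`
(`Q' w = Q' (Q b) = b`). So `R' (Q a) = P' (Q a) + Q' (Q a) = c + a`, i.e. `R (c + a) = Q a`. -/
def S_IHK5 : Prop :=
  ∀ (K U : Type) [Field K] [AddCommGroup U] [Module K U] [Finite U] (S : Set (Module.End K U)),
    SpreadSet K U S →
    (∀ P ∈ {M : Module.End K U | M = 0 ∨ ∃ N ∈ S, N * M = 1 ∧ M * N = 1},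
      ∀ Q ∈ {M : Module.End K U | M = 0 ∨ ∃ N ∈ S, N * M = 1 ∧ M * N = 1},
      ∀ R ∈ {M : Module.End K U | M = 0 ∨ ∃ N ∈ S, N * M = 1 ∧ M * N = 1},
      ∀ x y : U, x ≠ 0 → P x = Q y → R x = P x + Q x → R y = P y + Q y) →
    ∀ P ∈ S, ∀ Q ∈ S, ∀ R ∈ S, ∀ a b c : U, P ≠ 0 → Q ≠ 0 → P a = Q b →
      R (a + b) = P a → P c = Q a → R (c + a) = Q a

/-- [IH K6] (about 80 lines) Back to semifield planes.

Proof. Fix `e ≠ 0`. For `k : U` let `m k ∈ C.S` with `m k e = k` (`ex`, unique by `uq`);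
`m (k + l) = m k + m l` by `uq` and `hadd`. `mul x k = m k x` is biadditive (`AddMonoidHom.mk'` twice);
`mul x k = 0`, `x ≠ 0` gives `m k = 0` (`uq` with `0 ∈ C.S`), `k = 0`. `ℓ = inf`; the bijection of
the points off `inf` with `U × U` from `pt` (`pts`, `pt_inf`, injective: `pt x y ∈ vt c ↔ x = c`,
`pt x y ∈ ln 0 b ↔ y = b`). Lines `≠ inf` are `vt c` or `ln M b`, `M = m (M e)`. -/
def S_IHK6 : Prop :=
  ∀ (P L K U : Type) [Membership P L] [ProjectivePlane P L] [Field K] [AddCommGroup U]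
    [Module K U] (C : Coor P L K U), (∃ x : U, x ≠ 0) →
    (∀ A ∈ C.S, ∀ B ∈ C.S, A + B ∈ C.S) → SemifieldPlane P L

/-- [IH K7] (about 50 lines) The order.

Proof. The line `vt 0` has exactly the points `Z` and `pt 0 y`, `y : U` (different from each other), so
`Nat.card U + 1` points, and it has `order + 1` points (`ProjectivePlane.pointCount_eq`). -/
def S_IHK7 : Prop :=
  ∀ (P L K U : Type) [Membership P L] [ProjectivePlane P L] [Finite P] [Finite L] [Field K]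
    [AddCommGroup U] [Module K U] [Finite U] (_ : Coor P L K U),
    ProjectivePlane.order P L = Nat.card U

end Pool.Agent.TP3
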