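import Pool.Agent.Lib.MP_a1e562_co.IH.Stm
import Pool.Agent.Lib.MP_a1e562_co.IH.Stm2

/-! # Assembly: translation planes of characteristic three with an involutory homology -/

set_option autoImplicit false

namespace Pool.Agent.TP3

open Configuration Polynomial

theorem IHA_F (h1 : S_IHF1) (h2 : S_IHF2) (h3 : S_IHF3) (h4 : S_IHF4) : S_IHF := by
  intro K R _ _ _ _ _ h Φ T hΦ hT f
  obtain ⟨Φ0, hsub, h0, hmul⟩ := h1 K R Φ T hΦ hT
  obtain ⟨θ, hθ, hθ0, hpow⟩ := h2 K R Φ0 T h0 hmul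
  exact hsub (h4 h3 K R h Φ0 T θ h0 hT hmul hθ hθ0 hpow f)

theorem IHA_L (l1 : S_IHL1) (l2 : S_IHL2) (l3 : S_IHL3) : S_IHL := by
  intro K V R _ _ _ _ _ _ S ev T hS hev h1 hT
  have hB := l1 K V R S ev hS hev
  exact { toPhiB := hB, one := h1, gen := hT,
          sq := l2 K V R S ev hS hev hB, add3 := l3 K V R S ev hS hev hB }

theorem IHA_HL (hF : S_IHF) (hL : S_IHL) (hM : S_IHM) (s1 : S_IHS1) (s2 : S_IHS2)
    {K V : Type} [Field K] [AddCommGroup V] [Module K V] [Finite V] {S : Set (Module.End K V)}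
    (hS : HS K V S) (h3 : (3 : K) = 0) : HL K V S where
  toHS := hS
  loc A hA B hB hB0 T hT x φ hx M hMS hMx :=
    (s1 hF hL hM K V S hS h3 A hA B hB hB0 T hT x hx φ).1 M hMS hMx
  fld A hA B hB hB0 T hT :=
    s2 K V T (fun x hx φ h => (s1 hF hL hM K V S hS h3 A hA B hB hB0 T hT x hx φ).2 h)

theorem IHA_two {K : Type} [Field K] (h3 : (3 : K) = 0) : (2 : K) ≠ 0 := by
  intro h2
  have : (1 : K) = 3 - 2 := by norm_num
  rw [h3, h2, sub_zero] at this
  exact one_ne_zero this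

/-- the number of nonzero elements of a finite field of odd characteristic is even -/
theorem IHA_card {K : Type} [Field K] [Finite K] (h2 : (2 : K) ≠ 0) :
    ∃ a o : ℕ, a ≠ 0 ∧ Odd o ∧ Nat.card K - 1 = 2 ^ a * o := by
  have := Fintype.ofFinite K
  have hc : ringChar K ≠ 2 := by
    intro hc
    have : ((2 : ℕ) : K) = 0 := by
      rw [← hc]; exact ringChar.Nat.cast_ringChar
    exact h2 (by exact_mod_cast this)
  have hodd : Fintype.card K % 2 = 1 := FiniteField.odd_card_of_char_ne_two hc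
  have h1 : 1 < Fintype.card K := Fintype.one_lt_card
  obtain ⟨a, o, ho, hao⟩ := Nat.exists_eq_two_pow_mul_odd (n := Nat.card K - 1) (by
    rw [Nat.card_eq_fintype_card]; omega)
  refine ⟨a, o, ?_, ho, hao⟩
  rintro rfl
  rw [pow_zero, one_mul, Nat.card_eq_fintype_card] at hao
  obtain ⟨k, rfl⟩ := ho
  omega

/-- the pieces used for odd dimension -/
structure IHOdd : Prop where
  F : S_IHF
  L : S_IHL
  M : S_IHM
  S1 : S_IHS1
  S2 : S_IHS2
  D1 : S_IHD1
  D2 : S_IHD2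
  D3 : S_IHD3
  D4 : S_IHD4
  D5 : S_IHD5
  FF : S_SFFF
  SYL : S_SFSYL
  GA : S_IHGA
  GO : S_IHGO
  GB : S_IHGB
  GC : S_IHGC
  GD : S_IHGD
  GE : S_IHGE
  GF : S_IHGF
  GT : S_IHGT
  Z1 : S_IHZ1
  Z2 : S_IHZ2
  Z3 : S_IHZ3
  SG : S_IHSG
  PW : S_IHPW
  Z4 : S_IHZ4

theorem IHOdd.HL (p : IHOdd) {K V : Type} [Field K] [AddCommGroup V] [Module K V] [Finite V]
    {S : Set (Module.End K V)} (hS : HS K V S) (h3 : (3 : K) = 0) : HL K V S :=
  IHA_HL p.F p.L p.M p.S1 p.S2 hS h3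

/-- odd dimension -/
theorem IHOdd.add (p : IHOdd) {K V : Type} [Field K] [Finite K] [AddCommGroup V] [Module K V]
    [Finite V] {S : Set (Module.End K V)} (hS : HS K V S) (h3 : (3 : K) = 0)
    (hd : Odd (Module.finrank K V)) : ∀ A ∈ S, ∀ B ∈ S, A + B ∈ S := by
  have hl := p.HL hS h3
  have hdp : DetP S := p.D2 p.D1 K V S hl
  have h3' := p.D3 K V S hl hdp
  obtain ⟨a, o, ha, ho, hao⟩ := IHA_card (IHA_two h3)
  have h4 := p.D4 p.FF K V S hl hdp h3' hd
  have h5 := p.D5 p.FF K V S hl hdp hd a o ha ho hao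
  have hz3 := p.Z3 p.Z2 K V S hS hd o h4 h5
  exact p.Z4 p.GF p.GT p.Z1 p.SG p.PW (p.GE p.SYL p.GO p.GA p.GB p.GC p.GD) K V S hS h3 hd a o ho
    hao h3' hz3

/-- the pieces used for even dimension -/
structure IHEven : Prop extends IHOdd where
  B9 : S_B9
  PAR : S_SFPAR
  E1 : S_IHE1
  E2 : S_IHE2
  E3 : S_IHE3
  E4 : S_IHE4
  E5 : S_IHE5
  E6 : S_IHE6
  E7 : S_IHE7

/-- dimension 2 mod 4 -/
theorem IHEven.add (p : IHEven) {K V : Type} [Field K] [Finite K] [AddCommGroup V] [Module K V]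
    [Finite V] {S : Set (Module.End K V)} (hS : HS K V S) (h1 : (1 : Module.End K V) ∈ S)
    (h3 : (3 : K) = 0) (m : ℕ)
    (hd : Module.finrank K V = 2 * m) (hm : Odd m) : ∀ A ∈ S, ∀ B ∈ S, A + B ∈ S := by
  have hl := p.HL hS h3
  have h2 := IHA_two h3
  have hchar : ringChar K ≠ 2 := by
    intro hc
    have : ((2 : ℕ) : K) = 0 := by
      rw [← hc]; exact ringChar.Nat.cast_ringChar
    exact h2 (by exact_mod_cast this)
  obtain ⟨z, hz⟩ := FiniteField.exists_nonsquare (F := K) hchar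
  have hz0 : z ≠ 0 := by
    rintro rfl
    exact hz (IsSquare.zero)
  have hev : Even (Module.finrank K V) := by rw [hd]; exact even_two_mul m
  obtain ⟨I, hI, hcom, hab⟩ := p.E6 K V S z m hl h2 hz hd hm h1
    (p.E1 p.B9 p.FF K V S hl h2 z hz0) (p.E2 p.PAR K V S hl h2 hev z hz)
    (fun B hB hB0 I huq => p.E3 K V S hl z B hB hB0 I huq)
    (fun T hT hT0 h => p.E4 p.FF K V T hT hT0 hev z hz h)
    (fun I hI => p.E5 p.FF K V I z m h2 hz hI hd hm)
  obtain ⟨K', iF, iFin, iMod, S', hS', h3', hdim, hs1, hs2⟩ :=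
    p.E7 p.FF K V S z m I hS h3 hz hd hm hI hcom hab
  have hadd := p.toIHOdd.add hS' h3' (by rw [hdim]; exact hm)
  intro A hA B hB
  obtain ⟨A', hA', eA⟩ := hs2 A hA
  obtain ⟨B', hB', eB⟩ := hs2 B hB
  obtain ⟨C, hC, eC⟩ := hs1 _ (hadd A' hA' B' hB')
  have : A + B = C := by
    apply LinearMap.ext
    intro v
    rw [eC, LinearMap.add_apply, LinearMap.add_apply, eA, eB]
  rw [this]
  exact hC

/-- the pieces used for the geometry -/
structure IHGeo : Prop extends IHEven where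
  A1 : S_A1
  A2 : S_A2
  A4 : S_A4
  K0 : S_IHK0
  K1 : S_IHK1
  K2 : S_IHK2
  K3 : S_IHK3
  K4 : S_IHK4
  K5 : S_IHK5
  K6 : S_IHK6
  K7 : S_IHK7

theorem IHGeo.spread {P L K U : Type} [Membership P L] [ProjectivePlane P L] [Field K]
    [AddCommGroup U] [Module K U] (C : Coor P L K U) : SpreadSet K U C.S :=
  ⟨C.zero, C.one, C.ex, C.uq⟩

/-- the spread set of a plane satisfies the two hexagon laws -/
theorem IHGeo.HS (p : IHGeo) {P L V : Type} [Membership P L] [ProjectivePlane P L]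
    [AddCommGroup V] [Module (ZMod 3) V] [Finite V] (C : Coor P L (ZMod 3) V)
    (hneg : ∀ M ∈ C.S, -M ∈ C.S) (hinc : Inc P L) : HS (ZMod 3) V C.S := by
  obtain ⟨C', hC'⟩ := p.K3 P L (ZMod 3) V C
  have hneg' : ∀ M ∈ C'.S, -M ∈ C'.S := by
    intro M hM
    rw [hC'] at hM ⊢
    rcases hM with rfl | ⟨N, hN, h1, h2⟩
    · exact Or.inl (by simp)
    · exact Or.inr ⟨-N, hneg N hN, by simp [h1], by simp [h2]⟩
  have hA := p.K4 V C.S (IHGeo.spread C) hneg (p.A4 P L (ZMod 3) V C hinc)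
  have hA' := p.K4 V C'.S (IHGeo.spread C') hneg' (p.A4 P L (ZMod 3) V C' hinc)
  rw [hC'] at hA'
  refine { zero := C.zero, smul := ?_, ex := C.ex, uq := C.uq, hexA := hA,
           hexB := p.K5 (ZMod 3) V C.S (IHGeo.spread C) hA' }
  intro c M hM
  have hc : c = 0 ∨ c = 1 ∨ c = -1 := by revert c; decide
  rcases hc with rfl | rfl | rfl
  · rw [zero_smul]; exact C.zero
  · rw [one_smul]; exact hM
  · rw [neg_smul, one_smul]; exact hneg M hM

/-- the plane is a semifield plane -/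
theorem IHGeo.semifield (p : IHGeo) (P L : Type) [Membership P L] [ProjectivePlane P L]
    [Finite P] [Finite L] (hc : Char3 P L) (h : InvPlane P L)
    (ho : ¬ ∃ k : ℕ, ProjectivePlane.order P L = k ^ 4) : SemifieldPlane P L := by
  have h4 := p.A1 P L hc
  have hinc := p.A2 P L h4
  obtain ⟨V, iV, iFin, C, hne, hneg⟩ := p.K0 P L h
  have hexp := p.K1 P L V C hne h4
  obtain ⟨iM, C', hneg'⟩ := p.K2 P L V C hne hneg hexp
  have hS := p.HS C' hneg' hinc
  have h3 : (3 : ZMod 3) = 0 := by decide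
  have hcard : Nat.card V = 3 ^ Module.finrank (ZMod 3) V := by
    rw [Module.natCard_eq_pow_finrank (K := ZMod 3)]
    simp
  have hord := p.K7 P L (ZMod 3) V C'
  have hadd : ∀ A ∈ C'.S, ∀ B ∈ C'.S, A + B ∈ C'.S := by
    rcases Nat.even_or_odd (Module.finrank (ZMod 3) V) with he | hodd
    · obtain ⟨m, hm⟩ := he
      have hm' : Module.finrank (ZMod 3) V = 2 * m := by rw [hm]; ring
      rcases Nat.even_or_odd m with he' | hodd'
      · exfalso
        obtain ⟨k, hk⟩ := he'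
        apply ho
        refine ⟨3 ^ k, ?_⟩
        rw [hord, hcard, hm', hk, ← pow_mul]
        congr 1
        ring
      · exact p.toIHEven.add hS C'.one h3 m hm' hodd'
    · exact p.toIHOdd.add hS h3 hodd
  exact p.K6 P L (ZMod 3) V C' hne hadd

end Pool.Agent.TP3
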