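import Pool.Agent.Lib.MP_a1e562_co.SF.Stm

/-!
# Translation planes of characteristic three with an involutory homology: definitions

Notation: `K` a finite field of characteristic 3, `V` a finite `K`-vector space, `S` a set of
`K`-linear maps `V → V` (a spread set, closed under scalars, NOT assumed additive).
-/

set_option autoImplicit false

namespace Pool.Agent.TP3

open Configuration Polynomial

/-! ## statement level -/

/-- Translation plane with an involutory homology with affine axis, in coordinates: the points off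
the line `ℓ` are the pairs `(x, y)`, `x, y ∈ V`, the lines other than `ℓ` are the sets `x = c` and
`y = M x + b`, `M ∈ S`, where `S` is a set of additive maps of `V` with `-M ∈ S` for `M ∈ S`. -/
def InvPlane (P L : Type) [Membership P L] : Prop :=
  ∃ (V : Type) (_ : AddCommGroup V) (S : Set (V →+ V)) (ℓ : L)
    (φ : {x : P // x ∉ ℓ} ≃ V × V),
    (∀ M ∈ S, -M ∈ S) ∧
    (∀ m : L, m ≠ ℓ →
      (∃ c : V, ∀ p : {x : P // x ∉ ℓ}, (p : P) ∈ m ↔ (φ p).1 = c) ∨
      ∃ M ∈ S, ∃ b : V, ∀ p : {x : P // x ∉ ℓ}, (p : P) ∈ m ↔ (φ p).2 = M (φ p).1 + b) ∧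
    (∀ c : V, ∃ m : L, m ≠ ℓ ∧ ∀ p : {x : P // x ∉ ℓ}, (p : P) ∈ m ↔ (φ p).1 = c) ∧
    (∀ M ∈ S, ∀ b : V, ∃ m : L, m ≠ ℓ ∧
      ∀ p : {x : P // x ∉ ℓ}, (p : P) ∈ m ↔ (φ p).2 = M (φ p).1 + b)

/-! ## coordinates -/

/-- Coordinates of a translation plane with spread set `S` of additive maps `V → V`. -/
structure ACoor (P L V : Type) [Membership P L] [AddCommGroup V] where
  S : Set (V →+ V)
  inf : L
  Z : P
  pt : V → V → P
  Zp : (V →+ V) → P
  vt : V → L
  ln : (V →+ V) → V → L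
  ex : ∀ x : V, x ≠ 0 → ∀ y : V, ∃ M ∈ S, M x = y
  uq : ∀ M ∈ S, ∀ N ∈ S, ∀ x : V, x ≠ 0 → M x = N x → M = N
  pts : ∀ q : P, (∃ x y : V, q = pt x y) ∨ (∃ M ∈ S, q = Zp M) ∨ q = Z
  lns : ∀ l : L, l = inf ∨ (∃ c : V, l = vt c) ∨ ∃ M ∈ S, ∃ b : V, l = ln M b
  pt_inf : ∀ x y : V, pt x y ∉ inf
  pt_vt : ∀ x y c : V, pt x y ∈ vt c ↔ x = c
  pt_ln : ∀ M ∈ S, ∀ b x y : V, pt x y ∈ ln M b ↔ y = M x + b
  Zp_inf : ∀ M ∈ S, Zp M ∈ inf
  Zp_vt : ∀ M ∈ S, ∀ c : V, Zp M ∉ vt c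
  Zp_ln : ∀ M ∈ S, ∀ N ∈ S, ∀ b : V, Zp M ∈ ln N b ↔ M = N
  Z_inf : Z ∈ inf
  Z_vt : ∀ c : V, Z ∈ vt c
  Z_ln : ∀ M ∈ S, ∀ b : V, Z ∉ ln M b

/-! ## closure conditions (commutative algebra) -/

/-- basic closure conditions of a subset `Φ` of a commutative `K`-algebra -/
structure PhiB (K R : Type) [Field K] [CommRing R] [Algebra K R] (Φ : Set R) : Prop where
  zero : (0 : R) ∈ Φ
  smul : ∀ c : K, ∀ f ∈ Φ, c • f ∈ Φ
  unit : ∀ f ∈ Φ, ∀ g ∈ Φ, f ≠ g → IsUnit (f - g)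
  add : ∀ g ∈ Φ, ∀ r : R, g ≠ 0 → r * g ∈ Φ → Algebra.adjoin K {r} = ⊤ → r * g + g ∈ Φ

/-- the closure conditions of the local lemma: `f = r g`, `f + g` and `f²/g` are in `Φ` when `f, g`
are in `Φ` and `r = f/g` generates `R`; `f + g` is in `Φ` when `f, g, h` are and `r = f/h`, `s = g/h`
both generate `R`. -/
structure PhiSet (K R : Type) [Field K] [CommRing R] [Algebra K R] (Φ : Set R) (T : R) : Prop
    extends PhiB K R Φ where
  one : (1 : R) ∈ Φ
  gen : T ∈ Φ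
  sq : ∀ g ∈ Φ, ∀ r : R, g ≠ 0 → r * g ∈ Φ → Algebra.adjoin K {r} = ⊤ → r * (r * g) ∈ Φ
  add3 : ∀ h ∈ Φ, ∀ r s : R, h ≠ 0 → r * h ∈ Φ → s * h ∈ Φ →
    Algebra.adjoin K {r} = ⊤ → Algebra.adjoin K {s} = ⊤ → r * h + s * h ∈ Φ

/-! ## spread sets with the hexagon laws -/

/-- A spread set `S` of `K`-linear maps, closed under scalars, with the two hexagon laws:
(A) if `P x = Q y` and `R x = (P + Q) x` then `R y = (P + Q) y`;
(B) the same for the set of the inverses. -/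
structure HS (K V : Type) [Field K] [AddCommGroup V] [Module K V]
    (S : Set (Module.End K V)) : Prop where
  zero : (0 : Module.End K V) ∈ S
  smul : ∀ c : K, ∀ M ∈ S, c • M ∈ S
  ex : ∀ x : V, x ≠ 0 → ∀ y : V, ∃ M ∈ S, M x = y
  uq : ∀ M ∈ S, ∀ N ∈ S, ∀ x : V, x ≠ 0 → M x = N x → M = N
  hexA : ∀ P ∈ S, ∀ Q ∈ S, ∀ R ∈ S, ∀ x y : V, x ≠ 0 → P x = Q y → R x = P x + Q x →
    R y = P y + Q y
  hexB : ∀ P ∈ S, ∀ Q ∈ S, ∀ R ∈ S, ∀ a b c : V, P ≠ 0 → Q ≠ 0 → P a = Q b →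
    R (a + b) = P a → P c = Q a → R (c + a) = Q a

/-- every element of `K[T]` that kills a nonzero vector is zero -/
def FldT {K V : Type} [Field K] [AddCommGroup V] [Module K V] (T : Module.End K V) : Prop :=
  ∀ (g : V) (φ : K[X]), g ≠ 0 → aeval T φ g = 0 → aeval T φ = 0

/-- `HS` together with the structure theorem for the operators `T = B⁻¹ A`, `A, B ∈ S`. -/
structure HL (K V : Type) [Field K] [AddCommGroup V] [Module K V]
    (S : Set (Module.End K V)) : Prop extends HS K V S where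
  loc : ∀ A ∈ S, ∀ B ∈ S, B ≠ 0 → ∀ T : Module.End K V, (∀ v, B (T v) = A v) →
    ∀ (x : V) (φ : K[X]), x ≠ 0 → ∀ M ∈ S, M x = B (aeval T φ x) →
      ∀ ψ : K[X], M (aeval T ψ x) = B (aeval T (φ * ψ) x)
  fld : ∀ A ∈ S, ∀ B ∈ S, B ≠ 0 → ∀ T : Module.End K V, (∀ v, B (T v) = A v) → FldT T

section

variable {K V : Type} [Field K] [AddCommGroup V] [Module K V] {S : Set (Module.End K V)}

theorem HS.neg_mem (h : HS K V S) {M : Module.End K V} (hM : M ∈ S) : -M ∈ S := by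
  have := h.smul (-1) M hM
  simpa using this

theorem HS.inj (h : HS K V S) {B : Module.End K V} (hB : B ∈ S) (hB0 : B ≠ 0) :
    Function.Injective B := by
  intro a b hab
  by_contra hne
  apply hB0
  apply h.uq B hB 0 h.zero (a - b) (sub_ne_zero.2 hne)
  rw [map_sub, hab, sub_self, LinearMap.zero_apply]

theorem HS.surj [Finite V] (h : HS K V S) {B : Module.End K V} (hB : B ∈ S) (hB0 : B ≠ 0) :
    Function.Surjective B := Finite.surjective_of_injective (h.inj hB hB0)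

/-- a nonzero member of `S` as a linear equivalence -/
theorem HS.equiv [Finite V] (h : HS K V S) {B : Module.End K V} (hB : B ∈ S) (hB0 : B ≠ 0) :
    ∃ E : V ≃ₗ[K] V, ∀ v, E v = B v :=
  ⟨LinearEquiv.ofBijective B ⟨h.inj hB hB0, h.surj hB hB0⟩, fun _ => rfl⟩

/-- the operator `T = B⁻¹ A` -/
theorem HS.exT [Finite V] (h : HS K V S) {B : Module.End K V} (hB : B ∈ S) (hB0 : B ≠ 0)
    (A : Module.End K V) : ∃ T : Module.End K V, ∀ v, B (T v) = A v := by
  obtain ⟨E, hE⟩ := h.equiv hB hB0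
  refine ⟨E.symm.toLinearMap ∘ₗ A, fun v => ?_⟩
  rw [← hE]
  simp

theorem HS.apply_ne (h : HS K V S) {B : Module.End K V} (hB : B ∈ S) (hB0 : B ≠ 0) {x : V}
    (hx : x ≠ 0) : B x ≠ 0 := by
  intro h0
  exact hx (h.inj hB hB0 (by rw [h0, map_zero]))

theorem HS.det_ne [Finite V] (h : HS K V S) {A B : Module.End K V} (hA : A ∈ S) (hB : B ∈ S)
    (hAB : A ≠ B) : LinearMap.det (A - B) ≠ 0 := by
  have hinj : Function.Injective (A - B : Module.End K V) := by
    intro a b hab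
    by_contra hne
    apply hAB
    apply h.uq A hA B hB (a - b) (sub_ne_zero.2 hne)
    have h1 : (A - B) (a - b) = 0 := by rw [map_sub, hab, sub_self]
    rw [LinearMap.sub_apply] at h1
    exact sub_eq_zero.1 h1
  let E := LinearEquiv.ofBijective (A - B) ⟨hinj, Finite.surjective_of_injective hinj⟩
  have h2 : (A - B : Module.End K V) = (E : V →ₗ[K] V) := LinearMap.ext fun _ => rfl
  rw [h2]
  exact (LinearEquiv.isUnit_det' E).ne_zero

end

/-! ## frames -/

/-- The elements `f` of `R` such that some `M ∈ S` acts on the image of `ev : R → V` as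
multiplication by `f`. -/
def frm {K V R : Type} [Field K] [AddCommGroup V] [Module K V] [CommRing R] [Algebra K R]
    (S : Set (Module.End K V)) (ev : R →ₗ[K] V) : Set R :=
  {f | ∃ M ∈ S, ∀ g : R, M (ev g) = ev (f * g)}

/-! ## groups -/

/-- `χ` is an antisymmetric sign function (a tournament). -/
structure Tour (X : Type) (χ : X → X → ℤ) : Prop where
  anti : ∀ a b, χ a b = -χ b a
  val : ∀ a b, a ≠ b → χ a b = 1 ∨ χ a b = -1

/-- a regular action of an elementary abelian 3-group -/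
structure RegAct (X V : Type) [AddCommGroup V] (T : V → Equiv.Perm X) : Prop where
  add : ∀ v w, T (v + w) = T v * T w
  exp : ∀ v : V, v + v + v = 0
  reg : ∀ a b : X, ∃ v, T v a = b
  free : ∀ (v : V) (a : X), T v a = a → v = 0

/-- the elements of `G` fixing `a` and `b` -/
def G2 {X : Type} (G : Subgroup (Equiv.Perm X)) (a b : X) : Subgroup (Equiv.Perm X) where
  carrier := {g | g ∈ G ∧ g a = a ∧ g b = b}
  one_mem' := ⟨G.one_mem, rfl, rfl⟩
  mul_mem' := by
    rintro g h ⟨hg, ga, gb⟩ ⟨hh, ha, hb⟩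
    exact ⟨G.mul_mem hg hh, by rw [Equiv.Perm.mul_apply, ha, ga],
      by rw [Equiv.Perm.mul_apply, hb, gb]⟩
  inv_mem' := by
    rintro g ⟨hg, ga, gb⟩
    exact ⟨G.inv_mem hg, by rw [Equiv.Perm.inv_eq_iff_eq, ga],
      by rw [Equiv.Perm.inv_eq_iff_eq, gb]⟩

theorem mem_G2 {X : Type} {G : Subgroup (Equiv.Perm X)} {a b : X} {g : Equiv.Perm X} :
    g ∈ G2 G a b ↔ g ∈ G ∧ g a = a ∧ g b = b := Iff.rfl

namespace RegAct

variable {X V : Type} [AddCommGroup V] {T : V → Equiv.Perm X}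

theorem zero (h : RegAct X V T) : T 0 = 1 := by
  have := h.add 0 0
  rw [add_zero] at this
  exact (mul_eq_left.1 this.symm)

theorem neg (h : RegAct X V T) (v : V) : T (-v) = (T v)⁻¹ := by
  rw [eq_inv_iff_mul_eq_one, ← h.add, neg_add_cancel, h.zero]

theorem inj (h : RegAct X V T) {v w : V} {a : X} (e : T v a = T w a) : v = w := by
  have h1 : T (-w + v) a = a := by
    rw [h.add, Equiv.Perm.mul_apply, e, ← Equiv.Perm.mul_apply, h.neg, inv_mul_cancel,
      Equiv.Perm.one_apply]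
  have := h.free _ _ h1
  rw [neg_add_eq_zero] at this
  exact this.symm

theorem two (h : RegAct X V T) (v : V) : v + v = -v := by
  rw [← sub_eq_zero, sub_neg_eq_add, h.exp]

end RegAct

end Pool.Agent.TP3
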