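import Pool.Agent.Lib.MP_a1e562_co.IH.Stm

/-!
# MP_a1e562_co, project IH: piece GC (invariant Sylow subgroups fix the point)
-/

set_option autoImplicit false

namespace Pool.Agent.TP3

theorem s_IHGC : S_IHGC := by
  intro hSYL hO X _ χ hT G τ N s hG hττ hτχ hτN hτG hB hs hs3 hdvd
  have hodd : Odd (Nat.card G) := hO X χ hT G hG
  -- the automorphism
  let t : G ≃* G :=
    { toFun := fun g => ⟨τ * g.1 * τ, hτG g.1 g.2⟩
      invFun := fun g => ⟨τ * g.1 * τ, hτG g.1 g.2⟩
      left_inv := fun g => Subtype.ext (by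
        show τ * (τ * g.1 * τ) * τ = g.1
        calc τ * (τ * g.1 * τ) * τ = (τ * τ) * g.1 * (τ * τ) := by group
          _ = g.1 := by rw [hττ, one_mul, mul_one])
      right_inv := fun g => Subtype.ext (by
        show τ * (τ * g.1 * τ) * τ = g.1
        calc τ * (τ * g.1 * τ) * τ = (τ * τ) * g.1 * (τ * τ) := by group
          _ = g.1 := by rw [hττ, one_mul, mul_one])
      map_mul' := fun g h => Subtype.ext (by
        show τ * (g.1 * h.1) * τ = (τ * g.1 * τ) * (τ * h.1 * τ)
        calc τ * (g.1 * h.1) * τ = τ * g.1 * 1 * h.1 * τ := by group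
          _ = (τ * g.1 * τ) * (τ * h.1 * τ) := by rw [← hττ]; group) }
  have ht : ∀ g, t (t g) = g := fun g => t.symm_apply_apply g
  have htv : ∀ g : G, (t g).1 = τ * g.1 * τ := fun _ => rfl
  have ho : ∀ g : G, Odd (orderOf g) := fun g =>
    hodd.of_dvd_nat (orderOf_dvd_natCard g)
  obtain ⟨P, hP, hPi, hPt⟩ := hSYL G ⊥ t s hs bot_le (fun g hg => by
    rw [Subgroup.mem_bot] at hg ⊢
    have h1 : orderOf g ∣ 2 := orderOf_dvd_of_pow_eq_one (by rw [pow_two]; exact hg)
    rcases (Nat.dvd_prime Nat.prime_two).1 h1 with h2 | h2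
    · exact orderOf_eq_one_iff.1 h2
    · have h3 := ho g
      rw [h2] at h3
      exact absurd h3 (by decide)) ht
  have hχ : ∀ a b : X, τ a = a → τ b = b → a = b := by
    intro a b ha hb
    by_contra hne
    have h1 := hτχ a b
    rw [ha, hb] at h1
    rcases hT.val a b hne with h2 | h2 <;> omega
  have key : ∀ r ∈ P, r.1 N = N := by
    intro r hr
    obtain ⟨u, hu⟩ : ∃ u : G, u = r * t r⁻¹ := ⟨_, rfl⟩
    have huP : u ∈ P := by
      rw [hu]
      exact P.mul_mem hr (hPt _ (P.inv_mem hr))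
    have htu : t u = u⁻¹ := by
      rw [hu, map_mul, ht, map_inv]
      group
    obtain ⟨m, hm⟩ : ∃ m, orderOf u = 2 * m + 1 := ho u
    obtain ⟨k, hk⟩ : ∃ k : G, k = u ^ (m + 1) := ⟨_, rfl⟩
    have hkP : k ∈ P := by
      rw [hk]
      exact P.pow_mem huP _
    have hkk : k * k = u := by
      rw [hk, ← pow_add, show m + 1 + (m + 1) = orderOf u + 1 by omega, pow_succ,
        pow_orderOf_eq_one, one_mul]
    have htk : t k = k⁻¹ := by
      rw [hk, map_pow, htu, inv_pow]
    have hkN : k.1 N = N := by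
      apply hB k.1 k.2
      · obtain ⟨n, hn⟩ := hP ⟨k, hkP⟩
        have h1 : k ^ (s ^ n) = 1 := congrArg Subtype.val hn
        have h2 : orderOf k ∣ s ^ n := orderOf_dvd_of_pow_eq_one h1
        rw [Subgroup.orderOf_coe]
        exact Nat.Coprime.coprime_dvd_left h2
          (Nat.Coprime.pow_left n ((Nat.coprime_primes hs Nat.prime_three).2 hs3))
      · rw [← htv, htk]
        rfl
    obtain ⟨c, hc⟩ : ∃ c : G, c = k⁻¹ * r := ⟨_, rfl⟩
    have htc : t c = c := by
      have h1 : t c = k * t r := by rw [hc, map_mul, map_inv, htk, inv_inv]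
      have h2 : k * (k * t r) = r := by
        rw [← mul_assoc, hkk, hu, map_inv]
        group
      rw [h1, hc, eq_inv_mul_iff_mul_eq, h2]
    have hcN : c.1 N = N := by
      refine (hχ N (c.1 N) hτN ?_).symm
      have h1 : τ * c.1 * τ = c.1 := by rw [← htv, htc]
      have h2 : (τ * c.1 * τ) N = c.1 N := by rw [h1]
      rw [Equiv.Perm.mul_apply, Equiv.Perm.mul_apply, hτN] at h2
      exact h2
    have h3 : r.1 = k.1 * c.1 := by
      rw [hc]
      show r.1 = k.1 * (k.1⁻¹ * r.1)
      group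
    rw [h3, Equiv.Perm.mul_apply, hcN, hkN]
  have hle : P ≤ MulAction.stabilizer G N := fun r hr => key r hr
  have h1 := Subgroup.index_dvd_of_le hle
  rw [MulAction.index_stabilizer, ← Nat.card_coe_set_eq] at h1
  exact hPi (hdvd.trans h1)

end Pool.Agent.TP3
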