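import Pool.Agent.Lib.MP_a1e562_co.IH.Stm2

set_option autoImplicit false

namespace Pool.Agent.TP3

/-- one step of the group computation -/
private theorem k4_comm {G : Type*} [Group G] {a b : G} (ha : a * a * a = 1)
    (h1 : a * b * a * (b * a * b) = 1) (h2 : b⁻¹ * a * b⁻¹ * (a * b⁻¹ * a) = 1) :
    a * b * a⁻¹ * b⁻¹ = b⁻¹ * a * b * a⁻¹ := by
  have e1 : a⁻¹ = a * a := inv_eq_of_mul_eq_one_left ha
  have e2 : a * b * a = b⁻¹ * a⁻¹ * b⁻¹ := by
    have := eq_inv_of_mul_eq_one_left h1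
    rw [this]; group
  have e3 : b⁻¹ * a * b⁻¹ = a⁻¹ * b * a⁻¹ := by
    have := eq_inv_of_mul_eq_one_left h2
    rw [this]; group
  have e4 : a⁻¹ * a⁻¹ = a := by
    have : a⁻¹ * a⁻¹ * a⁻¹ = 1 := by
      have h := congrArg (·⁻¹) ha
      simpa [mul_assoc] using h
    have h' := eq_inv_of_mul_eq_one_left this
    rw [h']; group
  calc a * b * a⁻¹ * b⁻¹ = (a * b * a) * (a * b⁻¹) := by rw [e1]; simp only [mul_assoc]
    _ = b⁻¹ * a⁻¹ * (b⁻¹ * a * b⁻¹) := by rw [e2]; simp only [mul_assoc]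
    _ = b⁻¹ * (a⁻¹ * a⁻¹) * b * a⁻¹ := by rw [e3]; simp only [mul_assoc]
    _ = b⁻¹ * a * b * a⁻¹ := by rw [e4]

/-- the group computation -/
private theorem k4_grp {G : Type*} [Group G] {a b : G} (ha : a * a * a = 1) (hb : b * b * b = 1)
    (h1 : b * a * (b * a) * (b * a) = 1) (h2 : b⁻¹ * a * (b⁻¹ * a) * (b⁻¹ * a) = 1) :
    a⁻¹ * b⁻¹ * a * b = a * b * a⁻¹ * b⁻¹ := by
  -- conjugates
  have h1' : a * b * a * (b * a * b) = 1 := by
    have : a * b * a * (b * a * b) = b⁻¹ * (b * a * (b * a) * (b * a)) * b := by group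
    rw [this, h1]; group
  have h2' : b⁻¹ * a * b⁻¹ * (a * b⁻¹ * a) = 1 := by
    rw [← h2]; simp only [mul_assoc]
  have z1 := k4_comm ha h1' h2'
  -- apply to `(b, a⁻¹)`
  have h3 : b * a⁻¹ * b * (a⁻¹ * b * a⁻¹) = 1 := by
    have h := congrArg (·⁻¹) h2
    simp only [mul_inv_rev, inv_inv, inv_one] at h
    have : b * a⁻¹ * b * (a⁻¹ * b * a⁻¹) = a * (a⁻¹ * b * (a⁻¹ * b * (a⁻¹ * b))) * a⁻¹ := by group
    rw [this, h]; group
  have h4 : (a⁻¹)⁻¹ * b * (a⁻¹)⁻¹ * (b * (a⁻¹)⁻¹ * b) = 1 := by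
    rw [inv_inv]; exact h1'
  have z2 := k4_comm (a := b) (b := a⁻¹) hb h3 h4
  simp only [inv_inv] at z2
  -- z2 : b * a⁻¹ * b⁻¹ * a = a * b * a⁻¹ * b⁻¹
  have z3 : a⁻¹ * (a * b * a⁻¹ * b⁻¹) * a = a * b * a⁻¹ * b⁻¹ := by
    rw [← z2]
    nth_rewrite 1 [z2]
    group
  calc a⁻¹ * b⁻¹ * a * b = a⁻¹ * (b⁻¹ * a * b * a⁻¹) * a := by group
    _ = a⁻¹ * (a * b * a⁻¹ * b⁻¹) * a := by rw [z1]
    _ = _ := z3

theorem s_IHK4 : S_IHK4 := by
  intro U _ _ S hS hneg hHex P hP Q hQ R hR x y hx hPQ hRx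
  by_cases hy : y = 0
  · subst hy; simp
  by_cases hδ : P x = 0
  · have p0 : P = 0 := hS.uq P hP 0 hS.zero x hx (by simpa using hδ)
    have q0 : Q = 0 := hS.uq Q hQ 0 hS.zero y hy (by rw [← hPQ, hδ]; simp)
    have r0 : R = 0 := hS.uq R hR 0 hS.zero x hx (by rw [hRx, p0, q0]; simp)
    rw [p0, q0, r0]; simp
  have three : ∀ v : U, v + v + v = 0 := by
    intro v
    have : ((3 : ZMod 3) : ZMod 3) • v = 0 := by
      have h3 : (3 : ZMod 3) = 0 := by decide
      rw [h3, zero_smul]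
    have h' : v + v + v = (3 : ZMod 3) • v := by
      have : (3 : ZMod 3) = 1 + 1 + 1 := by decide
      rw [this, add_smul, add_smul, one_smul]
    rw [h', this]
  by_cases hdep : ∃ c : ZMod 3, c • x = y
  · obtain ⟨c, hc⟩ := hdep
    have hc3 : ∀ c : ZMod 3, c = 0 ∨ c = 1 ∨ c = -1 := by decide
    rcases hc3 c with h | h | h
    · exfalso; apply hy; rw [← hc, h, zero_smul]
    · have hyx : y = x := by rw [← hc, h, one_smul]
      subst hyx
      have pq : P = Q := hS.uq P hP Q hQ y hx hPQ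
      exact hRx
    · have hyx : y = -x := by rw [← hc, h, neg_smul, one_smul]
      have pq : P = -Q := hS.uq P hP (-Q) (hneg Q hQ) x hx (by
        rw [hPQ, hyx]; simp)
      have r0 : R = 0 := hS.uq R hR 0 hS.zero x hx (by rw [hRx, pq]; simp)
      rw [r0, pq]; simp
  have li1 : LinearIndependent (ZMod 3) ![x, y] := by
    rw [LinearIndependent.pair_iff' hx]
    intro c hc; exact hdep ⟨c, hc⟩
  have li2 : LinearIndependent (ZMod 3) ![x, -y] := by
    rw [LinearIndependent.pair_iff' hx]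
    intro c hc; exact hdep ⟨-c, by rw [neg_smul, hc, neg_neg]⟩
  set δ := P x with hδd
  have hy' : -y ≠ 0 := by simpa using hy
  -- evaluation
  have bij : ∀ w : U, w ≠ 0 → Function.Bijective (fun M : S => (M : Module.End (ZMod 3) U) w) := by
    intro w hw
    constructor
    · intro M N h
      exact Subtype.ext (hS.uq M.1 M.2 N.1 N.2 w hw h)
    · intro v
      obtain ⟨M, hM, h⟩ := hS.ex w hw v
      exact ⟨⟨M, hM⟩, h⟩
  let ev : ∀ w : U, w ≠ 0 → (S ≃ U) := fun w hw => Equiv.ofBijective _ (bij w hw)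
  have ev_ap : ∀ (w : U) (hw : w ≠ 0) (M : S), ev w hw M = (M : Module.End (ZMod 3) U) w :=
    fun w hw M => rfl
  have ev_inj : ∀ (w : U), w ≠ 0 → ∀ (M N : S), (M : Module.End (ZMod 3) U) w =
      (N : Module.End (ZMod 3) U) w → M = N := fun w hw M N h => (bij w hw).1 h
  let tr : ∀ w : U, w ≠ 0 → Equiv.Perm S := fun w hw =>
    ((ev w hw).trans (Equiv.addRight δ)).trans (ev w hw).symm
  have tr_ap : ∀ (w : U) (hw : w ≠ 0) (M : S), ((tr w hw M : S) : Module.End (ZMod 3) U) w =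
      (M : Module.End (ZMod 3) U) w + δ := by
    intro w hw M
    have h1 : ev w hw (tr w hw M) = ev w hw M + δ := by
      show ev w hw ((ev w hw).symm (ev w hw M + δ)) = _
      rw [Equiv.apply_symm_apply]
    exact h1
  have tr3 : ∀ (w : U) (hw : w ≠ 0), tr w hw * tr w hw * tr w hw = 1 := by
    intro w hw
    ext1 M
    apply ev_inj w hw
    rw [Equiv.Perm.mul_apply, Equiv.Perm.mul_apply, tr_ap w hw, tr_ap w hw, tr_ap w hw,
      Equiv.Perm.one_apply]
    rw [add_assoc, add_assoc, ← add_assoc δ, three, add_zero]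
  have trinv_ap : ∀ (w : U) (hw : w ≠ 0) (M : S), (((tr w hw)⁻¹ M : S) : Module.End (ZMod 3) U) w +
      δ = (M : Module.End (ZMod 3) U) w := by
    intro w hw M
    rw [← tr_ap w hw, ← Equiv.Perm.mul_apply, mul_inv_cancel, Equiv.Perm.one_apply]
  set a := tr x hx with ha
  set b := tr y hy with hb
  have h2 : b⁻¹ * a * (b⁻¹ * a) * (b⁻¹ * a) = 1 := by
    ext1 M
    simp only [Equiv.Perm.mul_apply, Equiv.Perm.one_apply]
    set y0 := a M with hy0
    set x1 := b⁻¹ y0 with hx1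
    set y1 := a x1 with hy1
    set x2 := b⁻¹ y1 with hx2
    set y2 := a x2 with hy2
    have := (hHex x y δ li1 hδ M.1 M.2 x1.1 x1.2 x2.1 x2.2 y0.1 y0.2 y1.1 y1.2 y2.1 y2.2
      (tr_ap x hx M) (trinv_ap y hy y0).symm (tr_ap x hx x1) (trinv_ap y hy y1).symm
      (tr_ap x hx x2)).1
    rw [Equiv.Perm.inv_eq_iff_eq]
    apply ev_inj y hy
    rw [this, tr_ap y hy M]
  have h1 : b * a * (b * a) * (b * a) = 1 := by
    ext1 M
    simp only [Equiv.Perm.mul_apply, Equiv.Perm.one_apply]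
    set y0 := a M with hy0
    set x1 := b y0 with hx1
    set y1 := a x1 with hy1
    set x2 := b y1 with hx2
    set y2 := a x2 with hy2
    have key : ∀ N : S, (N : Module.End (ZMod 3) U) (-y) =
        ((b N : S) : Module.End (ZMod 3) U) (-y) + δ := by
      intro N
      rw [map_neg, map_neg, tr_ap y hy N]
      abel
    have := (hHex x (-y) δ li2 hδ M.1 M.2 x1.1 x1.2 x2.1 x2.2 y0.1 y0.2 y1.1 y1.2 y2.1 y2.2
      (tr_ap x hx M) (key y0) (tr_ap x hx x1) (key y1)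
      (tr_ap x hx x2)).1
    apply ev_inj y hy
    rw [tr_ap y hy y2]
    rw [map_neg, map_neg] at this
    have h' : (y2 : Module.End (ZMod 3) U) y = (M : Module.End (ZMod 3) U) y - δ := by
      have := congrArg Neg.neg this
      rw [neg_neg] at this
      rw [this]; abel
    rw [h']; abel
  have hz := k4_grp (tr3 x hx) (tr3 y hy) h1 h2
  -- the involution
  let ι : S → S := fun M => ⟨-(M : Module.End (ZMod 3) U), hneg _ M.2⟩
  have ι_ap : ∀ (M : S) (w : U), ((ι M : S) : Module.End (ZMod 3) U) w =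
      -((M : Module.End (ZMod 3) U) w) := fun M w => rfl
  have ιtr : ∀ (w : U) (hw : w ≠ 0) (M : S), ι (tr w hw M) = (tr w hw)⁻¹ (ι M) := by
    intro w hw M
    apply ev_inj w hw
    have h := trinv_ap w hw (ι M)
    rw [ι_ap, tr_ap w hw]
    rw [ι_ap] at h
    rw [neg_add, ← h]; abel
  have ιtr' : ∀ (w : U) (hw : w ≠ 0) (M : S), ι ((tr w hw)⁻¹ M) = (tr w hw) (ι M) := by
    intro w hw M
    have h := ιtr w hw ((tr w hw)⁻¹ M)
    rw [← Equiv.Perm.mul_apply, mul_inv_cancel, Equiv.Perm.one_apply] at h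
    rw [h, ← Equiv.Perm.mul_apply, mul_inv_cancel, Equiv.Perm.one_apply]
  let o : S := ⟨0, hS.zero⟩
  have ιo : ι o = o := Subtype.ext (by simp [ι, o])
  have hN : ι ((a * b * a⁻¹ * b⁻¹) o) = (a * b * a⁻¹ * b⁻¹) o := by
    conv_rhs => rw [← hz]
    simp only [Equiv.Perm.mul_apply]
    rw [ιtr x hx, ιtr y hy, ιtr' x hx, ιtr' y hy, ιo]
  have hN0 : (a * b * a⁻¹ * b⁻¹) o = o := by
    apply ev_inj x hx
    have h := congrArg (fun M : S => (M : Module.End (ZMod 3) U) x) hN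
    simp only [ι_ap] at h
    set n := (((a * b * a⁻¹ * b⁻¹) o : S) : Module.End (ZMod 3) U) x with hn
    have h3 := three n
    have h2 : n + n = 0 := by
      nth_rewrite 1 [← h]; simp
    rw [h2, zero_add] at h3
    rw [h3]; simp [o]
  rw [← hz] at hN0
  have hab : a (b o) = b (a o) := by
    simp only [Equiv.Perm.mul_apply] at hN0
    rw [Equiv.Perm.inv_eq_iff_eq, Equiv.Perm.inv_eq_iff_eq] at hN0
    exact hN0
  have ao : a o = ⟨P, hP⟩ := by
    apply ev_inj x hx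
    rw [tr_ap x hx]
    simp [o, hδd]
  have bo : b o = ⟨Q, hQ⟩ := by
    apply ev_inj y hy
    rw [tr_ap y hy]
    simp [o, hPQ]
  rw [ao, bo] at hab
  have hRR : a ⟨Q, hQ⟩ = ⟨R, hR⟩ := by
    apply ev_inj x hx
    rw [tr_ap x hx]
    show Q x + δ = R x
    rw [hRx, add_comm]
  rw [hRR] at hab
  have h := tr_ap y hy ⟨P, hP⟩
  rw [← hb, ← hab] at h
  show R y = P y + Q y
  rw [← hPQ]
  exact h

end Pool.Agent.TP3
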