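import Pool.Agent.Lib.MP_a1e562_co.IH.Stm

/-!
# MP_a1e562_co, involutory homology, piece M: change of the base
-/

set_option autoImplicit false

namespace Pool.Agent.TP3

theorem s_IHM : S_IHM := by
  intro K V _ _ _ _ S B h hB
  have hBs : Function.Surjective B := Finite.surjective_of_injective hB
  let E : V ≃ₗ[K] V := LinearEquiv.ofBijective B ⟨hB, hBs⟩
  have hE : ∀ v, B (E.symm v) = v := fun v => E.apply_symm_apply v
  have hne : ∀ N M : Module.End K V, (∀ v, B (N v) = M v) → N ≠ 0 → M ≠ 0 := by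
    intro N M hNM hN hM
    apply hN
    ext v
    apply hB
    rw [hNM, hM]
    simp
  constructor
  · exact ⟨0, h.zero, fun v => by simp⟩
  · rintro c N ⟨M, hM, hNM⟩
    exact ⟨c • M, h.smul c M hM, fun v => by
      rw [LinearMap.smul_apply, map_smul, hNM, LinearMap.smul_apply]⟩
  · intro x hx y
    obtain ⟨M, hM, hMx⟩ := h.ex x hx (B y)
    refine ⟨E.symm.toLinearMap ∘ₗ M, ⟨M, hM, fun v => hE (M v)⟩, ?_⟩
    apply hB
    rw [← hMx]
    exact hE (M x)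
  · rintro N ⟨M, hM, hNM⟩ N' ⟨M', hM', hNM'⟩ x hx hxx
    have h1 : M = M' := h.uq M hM M' hM' x hx (by rw [← hNM, ← hNM', hxx])
    ext v
    apply hB
    rw [hNM, hNM', h1]
  · rintro P ⟨P', hP', hP⟩ Q ⟨Q', hQ', hQ⟩ R ⟨R', hR', hR⟩ x y hx h1 h2
    apply hB
    rw [map_add, hR, hP, hQ]
    refine h.hexA P' hP' Q' hQ' R' hR' x y hx ?_ ?_
    · rw [← hP, ← hQ, h1]
    · rw [← hR, ← hP, ← hQ, h2, map_add]
  · rintro P ⟨P', hP', hP⟩ Q ⟨Q', hQ', hQ⟩ R ⟨R', hR', hR⟩ a b c hP0 hQ0 h1 h2 h3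
    apply hB
    rw [hR, hQ]
    refine h.hexB P' hP' Q' hQ' R' hR' a b c (hne P P' hP hP0) (hne Q Q' hQ hQ0) ?_ ?_ ?_
    · rw [← hP, ← hQ, h1]
    · rw [← hR, ← hP, h2]
    · rw [← hP, ← hQ, h3]

end Pool.Agent.TP3
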