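import Pool.Agent.Lib.MP_a1e562_co.IH.All
import Pool.Agent.Lib.MP_a1e562_co.SF.Short

/-!
# Definitions used in the statement on translation planes with an involutory homology
-/

set_option autoImplicit false

namespace Pool.Agent.TP3

open Configuration

/-- The plane is a translation plane with an involutory homology whose axis is an affine line, in
the usual coordinates: there are a line `ℓ` (the line at infinity), an abelian group `V`, a set `S`
of additive maps `V → V` (the spread set) with `-M ∈ S` for all `M ∈ S`, and a bijection of the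
points off `ℓ` with `V × V` such that the lines other than `ℓ` are exactly the sets `x = c` and
`y = M x + b`, `M ∈ S`.
(The map `(x, y) ↦ (x, -y)` is then an involutory homology with axis `y = 0`.) -/
def IsInvolutoryTranslationPlane (P L : Type) [Membership P L] : Prop :=
  ∃ (V : Type) (_ : AddCommGroup V) (S : Set (V →+ V)) (ℓ : L)
    (φ : {x : P // x ∉ ℓ} ≃ V × V),
    (∀ M ∈ S, -M ∈ S) ∧
    (∀ m : L, m ≠ ℓ →
      (∃ c : V, ∀ p : {x : P // x ∉ ℓ}, (p : P) ∈ m ↔ (φ p).1 = c) ∨
      ∃ M ∈ S, ∃ b : V, ∀ p : {x : P // x ∉ ℓ}, (p : P) ∈ m ↔ (φ p).2 = M (φ p).1 + b) ∧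
    (∀ c : V, ∃ m : L, m ≠ ℓ ∧ ∀ p : {x : P // x ∉ ℓ}, (p : P) ∈ m ↔ (φ p).1 = c) ∧
    (∀ M ∈ S, ∀ b : V, ∃ m : L, m ≠ ℓ ∧
      ∀ p : {x : P // x ∉ ℓ}, (p : P) ∈ m ↔ (φ p).2 = M (φ p).1 + b)

/-- Every semifield plane is a translation plane with an involutory homology (for the record). -/
theorem IsSemifieldPlane.involutory {P L : Type} [Membership P L]
    (h : IsSemifieldPlane P L) : IsInvolutoryTranslationPlane P L := by
  obtain ⟨V, iV, mul, ℓ, φ, h1, h2, h3, h4, h5, h6⟩ := h
  refine ⟨V, iV, Set.range (fun k : V => AddMonoidHom.mk' (fun x => mul x k) (fun x y => h1 x y k)),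
    ℓ, φ, ?_, ?_, h5, ?_⟩
  · rintro _ ⟨k, rfl⟩
    refine ⟨-k, AddMonoidHom.ext fun x => ?_⟩
    have h0 : mul x 0 = 0 := by
      have := h2 x 0 0
      rw [add_zero] at this
      exact left_eq_add.1 this
    have : mul x (-k) + mul x k = 0 := by rw [← h2, neg_add_cancel, h0]
    simpa using eq_neg_of_add_eq_zero_left this
  · intro m hm
    rcases h4 m hm with h | ⟨k, b, h⟩
    · exact Or.inl h
    · exact Or.inr ⟨_, ⟨k, rfl⟩, b, h⟩
  · rintro _ ⟨k, rfl⟩ b
    exact h6 k b

theorem involutory_short (P L : Type) [Membership P L] [ProjectivePlane P L] [Finite P]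
    (hc : CharThree P L) (h : IsInvolutoryTranslationPlane P L)
    (ho : ¬ ∃ k : ℕ, ProjectivePlane.order P L = k ^ 4) : IsDesarguesian P L :=
  involutory_main P L hc h ho

end Pool.Agent.TP3
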