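import Pool.Agent.Lib.MP_a1e562_co.IH.Defs

/-!
# Statements of the pieces [IH ..] of MP_a1e562_co

THEOREM. Let `P` be a finite projective plane of characteristic 3 (every quadrangle generates a
subplane with 13 points) which is a translation plane with an involutory homology with affine axis
(a spread set `S` with `S = -S`). If the order of `P` is not a fourth power (order `3^n` with `4 ∤ n`)
then `P` is desarguesian.

Every `def S_IHxx : Prop` below is one independent piece; its docstring contains the complete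
proof.  Put the proof of `S_IHxx` in `IH/Xx.lean` as `theorem s_IHxx : S_IHxx`.
Definitions and basic lemmas (`HS.neg_mem`, `HS.inj`, `HS.surj`, `HS.equiv`, `HS.exT`,
`HS.apply_ne`, `HS.det_ne`, `RegAct.zero`, `RegAct.neg`, `RegAct.inj`, `RegAct.two`, ..) are in
`IH/Defs.lean`. `B⁻¹ A` always means the operator `T` with `B (T v) = A v` for all `v`.
-/

set_option autoImplicit false

namespace Pool.Agent.TP3

open Configuration Polynomial

/-! ## F. commutative algebra -/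

/-- [IH F1] (about 100 lines) A multiplicatively closed closure system inside.

Proof. If `R` is trivial take `Φ0 = Φ`. Let `Φ0 = {f | ∀ Ψ ⊆ Φ, PhiSet K R Ψ T → f ∈ Ψ}`. It is contained
in `Φ` and it is a `PhiSet` (all the conditions pass to intersections; `unit` holds because
`Φ0 ⊆ Φ`), and it is contained in every `PhiSet` `Ψ ⊆ Φ`. Nonzero elements of `Φ` are units (`unit` with
`g = 0`).
Step 1: `f ∈ Φ0` implies `f * T ∈ Φ0`. If `T = 0` clear. Otherwise `T` is a unit. Let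
`Ψ = {f ∈ Φ0 | f * T ∈ Φ0}`. It is a `PhiSet` with the same `T`: `1`: `T ∈ Φ0`; `T`: `T * T ∈ Φ0` is `sq`
with `g = 1`, `r = T` (`1 ≠ 0`, `adjoin {T} = ⊤`); `add`: `(r g + g) T = r (g T) + g T` with
`g T ∈ Φ0`, `g T ≠ 0`; `sq`, `add3` in the same way. So `Φ0 ⊆ Ψ`.
Step 2: let `h ∈ Φ0`; `f ∈ Φ0` implies `f * h ∈ Φ0`. If `h = 0` clear. Otherwise `h` is a unit, and
`Ψ = {f ∈ Φ0 | f * h ∈ Φ0}` is a `PhiSet` with the same `T` (`T * h ∈ Φ0` by step 1, the rest as
before), so `Φ0 ⊆ Ψ`. -/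
def S_IHF1 : Prop :=
  ∀ (K R : Type) [Field K] [CommRing R] [Algebra K R] (Φ : Set R) (T : R),
    PhiSet K R Φ T → Algebra.adjoin K {T} = ⊤ →
    ∃ Φ0 : Set R, Φ0 ⊆ Φ ∧ PhiSet K R Φ0 T ∧ ∀ f ∈ Φ0, ∀ g ∈ Φ0, f * g ∈ Φ0

/-- [IH F2] (about 60 lines) The nonzero elements of `Φ` form a cyclic group.

Proof. The nonzero elements of `Φ` are units (`unit` with `g = 0`). `H = {u : Rˣ | (u : R) ∈ Φ}` is a
subgroup of the finite group `Rˣ` (closed under products; inverses are powers, or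
`Subgroup` from a finite submonoid). Take a maximal ideal `m` of `R` (`Ideal.exists_maximal`), so that
`R ⧸ m` is a field. The homomorphism `H → R ⧸ m` is injective: if `f ≠ g` are in `Φ` then `f - g` is
a unit, so it is not in `m`. By `isCyclic_of_subgroup_isDomain` the group `H` is cyclic; let `θ` be a
generator; every `f ∈ Φ`, `f ≠ 0` is a power of `θ` with exponent in `ℕ` (finite order). -/
def S_IHF2 : Prop :=
  ∀ (K R : Type) [Field K] [CommRing R] [Algebra K R] [Finite R] [Nontrivial R] (Φ : Set R) (T : R),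
    PhiSet K R Φ T → (∀ f ∈ Φ, ∀ g ∈ Φ, f * g ∈ Φ) →
    ∃ θ ∈ Φ, θ ≠ 0 ∧ ∀ f ∈ Φ, f ≠ 0 → ∃ k : ℕ, f = θ ^ k

/-- [IH F3] (about 60 lines, elementary number theory)

Proof. Let `Q` be the product of `p ^ 2` over the primes `p ∣ N` with `¬ p ∣ j`, and `k = Q + j`. Let
`p` be a prime divisor of `N`. If `¬ p ∣ j` then `p ∣ Q`, so `k ≡ j ≢ 0` and `k + j ≡ 2 j` mod `p`, which
is `≢ 0` if `p` is odd. If `p ∣ j` then `¬ p ∣ Q`, and `k ≡ k + j ≡ Q ≢ 0`. So `gcd k N = 1`, and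
no odd prime divides `gcd (k + j) N`. If `2 ∣ N`: for `j` even `Q` is odd and `k + j` is odd; for
`j` odd `4 ∣ Q` and `k + j ≡ 2 j ≡ 2` mod 4. So `gcd (k + j) N` is a power of 2 (its only possible
prime divisor is 2) not divisible by 4, and it divides 2. -/
def S_IHF3 : Prop :=
  ∀ N j : ℕ, 0 < N → ∃ k : ℕ, Nat.gcd k N ∣ 2 ∧ Nat.gcd (k + j) N ∣ 2

/-- [IH F4] (about 120 lines)

Proof. `θ` is a unit (`unit` with `g = 0`); let `N > 0` with `θ ^ N = 1` and `N` the order of `θ`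
(as a unit). Powers of `θ` are in `Φ` (`one`, products).
(1) `adjoin {θ} = ⊤`: `T = 0` or `T = θ ^ k`, so `T ∈ adjoin {θ}`.
(2) `A := adjoin {θ ^ 2} = ⊤`: by `add` with `g = 1`, `r = θ` we have `θ + 1 ∈ Φ`. If `θ + 1 = 0` then
`θ = -1 ∈ A`. Otherwise `θ + 1 = θ ^ i` and `(θ + 1) ^ 2 = (θ ^ 2) ^ i ∈ A`, so `2 θ ∈ A` and
`θ = - 2 θ ∈ A` (`3 = 0`). So `A ⊇ adjoin {θ} = ⊤`.
(3) If `gcd m N ∣ 2` then `adjoin {θ ^ m} = ⊤`: by Bezout there is `u` with `m u ≡ gcd m N` mod `N`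
(`Nat.exists_mul_mod_eq_gcd` or similar), so `θ ^ (gcd m N) = (θ ^ m) ^ u`, and `θ` or `θ ^ 2` is
in `adjoin {θ ^ m}`; use (1), (2).
(4) `f, g ∈ Φ` implies `f + g ∈ Φ`: clear if one of them is zero. Let `f = θ ^ a`, `g = θ ^ b`; by
symmetry `a ≥ b`, `j = a - b`, `k` from `hF3 N j`, `h = θ ^ (b + (N - 1) * k)`, `s = θ ^ k`,
`r = θ ^ (k + j)`. Then `s * h = θ ^ (b + N k) = g`, `r * h = θ ^ (a + N k) = f`, and `add3`
(with (3)) gives `f + g ∈ Φ`.
(5) `Φ` is closed under `+`, `*`, scalars, contains `1` and `T`, so it contains `adjoin {T} = ⊤`. -/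
def S_IHF4 : Prop :=
  S_IHF3 → ∀ (K R : Type) [Field K] [CommRing R] [Algebra K R] [Finite R] [Nontrivial R],
    (3 : K) = 0 → ∀ (Φ : Set R) (T θ : R), PhiSet K R Φ T → Algebra.adjoin K {T} = ⊤ →
    (∀ f ∈ Φ, ∀ g ∈ Φ, f * g ∈ Φ) → θ ∈ Φ → θ ≠ 0 → (∀ f ∈ Φ, f ≠ 0 → ∃ k : ℕ, f = θ ^ k) →
    ∀ f : R, f ∈ Φ

/-- conclusion of F1-F4 (assembled elsewhere) -/
def S_IHF : Prop :=
  ∀ (K R : Type) [Field K] [CommRing R] [Algebra K R] [Finite R] [Nontrivial R],
    (3 : K) = 0 → ∀ (Φ : Set R) (T : R), PhiSet K R Φ T → Algebra.adjoin K {T} = ⊤ →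
    ∀ f : R, f ∈ Φ

/-! ## L. frames -/

/-- [IH L1] (about 80 lines)

Proof. Write `Φ = frm S ev`. `0`: `M = 0`. `c • f`: `c • M`. `unit`: let `M, N ∈ S` belong to `f ≠ g`.
If `(f - g) * k = 0` then `M (ev k) = ev (f k) = ev (g k) = N (ev k)`; if `k ≠ 0` then `ev k ≠ 0` and
`M = N` by `uq`, so `ev (f * 1) = ev (g * 1)`, `f = g`, contradiction. So multiplication by `f - g` is
injective on the finite ring `R`, hence surjective, and `f - g` is a unit.
`add`: let `f = r * g`, `P, Q ∈ S` belonging to `f, g`. `R0 ∈ S` with `R0 (ev 1) = ev (f + g)` exists by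
`ex` (if `ev 1 = 0` then `1 = 0` in `R` and everything is trivial: all elements of `R` are equal).
Let `A = {h : R | R0 (ev h) = ev ((f + g) * h)}`. It contains `1` and is closed under `+` and scalars. If
`h ∈ A` then `r * h ∈ A`: for `h = 0` clear; otherwise take `x = ev h ≠ 0`, `y = ev (r * h)`:
`P x = ev (f h) = ev (g (r h)) = Q y` and `R0 x = ev ((f + g) h) = P x + Q x`, so `hexA` gives
`R0 y = P y + Q y = ev ((f + g) (r h))`. Hence `A` contains `p(r)` for all polynomials `p`, i.e. all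
of `adjoin {r} = ⊤` (`Algebra.adjoin_singleton_eq_range_aeval`; first prove `h ∈ A → p(r) * h ∈ A`).
So `R0` shows `f + g ∈ Φ`. -/
def S_IHL1 : Prop :=
  ∀ (K V R : Type) [Field K] [AddCommGroup V] [Module K V] [CommRing R] [Algebra K R] [Finite R]
    (S : Set (Module.End K V)) (ev : R →ₗ[K] V), HS K V S → Function.Injective ev →
    PhiB K R (frm S ev)

/-- [IH L2] (about 100 lines)

Proof. Write `Φ = frm S ev`, `f = r * g`. Nonzero elements of `Φ` are units. If `f = 0`: `r f = 0 ∈ Φ`.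
`g` is a unit, `r = f / g` is a unit.
`adjoin` of `-r`, of `r⁻¹` (the inverse of a unit `u` of a finite ring is a power of `u`), of `r - 1`,
`r⁻¹ - 1` is also `⊤`. `g - f = (-r) * g + g ∈ Φ` by `add` (`-f ∈ Φ` by `smul`). If `g = f` then
`r = 1` and `r * f = f ∈ Φ`. Otherwise `g - f` is a unit. Let `P, Q ∈ S` belong to `f` and `g - f`; they
are nonzero (`ev` injective). Put `u = f * (g - f) * g⁻¹`. Let `R0 ∈ S` with
`R0 (ev 1) = ev u` (`ev 1 ≠ 0`). Let `A = {h | R0 (ev h) = ev (u * h)}`: it contains `1`, closed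
under `+` and scalars. Claim: `h ∈ A` implies `s * h ∈ A`, where `s = (g - f) * f⁻¹ = r⁻¹ - 1`.
Let `α = h * (g - f) * g⁻¹`, `β = h * f * g⁻¹`, `γ = s * α`, `a = ev α`, `b = ev β`, `c = ev γ`. Then
`f α = (g - f) β` so `P a = Q b`; `α + β = h`, `R0 (a + b) = ev (u h) = ev (f α) = P a`;
`f γ = (g - f) α`, so `P c = Q a`. `hexB` gives `R0 (c + a) = Q a = ev ((g - f) α)`, and
`γ + α = α g f⁻¹ = s h`, `(g - f) α = u * (s h)`. So `s * h ∈ A`. Since `adjoin {s} = ⊤`, `A` is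
everything, and `u ∈ Φ`. Finally `-u = (r - 1) * f` (`u = f (1 - r)` as `g⁻¹ f = r`), so `add` with
`f` and the ratio `r - 1` gives `-u + f ∈ Φ` (`-u ∈ Φ`), and `f - u = f r`. -/
def S_IHL2 : Prop :=
  ∀ (K V R : Type) [Field K] [AddCommGroup V] [Module K V] [CommRing R] [Algebra K R] [Finite R]
    (S : Set (Module.End K V)) (ev : R →ₗ[K] V), HS K V S → Function.Injective ev →
    PhiB K R (frm S ev) → ∀ g ∈ frm S ev, ∀ r : R, g ≠ 0 → r * g ∈ frm S ev →
      Algebra.adjoin K {r} = ⊤ → r * (r * g) ∈ frm S ev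

/-- [IH L3] (about 120 lines)

Proof. Write `Φ = frm S ev`, `f = r * h`, `g = s * h`. Nonzero elements of `Φ` are units. If `f + g = 0`,
`f = 0` or `g = 0` the claim is clear. So `f, g, h, f + g = f - (-g)` are units (`-g ∈ Φ`), and so are
`r, s`. `f + h ∈ Φ` (`add`), `g - h = -((-s) * h + h) ∈ Φ` (`add` for the ratio `-s`, `adjoin {-s} = ⊤`,
then `smul`). If `f + h = 0` or `g - h = 0` then `r = -1` or `s = 1`, so `⊤ = adjoin {r}` (or
`adjoin {s}`) consists of scalars (`⊥`), `f + g = c • 1 = (c • h⁻¹) * h` with `h⁻¹` again a scalar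
`d • 1`, so `f + g = (c * d) • h ∈ Φ` by `smul`. Otherwise `f + h`, `g - h` are units.
`R0 ∈ S` with `R0 (ev 1) = ev (f + g)` (`ev 1 ≠ 0` since `h ≠ 0`). Let
`A = {k | R0 (ev k) = ev ((f + g) * k)}`, an additive subgroup closed under scalars, `1 ∈ A`. Let
`B = {b : R | ∀ k ∈ A, b * k ∈ A}`, a subalgebra of `R`.
Claim: if `f', g' ∈ Φ`, `f' + g' = f + g`, `g'` is a unit then `f' * g'⁻¹ ∈ B`: let `P, Q ∈ S` belong to
`f', g'`, `k ∈ A`, `k ≠ 0`, `x = ev k`, `y = ev (f' g'⁻¹ k)`: `P x = ev (f' k) = Q y`,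
`R0 x = ev ((f' + g') k) = P x + Q x`, so by `hexA` `R0 y = P y + Q y`, i.e. `f' g'⁻¹ k ∈ A`.
So `x := f * g⁻¹ ∈ B`, `y := (f + h) * (g - h)⁻¹ ∈ B`. The inverse of a unit of `R` in `B` is in `B` (it
is a power). `1 + y = (f + g) * (g - h)⁻¹` is a unit and
`(y - x) * (1 + y)⁻¹ = h * g⁻¹`: indeed `y - x = ((f + h) g - f (g - h)) / (g (g - h))
= h (f + g) / (g (g - h))`. So `s⁻¹ = h * g⁻¹ ∈ B`, `s ∈ B`, `B = ⊤`, so `k = k * 1 ∈ A` for all
`k`, and `R0` shows `f + g ∈ Φ`. -/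
def S_IHL3 : Prop :=
  ∀ (K V R : Type) [Field K] [AddCommGroup V] [Module K V] [CommRing R] [Algebra K R] [Finite R]
    (S : Set (Module.End K V)) (ev : R →ₗ[K] V), HS K V S → Function.Injective ev →
    PhiB K R (frm S ev) → ∀ h ∈ frm S ev, ∀ r s : R, h ≠ 0 → r * h ∈ frm S ev →
      s * h ∈ frm S ev → Algebra.adjoin K {r} = ⊤ → Algebra.adjoin K {s} = ⊤ →
      r * h + s * h ∈ frm S ev

/-- conclusion of L1-L3 (assembled elsewhere) -/
def S_IHL : Prop :=
  ∀ (K V R : Type) [Field K] [AddCommGroup V] [Module K V] [CommRing R] [Algebra K R] [Finite R]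
    (S : Set (Module.End K V)) (ev : R →ₗ[K] V) (T : R), HS K V S → Function.Injective ev →
    (1 : R) ∈ frm S ev → T ∈ frm S ev → PhiSet K R (frm S ev) T

/-! ## S. the structure theorem -/

/-- [IH M] (about 50 lines) Change of the base.

Proof. `B` is bijective (`V` finite). `0`: `N = M = 0`. Scalars: `c • N` with `c • M`. `ex`: for `x ≠ 0`, `y`
take `M ∈ S` with `M x = B y` and `N = B⁻¹ M`. `uq`: `N x = N' x` gives `M x = B (N x) = M' x`, so
`M = M'`, `B ∘ N = B ∘ N'`, `N = N'`. `hexA`, `hexB`: apply `B` to the hypotheses and use the laws for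
the corresponding members of `S`, then injectivity of `B` (`P' ≠ 0` iff `B P' ≠ 0`). -/
def S_IHM : Prop :=
  ∀ (K V : Type) [Field K] [AddCommGroup V] [Module K V] [Finite V] (S : Set (Module.End K V))
    (B : Module.End K V), HS K V S → Function.Injective B →
    HS K V {N | ∃ M ∈ S, ∀ v, B (N v) = M v}

/-- [IH S1] (about 120 lines) Local structure.

Proof. `S' = {N | ∃ M ∈ S, ∀ v, B (N v) = M v}` is `HS` by `hM` (`HS.inj`), `1 ∈ S'` (`M = B`), `T ∈ S'`
(`M = A`). Let `I = {φ : K[X] | aeval T φ x = 0}` (an ideal), `R = K[X] ⧸ I`, and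
`ev : R →ₗ[K] V`, `ev (mk φ) = aeval T φ x`; it is injective, so `R` is finite, and nontrivial
(`ev 1 = x ≠ 0`). `1 ∈ frm S' ev` (identity) and `mk X ∈ frm S' ev` (`T`):
`T (aeval T ψ x) = aeval T (X * ψ) x`. `adjoin {mk X} = ⊤`. By `hL` and `hF` every `f : R` is in
`frm S' ev`.
(a) Let `M ∈ S`, `M x = B (aeval T φ x)`. There are `N ∈ S'`, `M' ∈ S`, `B (N v) = M' v`, with
`N (ev g) = ev (mk φ * g)`. `M' x = B (N (ev 1)) = B (aeval T φ x) = M x`, so `M' = M`, and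
`M (aeval T ψ x) = B (N (ev (mk ψ))) = B (aeval T (φ * ψ) x)`.
(b) `aeval T φ x ≠ 0` means `mk φ ≠ 0`; `mk φ = mk φ - 0` is a unit (`PhiB.unit` of the `PhiSet`), so
there is `ψ` with `mk (ψ * φ) = 1`, i.e. `aeval T (ψ * φ) x = x`. -/
def S_IHS1 : Prop :=
  S_IHF → S_IHL → S_IHM →
  ∀ (K V : Type) [Field K] [AddCommGroup V] [Module K V] [Finite V] (S : Set (Module.End K V)),
    HS K V S → (3 : K) = 0 → ∀ A ∈ S, ∀ B ∈ S, B ≠ 0 → ∀ T : Module.End K V,
    (∀ v, B (T v) = A v) → ∀ x : V, x ≠ 0 → ∀ φ : K[X],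
      (∀ M ∈ S, M x = B (aeval T φ x) → ∀ ψ : K[X], M (aeval T ψ x) = B (aeval T (φ * ψ) x)) ∧
      (aeval T φ x ≠ 0 → ∃ ψ : K[X], aeval T (ψ * φ) x = x)

/-- [IH S2] (about 50 lines, linear algebra)

Proof. Let `g ≠ 0`, `aeval T φ g = 0`, and suppose `aeval T φ w ≠ 0` for some `w`. Then `w ≠ 0`; by
the hypothesis for `w` there is `ψ` with `aeval T (ψ * φ) w = w`; replacing `φ` by `ψ * φ` we may
assume `aeval T φ w = w`, `aeval T φ g = 0`. Let `u = g + w`; `aeval T φ u = w`, `u ≠ 0` (as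
`aeval T φ u = w ≠ 0`). By the hypothesis for `u` and `φ` there is `ψ` with
`aeval T (ψ * φ) u = u`, i.e. `aeval T ψ w = g + w`, so `aeval T (ψ - 1) w = g`. Apply
`aeval T φ`: `aeval T (ψ - 1) (aeval T φ w) = aeval T φ g = 0`, i.e. `aeval T (ψ - 1) w = 0`, so
`g = 0`, contradiction. -/
def S_IHS2 : Prop :=
  ∀ (K V : Type) [Field K] [AddCommGroup V] [Module K V] (T : Module.End K V),
    (∀ x : V, x ≠ 0 → ∀ φ : K[X], aeval T φ x ≠ 0 → ∃ ψ : K[X], aeval T (ψ * φ) x = x) →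
    FldT T

/-! ## D. determinants -/

/-- [IH D1] (about 100 lines, linear algebra)

Proof. If `V` is trivial both determinants are 1. Otherwise let `m = minpoly K T`. By `h` the
minimal polynomials of `T` and `T'` are equal (each divides the other, both monic), and `m` is
irreducible (if `m = a b` then `aeval T a (aeval T b v) = 0`; by `FldT`, if `aeval T b v ≠ 0` for some `v`
then `aeval T a = 0`, `m ∣ a`; otherwise `aeval T b = 0`, `m ∣ b`). Let `L = AdjoinRoot m`, a finite field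
extension of `K` (`Fact (Irreducible m)`), `θ = root m`. `V` becomes an `L`-vector space in two ways,
`f • v = aeval T f v` and `aeval T' f v` (`Module.compHom V (AdjoinRoot.liftAlgHom ..).toRingHom`, use two
type synonyms or local instances; scalar tower over `K`). By `LinearMap.det_restrictScalars` and
`LinearMap.det_smul`-like lemmas, `det T = Algebra.norm K (θ ^ d)` with `d = finrank L V`, and the
same for `T'` with `d' = finrank L V` for the second structure. `|V| = |L|^d = |L|^d'`, so `d = d'`. (Or: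
the two `L`-spaces have the same finite cardinality, so they are isomorphic; a `K`-linear bijection
`e` with `e T = T' e` gives `det T = det T'` by `LinearMap.det_conj`.) -/
def S_IHD1 : Prop :=
  ∀ (K V : Type) [Field K] [Finite K] [AddCommGroup V] [Module K V] [Finite V]
    (T T' : Module.End K V), FldT T → FldT T' → (∀ φ : K[X], aeval T φ = 0 ↔ aeval T' φ = 0) →
    LinearMap.det T = LinearMap.det T'

/-- [IH D2] (about 80 lines) The determinant principle.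

Proof. Let `T'` with `B (T' v) = M v` (`HS.exT`) and `T'' = aeval T φ`.
(1) `T' (aeval T ψ x) = aeval T (φ * ψ) x` for all `ψ`, by `loc` and injectivity of `B`. By induction
on polynomials `aeval T' s (aeval T ψ x) = aeval T ((s.comp φ) * ψ) x`, and
`aeval T'' s = aeval T (s.comp φ)` (`Polynomial.aeval_comp`).
(2) `FldT T'` by `fld` for `(M, B)`; `FldT T` by `fld` for `(A, B)`; `FldT T''` since
`aeval T'' s = aeval T (s.comp φ)`.
(3) `aeval T' s = 0 ↔ aeval T' s x = 0` (`FldT T'`, `x ≠ 0`) `↔ aeval T (s.comp φ) x = 0 ↔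
aeval T'' s = 0`.
By D1 `det T' = det T''`, and `M = B * T'` gives `det M = det B * det T'`. -/
def S_IHD2 : Prop :=
  S_IHD1 → ∀ (K V : Type) [Field K] [Finite K] [AddCommGroup V] [Module K V] [Finite V]
    (S : Set (Module.End K V)), HL K V S → ∀ A ∈ S, ∀ B ∈ S, B ≠ 0 → ∀ T : Module.End K V,
    (∀ v, B (T v) = A v) → ∀ (x : V) (φ : K[X]), x ≠ 0 → ∀ M ∈ S, M x = B (aeval T φ x) →
    LinearMap.det M = LinearMap.det B * LinearMap.det (aeval T φ)

/-- conclusion of [IH D2] for one spread set -/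
def DetP {K V : Type} [Field K] [AddCommGroup V] [Module K V] (S : Set (Module.End K V)) : Prop :=
  ∀ A ∈ S, ∀ B ∈ S, B ≠ 0 → ∀ T : Module.End K V,
    (∀ v, B (T v) = A v) → ∀ (x : V) (φ : K[X]), x ≠ 0 → ∀ M ∈ S, M x = B (aeval T φ x) →
    LinearMap.det M = LinearMap.det B * LinearMap.det (aeval T φ)

/-- [IH D3] (about 40 lines)

Proof. If `B = 0` then `C = A` by `uq` and the claim is clear. Otherwise let `T` be the operator
`B⁻¹ A`, `φ = X - 1`: `aeval T φ = T - 1`, `B ((T - 1) x) = A x - B x = C x`, so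
`det C = det B * det (T - 1) = det (B * (T - 1)) = det (A - B)`. -/
def S_IHD3 : Prop :=
  ∀ (K V : Type) [Field K] [Finite K] [AddCommGroup V] [Module K V] [Finite V]
    (S : Set (Module.End K V)), HL K V S → DetP S → ∀ A ∈ S, ∀ B ∈ S, ∀ C ∈ S, ∀ x : V,
    x ≠ 0 → C x = A x - B x → LinearMap.det C = LinearMap.det (A - B)

/-- [IH D4] (about 150 lines)

Hypotheses: `hF : S_SFFF` (for `FldT T` the ring `K[T]` is a field: `F, E, θ` with `E θ = T` and
`∀ f : F, ∃ φ, f = aeval θ φ`; then `E f = aeval T φ`), `hD3` (D3 for `S`), `m = finrank K V` odd, so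
`det (-M) = - det M`.
(1) `det E * det X = - (det B)²`: `(-E) x = B v`, `X v = B x`. Let `T` be the operator `B⁻¹ X`; it is
injective, `T v = x`. By the field `F` of `T` there is `φ` with `aeval T φ = T⁻¹`
(`aeval T φ * T = 1 = T * aeval T φ`), so `v = aeval T φ x`, `(-E) x = B (aeval T φ x)`, and
`det (-E) = det B * det (T⁻¹)`, `det X = det B * det T`, `det T * det T⁻¹ = 1`.
(2) `det (E - E') * (det X * det Y) = (det B)² * det (X - Y)`: if `X = Y` then `v = v'` (`X` injective),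
`E = E'` (`uq`), and both sides are `0` (`det 0 = 0` since `V ≠ 0`). Let `X ≠ Y`. `w = v - v' ≠ 0`
(otherwise `X v = B x = Y v`, `v ≠ 0`, `X = Y`). Let `D ∈ S` with `D w = B x` (`ex`); `D ≠ 0`.
(2a) `det D * det (Y - X) = det X * det Y`: let `T` be the operator `Y⁻¹ X`; `T v = v'` (since
`Y (T v) = X v = B x = Y v'`), `w = (1 - T) v`, `1 - T ≠ 0`, so in the field of `T` there is `φ` with
`aeval T φ = T * (1 - T)⁻¹`, and `D w = B x = X v = Y (T v) = Y (aeval T φ w)`. So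
`det D = det Y * det T * det (1 - T)⁻¹`, with `det Y * det T = det X` and
`det Y * det (1 - T) = det (Y - X)`.
(2b) Let `C ∈ S` with `C x = E x - E' x = - B w`. `hD3`: `det C = det (E - E')`. `(-C) x = B w`,
`D w = B x`: by (1) (with `D, w, C` in the place of `X, v, E`) `det C * det D = - (det B)²`.
So `det (E - E') * det X * det Y = det C * det D * det (Y - X) = - (det B)² det (Y - X)
= (det B)² det (X - Y)` (`det (-M) = - det M`). -/
def S_IHD4 : Prop :=
  S_SFFF → ∀ (K V : Type) [Field K] [Finite K] [AddCommGroup V] [Module K V] [Finite V]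
    (S : Set (Module.End K V)), HL K V S → DetP S →
    (∀ A ∈ S, ∀ B ∈ S, ∀ C ∈ S, ∀ x : V, x ≠ 0 → C x = A x - B x →
      LinearMap.det C = LinearMap.det (A - B)) →
    Odd (Module.finrank K V) →
    ∀ B ∈ S, ∀ X ∈ S, ∀ Y ∈ S, ∀ E ∈ S, ∀ E' ∈ S, ∀ x v v' : V, B ≠ 0 → X ≠ 0 → Y ≠ 0 → x ≠ 0 →
      X v = B x → E x = - B v → Y v' = B x → E' x = - B v' →
      LinearMap.det E * LinearMap.det X = - (LinearMap.det B) ^ 2 ∧
      LinearMap.det (E - E') * (LinearMap.det X * LinearMap.det Y) =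
        (LinearMap.det B) ^ 2 * LinearMap.det (X - Y)

/-- [IH D5] (about 120 lines)

Proof. Let `T` be the operator `B⁻¹ C`; it is injective, `FldT T` by `fld`. Take `F, E, θ` from `hF`
(`E θ = T`, every `f : F` is `aeval θ φ`, so `E f = aeval T φ`); `E` is injective. `Fˣ` is cyclic; let
`γ` be a generator, `θ = γ ^ j`, `δ = det (E γ) ∈ K`, `δ ≠ 0`.
Claim: `j` is even. Suppose `j` is odd. `det C = det B * det T`, so `δ ^ (j * o) = (det T) ^ o = 1`:
the order of `δ` divides `j * o` and is odd. Let `c` be a generator of `Kˣ`, `algebraMap c = γ ^ i`;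
`det (c • 1) = c ^ m` (`m = finrank K V`, `LinearMap.det_smul`), so `c ^ m = δ ^ i` has odd order.
`c` has order `|K| - 1 = 2 ^ a * o`, which is even (`a ≠ 0`), and `m` is odd: `(c ^ m) ^ n = 1` with `n`
odd gives `2 ^ a * o ∣ m * n` odd, contradiction.
So `θ = (γ ^ (j/2)) ^ 2`, `T = G²` with `G = E (γ ^ (j/2)) = aeval T φ`. Let `A ∈ S` with
`A x = B (G x)` (`ex`). By `loc` (for `(C, B)`, `T`, `M = A`, `ψ = φ`): `A (G x) = B (G (G x))
= B (T x) = C x`. Put `u = G x`. By `DetP`: `det A = det B * det G`, `det C = det B * det T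
= det B * (det G)²`, so `(det A)² = det B * det C`. `A ≠ 0` as `G x ≠ 0`. -/
def S_IHD5 : Prop :=
  S_SFFF → ∀ (K V : Type) [Field K] [Finite K] [AddCommGroup V] [Module K V] [Finite V]
    (S : Set (Module.End K V)), HL K V S → DetP S → Odd (Module.finrank K V) →
    ∀ a o : ℕ, a ≠ 0 → Odd o → Nat.card K - 1 = 2 ^ a * o →
    ∀ B ∈ S, ∀ C ∈ S, ∀ x : V, B ≠ 0 → C ≠ 0 → x ≠ 0 →
      (LinearMap.det C) ^ o = (LinearMap.det B) ^ o →
      ∃ A ∈ S, ∃ u : V, A ≠ 0 ∧ B u = A x ∧ A u = C x ∧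
        (LinearMap.det A) ^ 2 = LinearMap.det B * LinearMap.det C

/-! ## G. groups and tournaments -/

/-- [IH GA] (about 150 lines) The trace lemma.

Proof. Let `s = orderOf g`. By Dirichlet (`Nat.forall_exists_prime_gt_and_eq_mod`, modulus `3 * s`,
Chinese remainder: `3` and `s` are coprime) there is a prime `ℓ > |X| + 3` with `ℓ ≡ 1` mod `s` and
`ℓ ≡ 2` mod `3`. Fix a point `p : X` (if `X` is empty the sum is 0); `v ↦ T v p` is a bijection `V → X`.
Let `c v = χ p (T v p) ∈ {0, 1, -1}`. For `a = T u p`, `b = T w p`: `χ a b = c (w - u)` (invariance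
under `T u`). `c (-v) = - c v` (apply `T v`, `anti`). Work with matrices over `ZMod ℓ` indexed by `X`
(or by `V`): `A a b = χ a b`, `E v a b = 1` if `b = T v a`, else `0` (a permutation matrix). Then
`A = Σ_v c v • E v`, `E v * E w = E (v + w)`, the `E v` commute, so by the Frobenius
(`add_pow_char`/`sum_pow_char` in the commutative subalgebra, or induction with
`Commute.add_pow_char..`) `A ^ ℓ = Σ_v (c v) ^ ℓ • (E v) ^ ℓ = Σ_v c v • E (ℓ v) = Σ_v c v • E (-v) = - A`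
(`(c v)^ℓ = c v`, `ℓ v = 2 v = - v`). Let `Q a b = 1` if `b = g a`, else `0`: `Q ^ ℓ = Q` since
`g ^ ℓ = g`, and `Q * A = A * Q` by invariance of `χ` under `g`. So `N = Q * A` satisfies
`N ^ ℓ = - N`, and `ZMod.trace_pow_card` (`trace (N ^ ℓ) = (trace N) ^ ℓ`) gives
`- trace N = (trace N)^ℓ = trace N` (`ZMod.pow_card`), `2 trace N = 0`, `trace N = 0` in `ZMod ℓ`.
`trace N = Σ_a χ (g a) a = - Σ_a χ a (g a)`. So `ℓ` divides the integer `Σ_a χ a (g a)`, whose
absolute value is `≤ |X| < ℓ`, so it is `0`. -/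
def S_IHGA : Prop :=
  ∀ (X V : Type) [Fintype X] [AddCommGroup V] [Finite V] (χ : X → X → ℤ) (T : V → Equiv.Perm X),
    Tour X χ → RegAct X V T → (∀ v a b, χ (T v a) (T v b) = χ a b) →
    ∀ g : Equiv.Perm X, (∀ a b, χ (g a) (g b) = χ a b) → Nat.Coprime (orderOf g) 3 →
      ∑ a, χ a (g a) = 0

/-- [IH GO] (about 20 lines) Automorphism groups of tournaments have odd order.

Proof. Otherwise there is `g ∈ G` of order 2 (`exists_prime_orderOf_dvd_card`), `g a = b ≠ a` for some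
`a`, `g b = a`, and `χ a b = χ (g a) (g b) = χ b a = - χ a b`, so `χ a b = 0`, contradicting `val`. -/
def S_IHGO : Prop :=
  ∀ (X : Type) [Finite X] (χ : X → X → ℤ), Tour X χ → ∀ G : Subgroup (Equiv.Perm X),
    (∀ g ∈ G, ∀ a b, χ (g a) (g b) = χ a b) → Odd (Nat.card G)

/-- [IH GB] (about 60 lines)

Proof. `σ = τ * g` satisfies `σ * σ = τ g τ g = g⁻¹ g = 1` and `χ (σ a) (σ b) = - χ a b`. Since `|X|` is odd,
`σ` has a fixed point `M` (`Function.Involutive`, `Fintype.card_fixedPoints`-type parity), and only one: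
two fixed points `a ≠ b` would give `χ a b = - χ a b`. Let `f a = χ a (g a)`. `f (σ a) = f a`:
`χ (τ (g a)) (g (τ (g a)))`, and `g τ g = τ` (from `τ g τ = g⁻¹`), so it is
`χ (τ (g a)) (τ a) = - χ (g a) a = χ a (g a)`. So `Σ_a f a ≡ f M` mod 2 (the other points are paired by
`σ`; e.g. `Finset.sum_involution`-like argument on the complement of `M` in `ZMod 2`). The sum is 0,
so `f M = χ M (g M)` is even, not `±1`, so `g M = M`. Then `τ M = τ (g M) = σ M = M`. As `τ N = N`,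
uniqueness of the fixed point of `τ` gives `M = N`, and `g N = N`. -/
def S_IHGB : Prop :=
  ∀ (X : Type) [Fintype X] (χ : X → X → ℤ), Tour X χ → Odd (Fintype.card X) →
    ∀ (τ g : Equiv.Perm X) (N : X), τ * τ = 1 → (∀ a b, χ (τ a) (τ b) = -χ a b) → τ N = N →
      (∀ a b, χ (g a) (g b) = χ a b) → ∑ a, χ a (g a) = 0 → τ * g * τ = g⁻¹ → g N = N

/-- [IH GC] (about 100 lines)

Proof. `G` is finite of odd order (`hO`). Conjugation by `τ` is an automorphism `t` of `G` with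
`t (t g) = g`. `hS` (`S_SFSYL`) for `Z = ⊥` (`g * g = 1` implies `g = 1` as the order is odd) gives
`P : Subgroup G`, an `s`-group, `¬ s ∣ P.index`, invariant under `t`.
Claim: every `r ∈ P` fixes `N`. Let `u = r * t r⁻¹ ∈ P`; `t u = t r * r⁻¹ = u⁻¹`. The order `m` of `u` is
odd; put `k = u ^ ((m + 1) / 2) ∈ P`, `k * k = u`, `t k = k⁻¹` (`t` of a power). The order of `k` is a
power of `s`, coprime to 3, so `k N = N` by `hB`. Let `c = k⁻¹ * r`; `t c = k * t r`, and `c = t c`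
because `k * (k * t r) = u * t r = r`. So `τ c τ = c`, `τ (c N) = c (τ N) = c N`; so `N` and `c N` are
fixed by `τ`, and two different fixed points would give `χ = - χ ≠ 0`. So `c N = N` and
`r N = k (c N) = N`.
So `P ≤ stabilizer G N`, and the cardinality of the orbit is the index of the stabilizer, which
divides `P.index` (`Subgroup.index_dvd_of_le`); so `s` does not divide it. -/
def S_IHGC : Prop :=
  S_SFSYL → S_IHGO → ∀ (X : Type) [Finite X] (χ : X → X → ℤ), Tour X χ →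
    ∀ (G : Subgroup (Equiv.Perm X)) (τ : Equiv.Perm X) (N : X) (s : ℕ),
      (∀ g ∈ G, ∀ a b, χ (g a) (g b) = χ a b) → τ * τ = 1 → (∀ a b, χ (τ a) (τ b) = -χ a b) →
      τ N = N → (∀ g ∈ G, τ * g * τ ∈ G) →
      (∀ g ∈ G, Nat.Coprime (orderOf g) 3 → τ * g * τ = g⁻¹ → g N = N) →
      s.Prime → s ≠ 3 → ¬ s ∣ Nat.card (MulAction.orbit G N)

/-- [IH GD] (about 200 lines) A central element of order 3 of an invariant Sylow 3-subgroup.

Proof. `G` is finite of odd order (`hO`). `|X| = |V| = 3 ^ n` (`v ↦ T v o` is bijective, `V` is a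
3-group by `exp`), `n ≥ 1`. `t g = ι g ι` is an automorphism of `G`. `hS` (`S_SFSYL`, `Z = ⊥`, `ℓ = 3`)
gives `P : Subgroup G`, a 3-group with `¬ 3 ∣ P.index`, `t`-invariant. Let `G_o`, `P_o` be the
stabilizers of `o` (`P_o` as a subgroup of `G`). `[G : P_o] = [G : P] [P : P_o] = [G : G_o] [G_o : P_o]`
and `[G : G_o] = |X| = 3 ^ n` (`G` is transitive by `T`). As `3 ∤ [G : P]`, `3 ^ n ∣ [P : P_o]`, the
orbit length of `o` under `P`, which is `≤ 3 ^ n`. So `P` is transitive and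
`[G_o : P_o] = [G : P]` is not divisible by 3.
`P ≠ 1` (it is transitive and `X` has two points), so `center P ≠ 1` (`IsPGroup.center_nontrivial`);
it is `t`-invariant. If `c ∈ center P` and `t c = c` then `ι (c o) = c (ι o) = c o`, and `ι` has only the
fixed point `o` (two fixed points give `χ = -χ`), so `c o = o`, and `c (p o) = p (c o) = p o` for all
`p ∈ P`, so `c = 1`. For `z ∈ center P` the element `z * t z` is fixed by `t` and in the center, so
`t z = z⁻¹`. Let `ζ ∈ center P` of order 3 (Cauchy). `ζ o ≠ o` (otherwise `ζ = 1` as before).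
Every `p ∈ P_o` fixes `ζ o` (`p ζ o = ζ p o = ζ o`) and `ζ⁻¹ o`. So
`P_o ≤ stabilizer of ζ⁻¹ o in G2 G o (ζ o) ≤ G2 G o (ζ o) ≤ G_o`; the orbit length of `ζ⁻¹ o` under
`G2 G o (ζ o)` is an index that divides `[G_o : P_o]`, so it is not divisible by 3. -/
def S_IHGD : Prop :=
  S_SFSYL → S_IHGO → ∀ (X V : Type) [Finite X] [AddCommGroup V] [Finite V] (χ : X → X → ℤ)
    (T : V → Equiv.Perm X), Tour X χ → RegAct X V T →
    ∀ (G : Subgroup (Equiv.Perm X)) (ι : Equiv.Perm X) (o : X),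
      (∀ g ∈ G, ∀ a b, χ (g a) (g b) = χ a b) → (∀ v, T v ∈ G) → ι * ι = 1 →
      (∀ a b, χ (ι a) (ι b) = -χ a b) → ι o = o → (∀ g ∈ G, ι * g * ι ∈ G) → (∃ a : X, a ≠ o) →
      ∃ ζ ∈ G, ζ * ζ * ζ = 1 ∧ ζ o ≠ o ∧ ι * ζ * ι = ζ⁻¹ ∧
        ¬ 3 ∣ Nat.card (MulAction.orbit (G2 G o (ζ o)) (ζ⁻¹ o))

/-- [IH GE] (about 100 lines)

Proof. Take `ζ` from `hD` (GD). Let `N = ζ⁻¹ o = T v o` (`reg`), `τ = T v * ι * (T v)⁻¹`. `τ * τ = 1`,
`χ (τ a) (τ b) = - χ a b`, `τ N = N`. `(T v)⁻¹ = T (-v)`, `ι * T (-v) = T v * ι`, so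
`τ = T v * T v * ι = T (-v) * ι` (`RegAct.two`), `τ o = T (-v) o`. From `ι ζ ι = ζ⁻¹`:
`ζ o = ι (ζ⁻¹ (ι o)) = ι (T v o) = T (-v) (ι o) = T (-v) o`. So `τ o = ζ o` and `τ (ζ o) = o`.
Let `H = G2 G o (ζ o)`. `τ` normalises `G` (`ι`, `T v` do), so `τ g τ ∈ H` for `g ∈ H`. For `g ∈ H` of
order coprime to 3 with `τ g τ = g⁻¹`: `hA` (GA) gives `Σ χ a (g a) = 0` and `hB` (GB) gives `g N = N`
(`|X|` is odd: `|X| = |V|` is a power of 3, or: the involution `ι` has exactly one fixed point).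
`hC` (GC) for `H, τ, N` and every prime `s ≠ 3`: `s` does not divide `|orbit H N|`; for `s = 3` this is
the last claim of GD. So `|orbit H N| = 1` and every `g ∈ H` fixes `N`. -/
def S_IHGE : Prop :=
  S_SFSYL → S_IHGO → S_IHGA → S_IHGB → S_IHGC → S_IHGD →
  ∀ (X V : Type) [Finite X] [AddCommGroup V] [Finite V] (χ : X → X → ℤ)
    (T : V → Equiv.Perm X), Tour X χ → RegAct X V T →
    ∀ (G : Subgroup (Equiv.Perm X)) (ι : Equiv.Perm X) (o : X),
      (∀ g ∈ G, ∀ a b, χ (g a) (g b) = χ a b) → (∀ v, T v ∈ G) → ι * ι = 1 →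
      (∀ a b, χ (ι a) (ι b) = -χ a b) → ι o = o → (∀ g ∈ G, ι * g * ι ∈ G) →
      (∀ v, ι * T v * ι = T (-v)) → (∃ a : X, a ≠ o) →
      ∃ ζ ∈ G, ζ * ζ * ζ = 1 ∧ ζ o ≠ o ∧ ι * ζ * ι = ζ⁻¹ ∧
        ∀ g ∈ G, g o = o → g (ζ o) = ζ o → g (ζ⁻¹ o) = ζ⁻¹ o

/-- [IH GF] (about 120 lines) The third point function.

Proof. Let `H` be the set of all `g * σ`, `g ∈ G`, `σ ∈ Σ`; it is closed under products and inverses
(`Σ` normalises `G`), contains `G`, `Σ`, `ι`, `ζ`.
(i) `h ∈ H`, `h o = o`, `h (ζ o) = ζ o` implies `h (ζ⁻¹ o) = ζ⁻¹ o`: `h = g σ`, `g o = g (σ o) = o`,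
`g (σ (ζ o)) = ζ o`, so `σ ∈ G` (`hrig`), `h ∈ G`, and `hE`.
(ii) For `a ≠ b` there is `h ∈ H` with `h o = a`, `h (ζ o) = b`: `a = k o` with `k ∈ G`, `k⁻¹ b ≠ o`, and
`htr` gives `g, σ` with `g o = o`, `g (σ (ζ o)) = k⁻¹ b`; `h = k g σ`.
(iii) Define `m a b = h (ζ⁻¹ o)` for any such `h` (choice; `m a a` arbitrary). By (i) it does not depend
on `h`: if `h, h'` are two such elements, `h⁻¹ h'` fixes `o` and `ζ o`, hence `ζ⁻¹ o`.
(iv) For `k ∈ H`, `a ≠ b`: `m (k a) (k b) = k (m a b)` (use `k h`). This gives the first two claims.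
(v) Symmetry: let `a = h o`, `b = h (ζ o)`, `h' = h ζ ι ∈ H`. `h' o = h (ζ o) = b`;
`h' (ζ o) = h ζ (ι ζ ι) (ι o) = h ζ ζ⁻¹ o = a`; `h' (ζ⁻¹ o) = h ζ (ι ζ⁻¹ ι) o = h ζ ζ o = h (ζ⁻¹ o)`. So
`m b a = h (ζ⁻¹ o) = m a b`. -/
def S_IHGF : Prop :=
  ∀ (X : Type) (G Sg : Subgroup (Equiv.Perm X)) (ι ζ : Equiv.Perm X) (o : X),
    ι * ι = 1 → ι ∈ Sg → (∀ σ ∈ Sg, σ o = o ∧ ∀ g ∈ G, σ * g * σ⁻¹ ∈ G) →
    (∀ a : X, ∃ g ∈ G, g o = a) → ζ ∈ G → ζ * ζ * ζ = 1 → ζ o ≠ o → ι * ζ * ι = ζ⁻¹ →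
    (∀ g ∈ G, g o = o → g (ζ o) = ζ o → g (ζ⁻¹ o) = ζ⁻¹ o) →
    (∀ b : X, b ≠ o → ∃ σ ∈ Sg, ∃ g ∈ G, g o = o ∧ g (σ (ζ o)) = b) →
    (∀ σ ∈ Sg, ∀ g ∈ G, g o = o → g (σ (ζ o)) = ζ o → σ ∈ G) →
    ∃ m : X → X → X, (∀ g ∈ G, ∀ a b, a ≠ b → m (g a) (g b) = g (m a b)) ∧
      (∀ a b, a ≠ b → m (ι a) (ι b) = ι (m a b)) ∧ ∀ a b, a ≠ b → m a b = m b a

/-- [IH GT] (about 50 lines) The third point in the coordinates of a regular action.

Proof. First `a = o`. Let `w ≠ 0`, `m o (T w o) = T w' o` (`reg`). `m (T w o) o = T w' o` by symmetry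
(`T w o ≠ o` by `free`). Apply `T (-w)`: `m o (T (-w) o) = T (w' - w) o`. Apply `ι`
(`ι (T v o) = T (-v) (ι o) = T (-v) o`): `m o (T w o) = T (w - w') o`. So `w' = w - w'` (`RegAct.inj`),
`w = w' + w' = - w'`, `w' = - w`. In general `a = T u o`, and `T u` commutes with `T w`:
`m (T u o) (T u (T w o)) = T u (T (-w) o) = T (-w) a`. -/
def S_IHGT : Prop :=
  ∀ (X V : Type) [AddCommGroup V] (T : V → Equiv.Perm X), RegAct X V T →
    ∀ (ι : Equiv.Perm X) (o : X) (m : X → X → X), ι o = o → (∀ v, ι * T v * ι = T (-v)) →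
      ι * ι = 1 → (∀ v a b, a ≠ b → m (T v a) (T v b) = T v (m a b)) →
      (∀ a b, a ≠ b → m (ι a) (ι b) = ι (m a b)) → (∀ a b, a ≠ b → m a b = m b a) →
      ∀ (a : X) (w : V), w ≠ 0 → m a (T w a) = T (-w) a

/-! ## Z. odd dimension -/

/-- [IH Z1] (about 60 lines) The regular actions on `S`.

Proof. For `v : V` and `M ∈ S` let `T v M` be the member `M'` of `S` with `M' p = M p + v` (`ex`, unique by
`uq`); it is a permutation with inverse `T (-v)`. `add`, `reg` (`v = b p - a p`), `free` (`v = 0` from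
`M p = M p + v`) are clear. `exp`: `3 = 0` in `K`. `ι M = - M`:
`(ι (T v (ι M))) p = - ((- M) p + v) = M p - v`. -/
def S_IHZ1 : Prop :=
  ∀ (K V : Type) [Field K] [AddCommGroup V] [Module K V] [Finite V] (S : Set (Module.End K V)),
    HS K V S → (3 : K) = 0 → ∀ ι : Equiv.Perm S, (∀ M : S, (ι M : Module.End K V) = -M) →
    ∀ p : V, p ≠ 0 → ∃ T : V → Equiv.Perm S, RegAct S V T ∧
      (∀ (v : V) (M : S), (T v M : Module.End K V) p = (M : Module.End K V) p + v) ∧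
      ∀ v, ι * T v * ι = T (-v)

/-- [IH Z2] (about 60 lines) The maps `t`.

Proof. `t M` for `M ≠ 0`: `M` is bijective, `v = M⁻¹ (B p) ≠ 0`, and `t M` is the member `E` of `S` with
`E p = - B v` (`ex`, `uq`), `E ≠ 0`; `t 0 = 0`. `t` is injective on the nonzero members: `E = E'` gives
`B v = B v'`, `v = v'`, `M v = B p = M' v`, `M = M'` (`v ≠ 0`). `S` is finite, so `t` is a permutation
(`Equiv.ofBijective`, `Finite.injective_iff_bijective`; `S` is finite as a set of endomorphisms of a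
finite space). -/
def S_IHZ2 : Prop :=
  ∀ (K V : Type) [Field K] [AddCommGroup V] [Module K V] [Finite V] (S : Set (Module.End K V)),
    HS K V S → ∀ B ∈ S, B ≠ 0 → ∀ p : V, p ≠ 0 →
    ∃ t : Equiv.Perm S, (∀ M : S, (M : Module.End K V) = 0 → (t M : Module.End K V) = 0) ∧
      ∀ M : S, (M : Module.End K V) ≠ 0 → (t M : Module.End K V) ≠ 0 ∧
        ∃ v : V, (M : Module.End K V) v = B p ∧ (t M : Module.End K V) p = - B v

/-- [IH Z3] (about 120 lines) Transitivity.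

Hypotheses: `h4` is the conclusion of D4, `h5` the conclusion of D5 (for this `o`), `h2` of Z2.
Proof. Let `p ≠ 0`. By `h5` take `A ∈ S`, `u` with `B u = A p`, `A u = C p`,
`(det A)² = det B * det C`. Let `tA, tB` be the permutations of `h2` for `A`, `B` (and `p`), `g = tA * tB`.
`g 0 = 0`. `g B = C`: `tB B = E` with `v = p` (`B v = B p`, `v = p` by injectivity), `E p = - B p`, so
`E = - B`; `tA (-B) = E1` with `(-B) v = A p`, so `v = - u`, `E1 p = - A v = A u = C p`, `E1 = C`.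
For `X, Y ∈ S` nonzero, `X' = tB X`, `Y' = tB Y` (nonzero), `X'' = tA X'`, `Y'' = tA Y'`; by `h4` (with
`d = det`): `d X' * d X = - (d B)²`, `d (X' - Y') * (d X * d Y) = (d B)² * d (X - Y)`, and
`d X'' * d X' = - (d A)²`, `d (X'' - Y'') * (d X' * d Y') = (d A)² * d (X' - Y')`. Multiply:
`d (X'' - Y'') * (d X' d Y') * (d X d Y) = (d A)² (d B)² d (X - Y)` and
`(d X' d X) (d Y' d Y) = (d B)⁴`, so `d (X'' - Y'') (d B)² = (d A)² d (X - Y)`.
Since `(d A)^(2 o) = (d B)^o (d C)^o = (d B)^(2 o)`: `(d (X'' - Y''))^o = (d (X - Y))^o` (`d B ≠ 0`).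
For `Y = 0` (`Y'' = 0`): `d X'' * d X' = -(d A)²`, `d X' d X = -(d B)²`, so `d X'' (d B)² = (d A)² d X`
and again the `o`-th powers of `d (X'' - 0)` and `d (X - 0)` agree; for `X = 0` use
`d (-M) = - d M` (odd dimension) on both sides; `X = Y = 0` is trivial (`g 0 = 0`). -/
def S_IHZ3 : Prop :=
  S_IHZ2 → ∀ (K V : Type) [Field K] [Finite K] [AddCommGroup V] [Module K V] [Finite V]
    (S : Set (Module.End K V)), HS K V S → Odd (Module.finrank K V) → ∀ o : ℕ,
    (∀ B ∈ S, ∀ X ∈ S, ∀ Y ∈ S, ∀ E ∈ S, ∀ E' ∈ S, ∀ x v v' : V, B ≠ 0 → X ≠ 0 → Y ≠ 0 → x ≠ 0 →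
      X v = B x → E x = - B v → Y v' = B x → E' x = - B v' →
      LinearMap.det E * LinearMap.det X = - (LinearMap.det B) ^ 2 ∧
      LinearMap.det (E - E') * (LinearMap.det X * LinearMap.det Y) =
        (LinearMap.det B) ^ 2 * LinearMap.det (X - Y)) →
    (∀ B ∈ S, ∀ C ∈ S, ∀ x : V, B ≠ 0 → C ≠ 0 → x ≠ 0 →
      (LinearMap.det C) ^ o = (LinearMap.det B) ^ o →
      ∃ A ∈ S, ∃ u : V, A ≠ 0 ∧ B u = A x ∧ A u = C x ∧
        (LinearMap.det A) ^ 2 = LinearMap.det B * LinearMap.det C) →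
    ∀ B C : S, (B : Module.End K V) ≠ 0 → (C : Module.End K V) ≠ 0 →
      (LinearMap.det (C : Module.End K V)) ^ o = (LinearMap.det (B : Module.End K V)) ^ o →
      ∃ g : Equiv.Perm S, g B = C ∧
        (∀ M : S, (M : Module.End K V) = 0 → (g M : Module.End K V) = 0) ∧
        ∀ X Y : S, (LinearMap.det ((g X : Module.End K V) - (g Y : Module.End K V))) ^ o =
          (LinearMap.det ((X : Module.End K V) - (Y : Module.End K V))) ^ o

/-- [IH SG] (about 40 lines) A sign function.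

Proof. `z ≠ -z` for `z ≠ 0` since `2 ≠ 0`. `K` is finite; take an injection `e : K → ℕ`
(`Finite.exists_equiv_fin`) and put `s z = 0` for `z = 0`, `1` if `e z < e (-z)`, `-1` otherwise. For
`z ≠ 0` exactly one of `e z < e (-z)`, `e (-z) < e z` holds. -/
def S_IHSG : Prop :=
  ∀ (K : Type) [Field K] [Finite K], (2 : K) ≠ 0 → ∃ s : K → ℤ, s 0 = 0 ∧
    (∀ z, z ≠ 0 → s z = 1 ∨ s z = -1) ∧ ∀ z, s (-z) = -s z

/-- [IH PW] (about 40 lines)

Proof. `m` is odd, so there is `k` with `m * k ≡ 1` mod `2 ^ a` (`Nat.exists_mul_mod_eq_one_of_coprime`;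
for `a = 0` any `k` works). Let `c = y ^ k`. `y ^ (2 ^ a * o) = 1` (`FiniteField.pow_card_sub_one_eq_one`),
so `(y ^ o) ^ (2 ^ a) = 1` and `c ^ (m * o) = (y ^ o) ^ (m * k) = y ^ o`. -/
def S_IHPW : Prop :=
  ∀ (K : Type) [Field K] [Finite K] (a o m : ℕ), Odd m → Nat.card K - 1 = 2 ^ a * o →
    ∀ y : K, y ≠ 0 → ∃ c : K, c ≠ 0 ∧ c ^ (m * o) = y ^ o

/-- [IH Z4] (about 200 lines) Odd dimension: `S` is additive.

Hypotheses: `h3` (D3 for `S`), `hZ3` (conclusion of Z3), `hE` = conclusion of GE.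
Proof. `V` is nontrivial (odd dimension). Let `X = S` (subtype), `o0 = ⟨0, _⟩`, `m = finrank K V`,
`ψ A B = (det (A - B)) ^ o`. `ψ A B ≠ 0` for `A ≠ B` (`HS.det_ne`), `ψ B A = - ψ A B` (`m`, `o` odd),
`ψ A A = 0` (`det 0 = 0`, `o ≠ 0`). Take `s` from `hSG` (`2 ≠ 0` as `3 = 0`). `χ A B = s (ψ A B)` is a
`Tour`. `G = {g : Perm S | ∀ A B, ψ (g A) (g B) = ψ A B}` (subgroup; its elements preserve `χ`).
`ι = neg`: `ψ (ι A) (ι B) = - ψ A B`, it normalises `G`. For `c : Kˣ` let `σ_c M = c • M`; `Σ` = the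
subgroup of all `σ_c` (carrier `{σ | ∃ c : K, c ≠ 0 ∧ ∀ M, (σ M : End) = c • M}`); `ι = σ_(-1)`;
`ψ (σ_c A) (σ_c B) = c^(m o) ψ A B` (`LinearMap.det_smul`), so `Σ` normalises `G`. For `p ≠ 0` let `T_p`
be the action of Z1: `T_p v ∈ G` by `h3`: if `A' p = A p + v`, `B' p = B p + v` and `C ∈ S`,
`C p = A p - B p = A' p - B' p` then `det (A - B) = det C = det (A' - B')`. `G` is transitive (by `T_p`).
`hE` for `χ`, `T_p` (one `p`) gives `ζ`.
`htr` of GF: let `b ≠ o0`, `M0 = ζ o0 ≠ 0`, `y = det b / det M0`, `c` from `hPW` with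
`c^(m o) = y^o`: `(det (c • M0))^o = (c^m det M0)^o = (det b)^o`, and `hZ3` (for `c • M0`, `b`) gives
`g ∈ G`, `g o0 = o0`, `g (σ_c M0) = b`.
`hrig` of GF: if `g o0 = o0`, `g (σ_c M0) = M0` then
`ψ o0 M0 = ψ (g (σ_c o0)) (g (σ_c M0)) = c^(m o) ψ o0 M0`, so `c^(m o) = 1` and `σ_c ∈ G`.
GF gives the third point function `μ`. For `A ≠ B` in `S` and every `p ≠ 0` let `w = B p - A p ≠ 0`,
`B = T_p w A`; GT gives `μ A B = T_p (-w) A`, so `(μ A B) p = A p - (B p - A p) = - (A p + B p)` (`3 = 0`).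
The element `C = μ A B ∈ S` does not depend on `p`, so `C = - (A + B)` and `A + B = - C ∈ S`. For
`A = B`: `A + A = - A ∈ S`. -/
def S_IHZ4 : Prop :=
  S_IHGF → S_IHGT → S_IHZ1 → S_IHSG → S_IHPW →
  (∀ (X V : Type) [Finite X] [AddCommGroup V] [Finite V] (χ : X → X → ℤ)
    (T : V → Equiv.Perm X), Tour X χ → RegAct X V T →
    ∀ (G : Subgroup (Equiv.Perm X)) (ι : Equiv.Perm X) (o : X),
      (∀ g ∈ G, ∀ a b, χ (g a) (g b) = χ a b) → (∀ v, T v ∈ G) → ι * ι = 1 →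
      (∀ a b, χ (ι a) (ι b) = -χ a b) → ι o = o → (∀ g ∈ G, ι * g * ι ∈ G) →
      (∀ v, ι * T v * ι = T (-v)) → (∃ a : X, a ≠ o) →
      ∃ ζ ∈ G, ζ * ζ * ζ = 1 ∧ ζ o ≠ o ∧ ι * ζ * ι = ζ⁻¹ ∧
        ∀ g ∈ G, g o = o → g (ζ o) = ζ o → g (ζ⁻¹ o) = ζ⁻¹ o) →
  ∀ (K V : Type) [Field K] [Finite K] [AddCommGroup V] [Module K V] [Finite V]
    (S : Set (Module.End K V)), HS K V S → (3 : K) = 0 → Odd (Module.finrank K V) →
    ∀ a o : ℕ, Odd o → Nat.card K - 1 = 2 ^ a * o →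
    (∀ A ∈ S, ∀ B ∈ S, ∀ C ∈ S, ∀ x : V, x ≠ 0 → C x = A x - B x →
      LinearMap.det C = LinearMap.det (A - B)) →
    (∀ B C : S, (B : Module.End K V) ≠ 0 → (C : Module.End K V) ≠ 0 →
      (LinearMap.det (C : Module.End K V)) ^ o = (LinearMap.det (B : Module.End K V)) ^ o →
      ∃ g : Equiv.Perm S, g B = C ∧
        (∀ M : S, (M : Module.End K V) = 0 → (g M : Module.End K V) = 0) ∧
        ∀ X Y : S, (LinearMap.det ((g X : Module.End K V) - (g Y : Module.End K V))) ^ o =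
          (LinearMap.det ((X : Module.End K V) - (Y : Module.End K V))) ^ o) →
    ∀ A ∈ S, ∀ B ∈ S, A + B ∈ S

end Pool.Agent.TP3
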